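import Mathlib
set_option autoImplicit false
open Set Metric Filter Topology

/-! Complements of thin sets; job solved by helper148. -/
namespace Pool.Agent.Helper417.Mer
namespace ThinAux

theorem glue {X : Type*} [TopologicalSpace X] {W S : Set X} (hW : IsPreconnected W) (hSW : S ⊆ W)
    (hd : W ⊆ closure S)
    (hl : ∀ x ∈ W, ∃ O : Set X, IsOpen O ∧ x ∈ O ∧ IsPreconnected (O ∩ S)) :
    IsPreconnected S := by
  intro u v hu hv huv hSu hSv
  by_contra hne
  rw [Set.not_nonempty_iff_eq_empty] at hne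
  have key := hW (⋃₀ {O | IsOpen O ∧ O ∩ S ⊆ u}) (⋃₀ {O | IsOpen O ∧ O ∩ S ⊆ v})
    (isOpen_sUnion fun O hO => hO.1) (isOpen_sUnion fun O hO => hO.1) ?_ ?_ ?_
  · obtain ⟨z, hzW, ⟨O1, hO1, hz1⟩, ⟨O2, hO2, hz2⟩⟩ := key
    have hz := hd hzW
    rw [_root_.mem_closure_iff] at hz
    obtain ⟨y, ⟨hy1, hy2⟩, hyS⟩ := hz (O1 ∩ O2) (hO1.1.inter hO2.1) ⟨hz1, hz2⟩
    have : y ∈ S ∩ (u ∩ v) := ⟨hyS, hO1.2 ⟨hy1, hyS⟩, hO2.2 ⟨hy2, hyS⟩⟩
    rw [hne] at this
    exact this
  · intro x hx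
    obtain ⟨O, hO, hxO, hOp⟩ := hl x hx
    rw [isPreconnected_iff_subset_of_disjoint] at hOp
    rcases hOp u v hu hv (inter_subset_right.trans huv) (by
      have : O ∩ S ∩ (u ∩ v) ⊆ S ∩ (u ∩ v) := by
        intro y hy
        exact ⟨hy.1.2, hy.2⟩
      rw [hne] at this
      exact Set.subset_empty_iff.1 this) with h | h
    · exact Or.inl ⟨O, ⟨hO, h⟩, hxO⟩
    · exact Or.inr ⟨O, ⟨hO, h⟩, hxO⟩
  · obtain ⟨x, hxS, hxu⟩ := hSu
    exact ⟨x, hSW hxS, u, ⟨hu, inter_subset_left⟩, hxu⟩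
  · obtain ⟨x, hxS, hxv⟩ := hSv
    exact ⟨x, hSW hxS, v, ⟨hv, inter_subset_left⟩, hxv⟩

theorem punctured_ball (x : ℂ) {r : ℝ} (hr : 0 < r) : IsPreconnected (ball x r \ {x}) := by
  have h1 : IsPreconnected ({0}ᶜ : Set ℂ) :=
    (isConnected_compl_singleton_of_one_lt_rank (by
      rw [Complex.rank_real_complex]; norm_num) (0 : ℂ)).isPreconnected
  have h2 := h1.image (OpenPartialHomeomorph.univBall x r)
    ((OpenPartialHomeomorph.continuous_univBall x r).continuousOn)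
  convert h2 using 1
  ext y
  constructor
  · rintro ⟨hy1, hy2⟩
    have hy1' : y ∈ (OpenPartialHomeomorph.univBall x r).target := by
      rw [OpenPartialHomeomorph.univBall_target x hr]; exact hy1
    refine ⟨(OpenPartialHomeomorph.univBall x r).symm y, ?_, (OpenPartialHomeomorph.univBall x r).right_inv hy1'⟩
    intro h0
    apply hy2
    have : (OpenPartialHomeomorph.univBall x r) ((OpenPartialHomeomorph.univBall x r).symm y) = y :=
      (OpenPartialHomeomorph.univBall x r).right_inv hy1'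
    rw [show (OpenPartialHomeomorph.univBall x r).symm y = 0 from h0,
      OpenPartialHomeomorph.univBall_apply_zero] at this
    exact this.symm
  · rintro ⟨z, hz, rfl⟩
    have hzs : z ∈ (OpenPartialHomeomorph.univBall x r).source := by
      rw [OpenPartialHomeomorph.univBall_source]; trivial
    refine ⟨?_, ?_⟩
    · have := (OpenPartialHomeomorph.univBall x r).map_source hzs
      rwa [OpenPartialHomeomorph.univBall_target x hr] at this
    · intro h
      apply hz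
      have h0s : (0 : ℂ) ∈ (OpenPartialHomeomorph.univBall x r).source := by
        rw [OpenPartialHomeomorph.univBall_source]; trivial
      apply (OpenPartialHomeomorph.univBall x r).injOn hzs h0s
      rw [OpenPartialHomeomorph.univBall_apply_zero]
      exact h

theorem one_var {D : Set ℂ} (hD : IsOpen D) (hDc : IsPreconnected D) {φ : ℂ → ℂ}
    (hφ : DifferentiableOn ℂ φ D) {p : ℂ} (hp : p ∈ D) (hp0 : φ p ≠ 0) :
    IsPreconnected {t | t ∈ D ∧ φ t ≠ 0} := by
  have han : AnalyticOnNhd ℂ φ D := hφ.analyticOnNhd hD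
  have hloc : ∀ x ∈ D, ∃ r > 0, ball x r ⊆ D ∧ ∀ y ∈ ball x r, y ≠ x → φ y ≠ 0 := by
    intro x hx
    have h1 : ∀ᶠ z in 𝓝[≠] x, φ z ≠ 0 := by
      rcases (han x hx).eventually_eq_zero_or_eventually_ne_zero with h | h
      · exact absurd (han.eqOn_zero_of_preconnected_of_eventuallyEq_zero hDc hx h hp) hp0
      · exact h
    rw [eventually_nhdsWithin_iff] at h1
    obtain ⟨r, hr, h⟩ := Metric.eventually_nhds_iff_ball.1 (h1.and (hD.mem_nhds hx))
    exact ⟨r, hr, fun y hy => (h y hy).2, fun y hy hyx => (h y hy).1 hyx⟩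
  apply glue hDc (fun t ht => ht.1)
  · intro x hx
    rw [Metric.mem_closure_iff]
    intro ε hε
    obtain ⟨r, hr, h1, h2⟩ := hloc x hx
    have hm : 0 < min ε r := lt_min hε hr
    have hdist : dist x (x + ((min ε r / 2 : ℝ) : ℂ)) = min ε r / 2 := by
      rw [dist_eq_norm]
      simp [abs_of_pos hm]
    refine ⟨x + ((min ε r / 2 : ℝ) : ℂ), ?_, ?_⟩
    · have hb : x + ((min ε r / 2 : ℝ) : ℂ) ∈ ball x r := by
        rw [mem_ball, dist_comm, hdist]
        have := min_le_right ε r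
        linarith
      refine ⟨h1 hb, h2 _ hb ?_⟩
      intro h
      have h3 : ((min ε r / 2 : ℝ) : ℂ) = 0 := by simpa using h
      rw [Complex.ofReal_eq_zero] at h3
      linarith
    · rw [hdist]
      have := min_le_left ε r
      linarith
  · intro x hx
    obtain ⟨r, hr, h1, h2⟩ := hloc x hx
    refine ⟨ball x r, isOpen_ball, mem_ball_self hr, ?_⟩
    by_cases hx0 : φ x = 0
    · have : ball x r ∩ {t | t ∈ D ∧ φ t ≠ 0} = ball x r \ {x} := by
        ext y
        constructor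
        · rintro ⟨hy1, hy2, hy3⟩
          refine ⟨hy1, fun h => hy3 ?_⟩
          rw [show y = x from h]; exact hx0
        · rintro ⟨hy1, hy2⟩
          exact ⟨hy1, h1 hy1, h2 y hy1 hy2⟩
      rw [this]
      exact punctured_ball x hr
    · have : ball x r ∩ {t | t ∈ D ∧ φ t ≠ 0} = ball x r := by
        ext y
        constructor
        · rintro ⟨hy1, -⟩
          exact hy1
        · intro hy1
          refine ⟨hy1, h1 hy1, ?_⟩
          by_cases hyx : y = x
          · rw [hyx]; exact hx0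
          · exact h2 y hy1 hyx
      rw [this]
      exact (convex_ball x r).isPreconnected

variable {V : Type} [NormedAddCommGroup V] [NormedSpace ℂ V]

theorem line_facts (x : V) (r : ℝ) (a b : V) {g : V → ℂ} (hg : DifferentiableOn ℂ g (ball x r)) :
    IsOpen {t : ℂ | a + t • (b - a) ∈ ball x r} ∧
    IsPreconnected {t : ℂ | a + t • (b - a) ∈ ball x r} ∧
    DifferentiableOn ℂ (fun t : ℂ => g (a + t • (b - a))) {t : ℂ | a + t • (b - a) ∈ ball x r} := by
  have hc : Continuous fun t : ℂ => a + t • (b - a) := by fun_prop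
  refine ⟨isOpen_ball.preimage hc, ?_, ?_⟩
  · let _ : NormedSpace ℝ V := NormedSpace.restrictScalars ℝ ℂ V
    have : Convex ℝ {t : ℂ | a + t • (b - a) ∈ ball x r} := by
      intro s hs t ht α β hα hβ hαβ
      have h := (convex_ball x r) hs ht hα hβ hαβ
      have e : a + (α • s + β • t) • (b - a) = α • (a + s • (b - a)) + β • (a + t • (b - a)) := by
        rw [smul_add, smul_add, add_smul, smul_assoc, smul_assoc]
        have : a = α • a + β • a := by rw [← add_smul, hαβ, one_smul]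
        nth_rewrite 1 [this]
        abel
      show a + (α • s + β • t) • (b - a) ∈ ball x r
      rw [e]; exact h
    exact this.isPreconnected
  · apply hg.comp
    · intro t _
      apply DifferentiableAt.differentiableWithinAt
      fun_prop
    · intro t ht; exact ht

theorem ball_nonzero {x : V} {r : ℝ} (hr : 0 < r) {g : V → ℂ}
    (hg : DifferentiableOn ℂ g (ball x r)) (hne : ¬ (∀ᶠ y in 𝓝 x, g y = 0))
    {O : Set V} (hO : IsOpen O) (hOne : (O ∩ ball x r).Nonempty) :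
    ∃ y ∈ O ∩ ball x r, g y ≠ 0 := by
  by_contra hcon
  push Not at hcon
  obtain ⟨p, hpO, hpB⟩ := hOne
  apply hne
  filter_upwards [ball_mem_nhds x hr] with q hq
  obtain ⟨h1, h2, h3⟩ := line_facts x r p q hg
  have han := h3.analyticOnNhd h1
  have h0 : (0 : ℂ) ∈ {t : ℂ | p + t • (q - p) ∈ ball x r} := by simpa using hpB
  have hone : (1 : ℂ) ∈ {t : ℂ | p + t • (q - p) ∈ ball x r} := by simpa using hq
  have hev : (fun t : ℂ => g (p + t • (q - p))) =ᶠ[𝓝 0] 0 := by
    have hc : Continuous fun t : ℂ => p + t • (q - p) := by fun_prop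
    have : (fun t : ℂ => p + t • (q - p)) ⁻¹' (O ∩ ball x r) ∈ 𝓝 (0 : ℂ) := by
      apply ((hO.inter isOpen_ball).preimage hc).mem_nhds
      show p + (0 : ℂ) • (q - p) ∈ O ∩ ball x r
      simpa using ⟨hpO, hpB⟩
    filter_upwards [this] with t ht
    exact hcon _ ht
  have := han.eqOn_zero_of_preconnected_of_eventuallyEq_zero h2 h0 hev hone
  simpa using this

theorem ball_diff {x : V} {r : ℝ} {g : V → ℂ}
    (hg : DifferentiableOn ℂ g (ball x r)) :
    IsPreconnected {y | y ∈ ball x r ∧ g y ≠ 0} := by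
  apply isPreconnected_of_forall_pair
  rintro a ⟨ha, ha0⟩ b ⟨hb, hb0⟩
  obtain ⟨h1, h2, h3⟩ := line_facts x r a b hg
  have h0 : (0 : ℂ) ∈ {t : ℂ | a + t • (b - a) ∈ ball x r} := by simpa using ha
  have hone : (1 : ℂ) ∈ {t : ℂ | a + t • (b - a) ∈ ball x r} := by simpa using hb
  have h4 := one_var h1 h2 h3 h0 (by simpa using ha0)
  have hc : Continuous fun t : ℂ => a + t • (b - a) := by fun_prop
  refine ⟨_, ?_, ?_, ?_, h4.image (fun t : ℂ => a + t • (b - a)) hc.continuousOn⟩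
  · rintro y ⟨t, ⟨ht1, ht2⟩, rfl⟩
    exact ⟨ht1, ht2⟩
  · exact ⟨0, ⟨h0, by simpa using ha0⟩, by simp⟩
  · exact ⟨1, ⟨hone, by simpa using hb0⟩, by simp⟩

end ThinAux

/-- complement of a thin set is connected -/
theorem isConnected_diff_thin {V : Type} [NormedAddCommGroup V] [NormedSpace ℂ V]
    [FiniteDimensional ℂ V] {W A : Set V} (hW : IsOpen W) (hWc : IsConnected W)
    (hA : ∀ x ∈ W, ∃ U : Set V, IsOpen U ∧ x ∈ U ∧ ∃ g : V → ℂ, DifferentiableOn ℂ g U ∧
      (∀ y ∈ A ∩ U, g y = 0) ∧ ¬ (∀ᶠ y in 𝓝 x, g y = 0))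
    (hcl : IsOpen (W \ A)) :
    IsConnected (W \ A) ∧ W ⊆ closure (W \ A) := by
  have hloc : ∀ x ∈ W, ∃ r > 0, ball x r ⊆ W ∧ ∃ g : V → ℂ, DifferentiableOn ℂ g (ball x r) ∧
      (∀ y ∈ A ∩ ball x r, g y = 0) ∧ ¬ (∀ᶠ y in 𝓝 x, g y = 0) := by
    intro x hx
    obtain ⟨U, hU, hxU, g, hg, hgA, hgne⟩ := hA x hx
    obtain ⟨r, hr, h⟩ := Metric.mem_nhds_iff.1 ((hU.inter hW).mem_nhds ⟨hxU, hx⟩)
    exact ⟨r, hr, fun y hy => (h hy).2, g, hg.mono fun y hy => (h hy).1,
      fun y hy => hgA y ⟨hy.1, (h hy.2).1⟩, hgne⟩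
  have hdense : W ⊆ closure (W \ A) := by
    intro x hx
    obtain ⟨r, hr, hrW, g, hg, hgA, hgne⟩ := hloc x hx
    rw [_root_.mem_closure_iff]
    intro O hO hxO
    obtain ⟨y, ⟨hyO, hyB⟩, hy0⟩ := ThinAux.ball_nonzero hr hg hgne hO ⟨x, hxO, mem_ball_self hr⟩
    exact ⟨y, hyO, hrW hyB, fun hyA => hy0 (hgA y ⟨hyA, hyB⟩)⟩
  refine ⟨⟨?_, ?_⟩, hdense⟩
  · obtain ⟨x, hx⟩ := hWc.nonempty
    have := hdense hx
    exact closure_nonempty_iff.1 ⟨x, this⟩
  · apply ThinAux.glue hWc.isPreconnected sdiff_subset hdense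
    intro x hx
    obtain ⟨r, hr, hrW, g, hg, hgA, hgne⟩ := hloc x hx
    refine ⟨ball x r, isOpen_ball, mem_ball_self hr, ?_⟩
    apply (ThinAux.ball_diff hg).subset_closure
    · rintro y ⟨hyB, hy0⟩
      exact ⟨hyB, hrW hyB, fun hyA => hy0 (hgA y ⟨hyA, hyB⟩)⟩
    · rintro y ⟨hyB, -⟩
      rw [_root_.mem_closure_iff]
      intro O hO hyO
      obtain ⟨z, ⟨hzO, hzB⟩, hz0⟩ := ThinAux.ball_nonzero hr hg hgne hO ⟨y, hyO, hyB⟩
      exact ⟨z, hzO, hzB, hz0⟩

end Pool.Agent.Helper417.Mer
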