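import Mathlib

set_option autoImplicit false

open Set Metric Topology
open scoped Manifold ContDiff

/-!
# Meromorphic maps, the meromorphic extension property, complex deformations

A meromorphic map (in the sense of Remmert) from an open set `D` of `ℂⁿ` to a compact complex
manifold `X` is a holomorphic map `D ∖ A → X`, where `A` is an analytic subset of `D` of
codimension at least two, such that the closure of its graph is an analytic subset of `D × X`.

Below `X` is always given as a closed complex submanifold `S` (a fibre `π ⁻¹' {t}` of a holomorphic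
submersion) of a complex manifold `M`: a holomorphic map to `S` is the same as a holomorphic map
to `M` with values in `S`, and an analytic subset of `D × S` is the same as an analytic subset
of `D × M` which is contained in `D × S`.
-/

namespace Pool.Agent.Helper417.Mer

/-- The open unit polydisc of `ℂⁿ × ℂ = ℂⁿ⁺¹` (`Fin n → ℂ` has the maximum norm). -/
def polydisc (n : ℕ) : Set ((Fin n → ℂ) × ℂ) := {p | ‖p.1‖ < 1 ∧ ‖p.2‖ < 1}

/-- The Hartogs figure `{(z', z) ∈ Δⁿ⁺¹ : |z'| < r or |z| > 1 - r}` of `ℂⁿ⁺¹`; for `0 < r < 1`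
its envelope of holomorphy is the polydisc `Δⁿ⁺¹` (for `n ≥ 1`). -/
def hartogs (n : ℕ) (r : ℝ) : Set ((Fin n → ℂ) × ℂ) :=
  {p | ‖p.1‖ < 1 ∧ ‖p.2‖ < 1 ∧ (‖p.1‖ < r ∨ 1 - r < ‖p.2‖)}

section Analytic

variable {E H M : Type} [NormedAddCommGroup E] [NormedSpace ℂ E] [TopologicalSpace H]
  [TopologicalSpace M] [ChartedSpace H M]

/-- `A` is a complex analytic subset of the open subset `D` of the complex manifold `M`: near
every point of `D` it is the zero set of finitely many holomorphic functions
(so `A` is closed in `D`). -/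
def IsAnalyticSubset (I : ModelWithCorners ℂ E H) (D A : Set M) : Prop :=
  A ⊆ D ∧ ∀ x ∈ D, ∃ U : Set M, IsOpen U ∧ x ∈ U ∧ U ⊆ D ∧ ∃ (m : ℕ) (g : M → (Fin m → ℂ)),
    MDifferentiableOn I 𝓘(ℂ, Fin m → ℂ) g U ∧ A ∩ U = {y | y ∈ U ∧ g y = 0}

end Analytic

section Mero

variable {V : Type} [NormedAddCommGroup V] [NormedSpace ℂ V]

/-- The (analytic) set `A` of the complex vector space `V` has codimension at least two:
every point `p` of `A` is an isolated point of the intersection of `A` with some complex affine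
plane of dimension two through `p`. -/
def CodimGeTwo (A : Set V) : Prop :=
  ∀ p ∈ A, ∃ P : Submodule ℂ V, Module.finrank ℂ P = 2 ∧
    ∃ ε : ℝ, 0 < ε ∧ ∀ q ∈ A, q - p ∈ P → ‖q - p‖ < ε → q = p

variable (E : Type) {M : Type} [NormedAddCommGroup E] [NormedSpace ℂ E]
  [TopologicalSpace M] [ChartedSpace E M]

/-- `f` (defined off `A`) is a meromorphic map from the open set `D` of `V` to the closed
complex submanifold `S` of the complex manifold `M`, holomorphic off the analytic subset `A` of
codimension at least two. -/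
structure IsMeromorphicMap (D : Set V) (S : Set M) (A : Set V) (f : V → M) : Prop where
  /-- `A` is an analytic subset of `D` … -/
  analytic : IsAnalyticSubset 𝓘(ℂ, V) D A
  /-- … of codimension at least two, -/
  codim : CodimGeTwo A
  /-- `f` is holomorphic on `D ∖ A` -/
  holo : MDifferentiableOn 𝓘(ℂ, V) 𝓘(ℂ, E) f (D \ A)
  /-- with values in `S` -/
  mapsTo : MapsTo f (D \ A) S
  /-- and the closure of its graph in `D × M` is an analytic subset of `D × M`. -/
  graph : IsAnalyticSubset (𝓘(ℂ, V).prod 𝓘(ℂ, E)) (D ×ˢ (univ : Set M))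
    (closure {p : V × M | p.1 ∈ D \ A ∧ f p.1 = p.2} ∩ D ×ˢ (univ : Set M))

/-- The meromorphic extension property of the (compact) complex manifold `S ⊆ M`: for every
Hartogs figure `H` in `ℂⁿ⁺¹`, every meromorphic map from `H` to `S` extends to a meromorphic map
from the polydisc `Δⁿ⁺¹` to `S`. -/
def HasMeromorphicExtension (S : Set M) : Prop :=
  ∀ (n : ℕ) (r : ℝ), 0 < r → r < 1 → ∀ (A : Set ((Fin n → ℂ) × ℂ)) (f : (Fin n → ℂ) × ℂ → M),
    IsMeromorphicMap E (hartogs n r) S A f →
    ∃ (B : Set ((Fin n → ℂ) × ℂ)) (F : (Fin n → ℂ) × ℂ → M),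
      IsMeromorphicMap E (polydisc n) S B F ∧ ∀ p ∈ hartogs n r, p ∉ A → p ∉ B → F p = f p

/-- `π : M → Δ ⊆ ℂ` is a complex deformation of (the fibre over `0`, or any other fibre):
`M` is a (Hausdorff, second countable) complex manifold modelled on `E`, and `π` is a proper
holomorphic submersion onto the open unit disc, with connected (hence compact connected) fibres. -/
structure IsComplexDeformation (π : M → ℂ) : Prop where
  finiteDimensional : FiniteDimensional ℂ E
  manifold : IsManifold 𝓘(ℂ, E) ω M
  hausdorff : T2Space M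
  secondCountable : SecondCountableTopology M
  holo : MDifferentiable 𝓘(ℂ, E) 𝓘(ℂ, ℂ) π
  submersion : ∀ x, Function.Surjective (mfderiv 𝓘(ℂ, E) 𝓘(ℂ, ℂ) π x)
  range_eq : range π = ball (0 : ℂ) 1
  proper : ∀ K ⊆ ball (0 : ℂ) 1, IsCompact K → IsCompact (π ⁻¹' K)
  connected : ∀ t ∈ ball (0 : ℂ) 1, IsConnected (π ⁻¹' {t})

end Mero

end Pool.Agent.Helper417.Mer
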