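import Mathlib
import Pool.Agent.Helper417.Mer.Defs

set_option autoImplicit false
open scoped Manifold ContDiff Topology
open Set Metric Filter

namespace Pool.Agent.Helper417.Mer

variable {V : Type} [NormedAddCommGroup V] [NormedSpace ℂ V]

/-- identity theorem on a convex open set, for maps between normed spaces -/
lemma eqOn_zero_of_convex {F : Type} [NormedAddCommGroup F] [NormedSpace ℂ F] [CompleteSpace F]
    {B : Set V} (hB : IsOpen B) (hc : Convex ℝ B) {g : V → F} (hg : DifferentiableOn ℂ g B)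
    {z₁ : V} (hz₁ : z₁ ∈ B) (h0 : ∀ᶠ z in 𝓝 z₁, g z = 0) : ∀ z ∈ B, g z = 0 := by
  intro z hz
  set l : ℂ → V := fun τ => z₁ + τ • (z - z₁) with hl
  have hlc : Continuous l := by fun_prop
  have hld : Differentiable ℂ l := by
    intro τ
    have : DifferentiableAt ℂ (fun τ : ℂ => z₁ + τ • (z - z₁)) τ := by fun_prop
    exact this
  set D : Set ℂ := l ⁻¹' B with hD
  have hDo : IsOpen D := hB.preimage hlc
  have hDc : Convex ℝ D := by
    intro x hx y hy a b ha hb hab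
    have : l (a • x + b • y) = a • l x + b • l y := by
      have e1 : ((b : ℝ)) = 1 - a := by linarith
      subst e1
      simp only [hl, Complex.real_smul, add_smul, smul_add, mul_smul, sub_smul, one_smul]
      simp only [← Complex.coe_smul]
      module
    show l (a • x + b • y) ∈ B
    rw [this]
    exact hc hx hy ha hb hab
  have h0D : (0 : ℂ) ∈ D := by simp [hD, hl, hz₁]
  have h1D : (1 : ℂ) ∈ D := by simp [hD, hl, hz]
  have hh : AnalyticOnNhd ℂ (fun τ => g (l τ)) D := by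
    apply DifferentiableOn.analyticOnNhd _ hDo
    intro τ hτ
    exact (hg _ hτ).comp τ (hld τ).differentiableWithinAt (fun s hs => hs)
  have h0' : (fun τ => g (l τ)) =ᶠ[𝓝 0] 0 := by
    have : Tendsto l (𝓝 0) (𝓝 z₁) := by
      have := hlc.tendsto 0
      simpa [hl] using this
    exact this.eventually h0
  have := hh.eqOn_zero_of_preconnected_of_eventuallyEq_zero hDc.isPreconnected h0D h0' h1D
  simpa [hl] using this

variable {E M : Type} [NormedAddCommGroup E] [NormedSpace ℂ E]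
  [TopologicalSpace M] [ChartedSpace E M]

/-- a holomorphic map in a fixed chart -/
lemma differentiableAt_chart [IsManifold 𝓘(ℂ, E) 1 M] {f : V → M} {z : V} (x₀ : M)
    (hf : MDifferentiableAt 𝓘(ℂ, V) 𝓘(ℂ, E) f z) (hz : f z ∈ (chartAt E x₀).source) :
    DifferentiableAt ℂ (fun u => chartAt E x₀ (f u)) z := by
  have h1 : MDifferentiableAt 𝓘(ℂ, E) 𝓘(ℂ, E) (extChartAt 𝓘(ℂ, E) x₀) (f z) :=
    mdifferentiableAt_extChartAt hz
  have h2 := h1.comp z hf
  have h3 := h2.differentiableAt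
  simpa [Function.comp_def, extChartAt] using h3

/-- identity theorem for holomorphic maps to a Hausdorff complex manifold -/
lemma eqOn_of_preconnected [CompleteSpace E] [IsManifold 𝓘(ℂ, E) 1 M] [T2Space M] {D : Set V}
    (hD : IsOpen D) (hDc : IsPreconnected D) {f₁ f₂ : V → M}
    (h₁ : MDifferentiableOn 𝓘(ℂ, V) 𝓘(ℂ, E) f₁ D) (h₂ : MDifferentiableOn 𝓘(ℂ, V) 𝓘(ℂ, E) f₂ D)
    {z₁ : V} (hz₁ : z₁ ∈ D) (h : f₁ =ᶠ[𝓝 z₁] f₂) : EqOn f₁ f₂ D := by
  have hm₁ : ∀ z ∈ D, MDifferentiableAt 𝓘(ℂ, V) 𝓘(ℂ, E) f₁ z := fun z hz =>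
    (h₁ z hz).mdifferentiableAt (hD.mem_nhds hz)
  have hm₂ : ∀ z ∈ D, MDifferentiableAt 𝓘(ℂ, V) 𝓘(ℂ, E) f₂ z := fun z hz =>
    (h₂ z hz).mdifferentiableAt (hD.mem_nhds hz)
  set Z : Set V := {z | f₁ =ᶠ[𝓝 z] f₂} with hZ
  have hZo : IsOpen Z := by
    rw [isOpen_iff_mem_nhds]
    intro z hz
    exact eventually_eventually_nhds.2 hz
  -- relative closedness
  have hcl : ∀ z₀ ∈ D, z₀ ∈ closure Z → z₀ ∈ Z := by
    intro z₀ hz₀ hz₀c
    have heq : f₁ z₀ = f₂ z₀ := by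
      by_contra hne
      obtain ⟨u, v, hu, hv, hxu, hxv, huv⟩ := t2_separation hne
      have n1 : ∀ᶠ z in 𝓝 z₀, f₁ z ∈ u :=
        (hm₁ z₀ hz₀).continuousAt.preimage_mem_nhds (hu.mem_nhds hxu)
      have n2 : ∀ᶠ z in 𝓝 z₀, f₂ z ∈ v :=
        (hm₂ z₀ hz₀).continuousAt.preimage_mem_nhds (hv.mem_nhds hxv)
      obtain ⟨z, hz, hzZ⟩ := mem_closure_iff_nhds.1 hz₀c _ (n1.and n2)
      have hzZ' : f₁ =ᶠ[𝓝 z] f₂ := hzZ
      have : f₁ z = f₂ z := hzZ'.self_of_nhds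
      exact Set.disjoint_left.1 huv hz.1 (this ▸ hz.2)
    set e := chartAt E (f₁ z₀) with he
    have s1 : f₁ z₀ ∈ e.source := mem_chart_source E _
    have s2 : f₂ z₀ ∈ e.source := heq ▸ s1
    have n1 : ∀ᶠ z in 𝓝 z₀, f₁ z ∈ e.source :=
      (hm₁ z₀ hz₀).continuousAt.preimage_mem_nhds (e.open_source.mem_nhds s1)
    have n2 : ∀ᶠ z in 𝓝 z₀, f₂ z ∈ e.source :=
      (hm₂ z₀ hz₀).continuousAt.preimage_mem_nhds (e.open_source.mem_nhds s2)
    obtain ⟨ε, hε, hb⟩ := Metric.eventually_nhds_iff_ball.1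
      ((n1.and n2).and (hD.mem_nhds hz₀))
    obtain ⟨z₂, hz₂, hz₂Z⟩ := mem_closure_iff_nhds.1 hz₀c _ (ball_mem_nhds z₀ hε)
    have hdiff : DifferentiableOn ℂ (fun z => e (f₁ z) - e (f₂ z)) (ball z₀ ε) := by
      intro z hz
      have := hb z hz
      exact ((differentiableAt_chart _ (hm₁ z this.2) this.1.1).sub
        (differentiableAt_chart _ (hm₂ z this.2) this.1.2)).differentiableWithinAt
    have h0 : ∀ᶠ z in 𝓝 z₂, e (f₁ z) - e (f₂ z) = 0 := by
      have hz₂Z' : f₁ =ᶠ[𝓝 z₂] f₂ := hz₂Z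
      filter_upwards [hz₂Z'] with z hz
      rw [hz, sub_self]
    have key := eqOn_zero_of_convex isOpen_ball
      ((convex_ball z₀ ε)) hdiff hz₂ h0
    show f₁ =ᶠ[𝓝 z₀] f₂
    filter_upwards [ball_mem_nhds z₀ hε] with z hz
    have := hb z hz
    exact e.injOn this.1.1 this.1.2 (sub_eq_zero.1 (key z hz))
  have hsub : D ⊆ Z := by
    apply hDc.subset_of_closure_inter_subset hZo ⟨z₁, hz₁, h⟩
    rintro z ⟨hz1, hz2⟩
    exact hcl z hz2 hz1
  intro z hz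
  exact (hsub hz : f₁ =ᶠ[𝓝 z] f₂).self_of_nhds

/-- the graph of a holomorphic map is analytic -/
lemma graph_analytic [FiniteDimensional ℂ E] [IsManifold 𝓘(ℂ, E) 1 M] [T2Space M] {D : Set V}
    (hD : IsOpen D) {f : V → M} (hf : MDifferentiableOn 𝓘(ℂ, V) 𝓘(ℂ, E) f D) :
    IsAnalyticSubset (𝓘(ℂ, V).prod 𝓘(ℂ, E)) (D ×ˢ (univ : Set M))
      (closure {p : V × M | p.1 ∈ D ∧ f p.1 = p.2} ∩ D ×ˢ (univ : Set M)) := by
  have hm : ∀ z ∈ D, MDifferentiableAt 𝓘(ℂ, V) 𝓘(ℂ, E) f z := fun z hz =>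
    (hf z hz).mdifferentiableAt (hD.mem_nhds hz)
  -- the graph is closed in `D × M`
  have hcl : ∀ z ∈ D, ∀ x, (z, x) ∈ closure {p : V × M | p.1 ∈ D ∧ f p.1 = p.2} → f z = x := by
    intro z hz x hx
    by_contra hne
    obtain ⟨u, v, hu, hv, hxu, hxv, huv⟩ := t2_separation hne
    have n1 : ∀ᶠ z' in 𝓝 z, f z' ∈ u :=
      (hm z hz).continuousAt.preimage_mem_nhds (hu.mem_nhds hxu)
    have n2 : {p : V × M | f p.1 ∈ u ∧ p.2 ∈ v} ∈ 𝓝 (z, x) := by
      have a1 : ∀ᶠ p : V × M in 𝓝 (z, x), f p.1 ∈ u :=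
        (continuous_fst.tendsto (z, x)).eventually n1
      have a2 : ∀ᶠ p : V × M in 𝓝 (z, x), p.2 ∈ v :=
        continuousAt_snd.eventually (hv.mem_nhds hxv)
      exact a1.and a2
    obtain ⟨p, hp1, hp2⟩ := mem_closure_iff_nhds.1 hx _ n2
    exact Set.disjoint_left.1 huv hp1.1 (hp2.2 ▸ hp1.2)
  refine ⟨inter_subset_right, ?_⟩
  rintro ⟨z₀, x₀⟩ ⟨hz₀, -⟩
  simp only at hz₀
  by_cases hx : f z₀ = x₀
  · -- near a point of the graph
    set e := chartAt E x₀ with he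
    set U : Set (V × M) := {p | p.1 ∈ D ∧ f p.1 ∈ e.source ∧ p.2 ∈ e.source} with hU
    have hUo : IsOpen U := by
      rw [isOpen_iff_mem_nhds]
      rintro ⟨z, x⟩ ⟨h1, h2, h3⟩
      have a1 : ∀ᶠ p : V × M in 𝓝 (z, x), p.1 ∈ D :=
        continuousAt_fst.eventually (hD.mem_nhds h1)
      have a2 : ∀ᶠ p : V × M in 𝓝 (z, x), f p.1 ∈ e.source :=
        (continuous_fst.tendsto (z, x)).eventually ((hm z h1).continuousAt.preimage_mem_nhds
          (e.open_source.mem_nhds h2))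
      have a3 : ∀ᶠ p : V × M in 𝓝 (z, x), p.2 ∈ e.source :=
        continuousAt_snd.eventually (e.open_source.mem_nhds h3)
      filter_upwards [a1, a2, a3] with p b1 b2 b3 using ⟨b1, b2, b3⟩
    have hxs : x₀ ∈ e.source := mem_chart_source E x₀
    let m := Module.finrank ℂ E
    let L : E ≃L[ℂ] (Fin m → ℂ) := ContinuousLinearEquiv.ofFinrankEq (by simp [m])
    refine ⟨U, hUo, ⟨hz₀, by simp [hx, hxs], hxs⟩, fun p hp => ⟨hp.1, mem_univ _⟩, m,
      fun p => L (e p.2 - e (f p.1)), ?_, ?_⟩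
    · intro p hp
      apply MDifferentiableAt.mdifferentiableWithinAt
      have a1 : MDifferentiableAt (𝓘(ℂ, V).prod 𝓘(ℂ, E)) 𝓘(ℂ, E)
          (fun p : V × M => extChartAt 𝓘(ℂ, E) x₀ p.2) p := by
        have b1 : MDifferentiableAt 𝓘(ℂ, E) 𝓘(ℂ, E) (extChartAt 𝓘(ℂ, E) x₀) p.2 :=
          mdifferentiableAt_extChartAt hp.2.2
        exact b1.comp p mdifferentiableAt_snd
      have a2 : MDifferentiableAt (𝓘(ℂ, V).prod 𝓘(ℂ, E)) 𝓘(ℂ, E)
          (fun p : V × M => extChartAt 𝓘(ℂ, E) x₀ (f p.1)) p := by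
        have b1 : MDifferentiableAt 𝓘(ℂ, E) 𝓘(ℂ, E) (extChartAt 𝓘(ℂ, E) x₀) (f p.1) :=
          mdifferentiableAt_extChartAt hp.2.1
        have b2 : MDifferentiableAt 𝓘(ℂ, V) 𝓘(ℂ, E)
            (fun z => extChartAt 𝓘(ℂ, E) x₀ (f z)) p.1 := b1.comp p.1 (hm p.1 hp.1)
        exact b2.comp p mdifferentiableAt_fst
      have a3 := a1.sub a2
      have a4 : MDifferentiableAt 𝓘(ℂ, E) 𝓘(ℂ, Fin m → ℂ) (fun v => L v)
          (extChartAt 𝓘(ℂ, E) x₀ p.2 - extChartAt 𝓘(ℂ, E) x₀ (f p.1)) :=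
        (L.differentiableAt).mdifferentiableAt
      exact a4.comp p a3
    · ext ⟨z, x⟩
      constructor
      · rintro ⟨⟨h1, h2⟩, h3⟩
        refine ⟨h3, ?_⟩
        have := hcl z h2.1 x h1
        simp [this]
      · rintro ⟨h1, h2⟩
        have h3 : e x - e (f z) = 0 := by
          have := L.injective (a₁ := e x - e (f z)) (a₂ := 0)
          exact this (by simpa using h2)
        have h4 : x = f z := e.injOn h1.2.2 h1.2.1 (sub_eq_zero.1 h3)
        exact ⟨⟨subset_closure ⟨h1.1, h4.symm⟩, h1.1, mem_univ _⟩, h1⟩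
  · -- away from the graph
    have hnot : (z₀, x₀) ∉ closure {p : V × M | p.1 ∈ D ∧ f p.1 = p.2} := fun h =>
      hx (hcl z₀ hz₀ x₀ h)
    refine ⟨(closure {p : V × M | p.1 ∈ D ∧ f p.1 = p.2})ᶜ ∩ D ×ˢ univ,
      isClosed_closure.isOpen_compl.inter (hD.prod isOpen_univ), ⟨hnot, hz₀, mem_univ _⟩,
      inter_subset_right, 1, fun _ _ => 1, ?_, ?_⟩
    · exact mdifferentiableOn_const
    · ext p
      constructor
      · rintro ⟨⟨h1, h2⟩, h3⟩
        exact absurd h1 h3.1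
      · rintro ⟨h1, h2⟩
        exfalso
        have := congrFun h2 0
        simp at this

end Pool.Agent.Helper417.Mer
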