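import Mathlib
set_option autoImplicit false

/-! Hartogs extension; job solved by helper673 (first part from Helper540/Holo.lean). -/
namespace Pool.Agent.Helper417.Mer
namespace Hartogs673

open Metric Set Filter Topology Asymptotics

section General

variable {E F : Type*} [NormedAddCommGroup E] [NormedSpace ℂ E]
  [NormedAddCommGroup F] [NormedSpace ℂ F]

/-- Second order Taylor estimate for a bounded holomorphic map. -/
theorem norm_sub_sub_fderiv_le {f : E → F} {c : E} {R M : ℝ} (hR : 0 < R)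
    (hd : DifferentiableOn ℂ f (ball c R)) (hM : ∀ z ∈ ball c R, ‖f z‖ ≤ M) {w : E}
    (hw : w ∈ ball c R) :
    ‖f w - f c - fderiv ℂ f c (w - c)‖ ≤ 4 * M * (‖w - c‖ / R) ^ 2 := by
  have hcc : c ∈ ball c R := mem_ball_self hR
  have hM0 : 0 ≤ M := (norm_nonneg _).trans (hM c hcc)
  have hmaps : MapsTo f (ball c R) (closedBall (f c) (2 * M)) := by
    intro z hz
    rw [mem_closedBall, dist_eq_norm]
    calc ‖f z - f c‖ ≤ ‖f z‖ + ‖f c‖ := norm_sub_le _ _
      _ ≤ 2 * M := by linarith [hM z hz, hM c hcc]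
  have hfd : ‖fderiv ℂ f c‖ ≤ 2 * M / R := Complex.norm_fderiv_le_div_of_mapsTo_ball hd hmaps hR
  have hdc : DifferentiableAt ℂ f c := hd.differentiableAt (ball_mem_nhds _ hR)
  set g : E → F := fun z => f z - f c - fderiv ℂ f c (z - c) with hg
  have hgd : DifferentiableOn ℂ g (ball c R) := by
    intro z hz
    have h1 : DifferentiableAt ℂ f z := hd.differentiableAt (isOpen_ball.mem_nhds hz)
    exact (by fun_prop : DifferentiableAt ℂ g z).differentiableWithinAt
  have hgc : g c = 0 := by simp [hg]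
  have hgmaps : MapsTo g (ball c R) (closedBall (g c) (4 * M)) := by
    intro z hz
    rw [mem_closedBall, dist_eq_norm, hgc, sub_zero]
    have h1 : ‖f z - f c‖ ≤ 2 * M := by
      have := hmaps hz
      rwa [mem_closedBall, dist_eq_norm] at this
    have h2 : ‖fderiv ℂ f c (z - c)‖ ≤ 2 * M := by
      calc ‖fderiv ℂ f c (z - c)‖ ≤ ‖fderiv ℂ f c‖ * ‖z - c‖ := ContinuousLinearMap.le_opNorm _ _
        _ ≤ (2 * M / R) * R := by
            apply mul_le_mul hfd _ (norm_nonneg _) (by positivity)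
            rw [mem_ball, dist_eq_norm] at hz
            exact hz.le
        _ = 2 * M := by field_simp
    calc ‖g z‖ ≤ ‖f z - f c‖ + ‖fderiv ℂ f c (z - c)‖ := norm_sub_le _ _
      _ ≤ 4 * M := by linarith
  have hn : (g · - g c) =o[𝓝 c] (fun w ↦ ‖w - c‖ ^ 1) := by
    have := hdc.hasFDerivAt.isLittleO
    simp only [hgc, sub_zero, pow_one]
    exact this.norm_right
  have := Complex.dist_le_mul_div_pow_of_mapsTo_ball_of_isLittleO hgd hgmaps hn hw
  rw [hgc, dist_zero_right, dist_eq_norm] at this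
  simpa only [hg] using this

omit [NormedSpace ℂ E] in
theorem ball_half_subset {c w : E} {R : ℝ} (hw : w ∈ ball c (R / 2)) :
    ball w (R / 2) ⊆ ball c R := by
  intro x hx
  rw [mem_ball] at *
  calc dist x c ≤ dist x w + dist w c := dist_triangle _ _ _
    _ < R := by linarith

/-- Lipschitz type bound for bounded holomorphic maps. -/
theorem lipschitz_half {f : E → F} {c : E} {R M : ℝ}
    (hd : DifferentiableOn ℂ f (ball c R)) (hM : ∀ z ∈ ball c R, ‖f z‖ ≤ M) {w z : E}
    (hw : w ∈ ball c (R / 2)) (hz : z ∈ ball w (R / 2)) :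
    ‖f z - f w‖ ≤ 4 * M / R * ‖z - w‖ := by
  have hsub := ball_half_subset hw
  have hR : 0 < R / 2 := (dist_nonneg).trans_lt (mem_ball.1 hw)
  have hmaps : MapsTo f (ball w (R / 2)) (closedBall (f w) (2 * M)) := by
    intro x hx
    rw [mem_closedBall, dist_eq_norm]
    calc ‖f x - f w‖ ≤ ‖f x‖ + ‖f w‖ := norm_sub_le _ _
      _ ≤ 2 * M := by linarith [hM x (hsub hx), hM w (hsub (mem_ball_self hR))]
  have := Complex.dist_le_div_mul_dist_of_mapsTo_ball (hd.mono hsub) hmaps hz
  rw [dist_eq_norm, dist_eq_norm] at this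
  calc _ ≤ _ := this
    _ = _ := by
      have : R ≠ 0 := by linarith
      field_simp; ring

theorem norm_fderiv_le_half {f : E → F} {c : E} {R M : ℝ}
    (hd : DifferentiableOn ℂ f (ball c R)) (hM : ∀ z ∈ ball c R, ‖f z‖ ≤ M) {w : E}
    (hw : w ∈ ball c (R / 2)) :
    ‖fderiv ℂ f w‖ ≤ 4 * M / R := by
  have hsub := ball_half_subset hw
  have hR : 0 < R / 2 := (dist_nonneg).trans_lt (mem_ball.1 hw)
  have hmaps : MapsTo f (ball w (R / 2)) (closedBall (f w) (2 * M)) := by
    intro x hx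
    rw [mem_closedBall, dist_eq_norm]
    calc ‖f x - f w‖ ≤ ‖f x‖ + ‖f w‖ := norm_sub_le _ _
      _ ≤ 2 * M := by linarith [hM x (hsub hx), hM w (hsub (mem_ball_self hR))]
  have := Complex.norm_fderiv_le_div_of_mapsTo_ball (hd.mono hsub) hmaps hR
  calc _ ≤ _ := this
    _ = _ := by
      have : R ≠ 0 := by linarith
      field_simp; ring

/-- Uniform limits of holomorphic maps are holomorphic. -/
theorem differentiableOn_of_uniform_limit [CompleteSpace F] {f : ℕ → E → F} {g : E → F} {c : E}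
    {R : ℝ} (hf : ∀ n, DifferentiableOn ℂ (f n) (ball c R))
    (hlim : TendstoUniformlyOn f g atTop (ball c R)) :
    DifferentiableOn ℂ g (ball c (R / 2)) := by
  rcases le_or_gt R 0 with hR | hR
  · rw [ball_eq_empty.2 (by linarith)]
    exact differentiableOn_empty
  have hc : UniformCauchySeqOn (fun n => fderiv ℂ (f n)) atTop (ball c (R / 2)) := by
    rw [Metric.uniformCauchySeqOn_iff]
    intro ε hε
    obtain ⟨N, hN⟩ := Metric.uniformCauchySeqOn_iff.1 hlim.uniformCauchySeqOn (ε * R / 8)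
      (by positivity)
    refine ⟨N, fun m hm n hn w hw => ?_⟩
    have hsub := ball_half_subset hw
    have hR2 : 0 < R / 2 := by linarith
    have hwm : w ∈ ball c R := hsub (mem_ball_self hR2)
    have e1 : fderiv ℂ (f m) w - fderiv ℂ (f n) w = fderiv ℂ (fun x => f m x - f n x) w := by
      rw [fderiv_fun_sub ((hf m).differentiableAt (isOpen_ball.mem_nhds hwm))
        ((hf n).differentiableAt (isOpen_ball.mem_nhds hwm))]
    rw [dist_eq_norm, e1]
    have := norm_fderiv_le_half (f := fun x => f m x - f n x) (c := c) (R := R) (M := ε * R / 8)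
      ((hf m).sub (hf n)) (fun z hz => by
        have := hN m hm n hn z hz
        rw [dist_eq_norm] at this
        exact this.le) hw
    calc _ ≤ _ := this
      _ = ε / 2 := by field_simp; ring
      _ < ε := by linarith
  have hex : ∀ x ∈ ball c (R / 2), ∃ L : E →L[ℂ] F,
      Tendsto (fun n => fderiv ℂ (f n) x) atTop (𝓝 L) := by
    intro x hx
    exact cauchySeq_tendsto_of_complete (hc.cauchySeq hx)
  choose! g' hg' using hex
  have hu : TendstoUniformlyOn (fun n => fderiv ℂ (f n)) g' atTop (ball c (R / 2)) :=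
    hc.tendstoUniformlyOn_of_tendsto hg'
  intro x hx
  refine (hasFDerivAt_of_tendstoUniformlyOn (f := f) isOpen_ball hu (fun n y hy => ?_)
    (fun y hy => ?_) hx).differentiableAt.differentiableWithinAt
  · exact ((hf n).differentiableAt
      (isOpen_ball.mem_nhds (ball_subset_ball (by linarith) hy))).hasFDerivAt
  · exact hlim.tendsto_at (ball_subset_ball (by linarith) hy)

/-- A holomorphic map is locally bounded. -/
theorem exists_bound {f : E → F} {s : Set E} (hs : IsOpen s) (hf : DifferentiableOn ℂ f s)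
    {z : E} (hz : z ∈ s) : ∃ R > 0, ∃ M ≥ 0, ball z R ⊆ s ∧ ∀ w ∈ ball z R, ‖f w‖ ≤ M := by
  have hc : ContinuousAt f z := (hf.differentiableAt (hs.mem_nhds hz)).continuousAt
  have h1 : ∀ᶠ w in 𝓝 z, ‖f w‖ < ‖f z‖ + 1 :=
    hc.norm.eventually_lt continuousAt_const (by simp)
  obtain ⟨R, hR, h⟩ := Metric.eventually_nhds_iff_ball.1 (h1.and (hs.mem_nhds hz))
  exact ⟨R, hR, ‖f z‖ + 1, by positivity, fun w hw => (h w hw).2, fun w hw => (h w hw).1.le⟩

/-- Directional derivatives of holomorphic maps are holomorphic. -/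
theorem differentiableOn_fderiv_apply [CompleteSpace F] {f : E → F} {s : Set E} (hs : IsOpen s)
    (hf : DifferentiableOn ℂ f s) (v : E) :
    DifferentiableOn ℂ (fun z => fderiv ℂ f z v) s := by
  intro z hz
  obtain ⟨R, hR, M, hM0, hsub, hM⟩ := exists_bound hs hf hz
  obtain ⟨N, hN⟩ := exists_nat_gt (4 * ‖v‖ / R)
  set t : ℕ → ℂ := fun n => ((n + N + 1 : ℕ) : ℂ)⁻¹ with ht
  have htpos : ∀ n, t n ≠ 0 := fun n =>
    inv_ne_zero (Nat.cast_ne_zero.2 (Nat.succ_ne_zero (n + N)))
  have htn : ∀ n, ‖t n‖ = ((n + N + 1 : ℕ) : ℝ)⁻¹ := by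
    intro n
    rw [ht]
    simp only [norm_inv, Complex.norm_natCast]
  have htv : ∀ n, ‖t n • v‖ < R / 4 := by
    intro n
    rw [norm_smul, htn]
    have h1 : (N : ℝ) < ((n + N + 1 : ℕ) : ℝ) := by exact_mod_cast (by omega)
    have h2 : 4 * ‖v‖ / R < ((n + N + 1 : ℕ) : ℝ) := hN.trans h1
    have h3 : (0 : ℝ) < ((n + N + 1 : ℕ) : ℝ) := by positivity
    rw [div_lt_iff₀ hR] at h2
    rw [inv_mul_lt_iff₀ h3]
    linarith
  set F' : ℕ → E → F := fun n x => (t n)⁻¹ • (f (x + t n • v) - f x) with hF'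
  have hdiff : ∀ n, DifferentiableOn ℂ (F' n) (ball z (R / 4)) := by
    intro n x hx
    have hx1 : x ∈ ball z R := ball_subset_ball (by linarith) hx
    have hx2 : x + t n • v ∈ ball z R := by
      rw [mem_ball, dist_eq_norm] at *
      calc ‖x + t n • v - z‖ = ‖(x - z) + t n • v‖ := by congr 1; abel
        _ ≤ ‖x - z‖ + ‖t n • v‖ := norm_add_le _ _
        _ < R := by linarith [htv n]
    have d1 : DifferentiableAt ℂ f x := hf.differentiableAt (hs.mem_nhds (hsub hx1))
    have d2 : DifferentiableAt ℂ f (x + t n • v) := hf.differentiableAt (hs.mem_nhds (hsub hx2))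
    have d3 : DifferentiableAt ℂ (fun y => f (y + t n • v)) x := by
      have : DifferentiableAt ℂ (fun y : E => y + t n • v) x := by fun_prop
      exact DifferentiableAt.comp x d2 this
    exact ((d3.sub d1).const_smul _).differentiableWithinAt
  have hlim : TendstoUniformlyOn F' (fun x => fderiv ℂ f x v) atTop (ball z (R / 4)) := by
    rw [Metric.tendstoUniformlyOn_iff]
    intro ε hε
    have h0 : Tendsto (fun n : ℕ => (4 * M * (‖v‖ / (R / 2)) ^ 2) * ‖t n‖) atTop (𝓝 0) := by
      have : Tendsto (fun n : ℕ => ‖t n‖) atTop (𝓝 0) := by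
        simp only [htn]
        have := tendsto_inv_atTop_nhds_zero_nat (𝕜 := ℝ)
        exact (tendsto_add_atTop_iff_nat (N + 1)).2 this
      simpa using this.const_mul (4 * M * (‖v‖ / (R / 2)) ^ 2)
    filter_upwards [h0.eventually_lt_const hε] with n hn x hx
    have hx1 : x ∈ ball z (R / 2) := ball_subset_ball (by linarith) hx
    have hx3 := ball_half_subset hx1
    have hxx : x + t n • v ∈ ball x (R / 2) := by
      rw [mem_ball, dist_eq_norm]
      simp only [add_sub_cancel_left]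
      linarith [htv n]
    have key := norm_sub_sub_fderiv_le (f := f) (c := x) (R := R / 2) (M := M) (by linarith)
      (hf.mono (hx3.trans hsub)) (fun w hw => hM w (hx3 hw)) hxx
    rw [add_sub_cancel_left] at key
    have e1 : fderiv ℂ f x v - F' n x =
        -((t n)⁻¹ • (f (x + t n • v) - f x - fderiv ℂ f x (t n • v))) := by
      simp only [hF', map_smul, smul_sub, smul_smul, inv_mul_cancel₀ (htpos n), one_smul]
      abel
    rw [dist_eq_norm, e1, norm_neg, norm_smul, norm_inv]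
    have htp : 0 < ‖t n‖ := norm_pos_iff.2 (htpos n)
    calc ‖t n‖⁻¹ * ‖f (x + t n • v) - f x - fderiv ℂ f x (t n • v)‖
        ≤ ‖t n‖⁻¹ * (4 * M * (‖t n • v‖ / (R / 2)) ^ 2) := by gcongr
      _ = (4 * M * (‖v‖ / (R / 2)) ^ 2) * ‖t n‖ := by
          rw [norm_smul]; field_simp
      _ < ε := hn
  have := differentiableOn_of_uniform_limit hdiff hlim
  exact (this.differentiableAt (isOpen_ball.mem_nhds
    (mem_ball_self (by linarith)))).differentiableWithinAt

/-- Holomorphic maps on open subsets of a finite dimensional space are smooth. -/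
theorem contDiffOn_of_differentiableOn [FiniteDimensional ℂ E] [CompleteSpace F] {f : E → F}
    {s : Set E} (hs : IsOpen s) (hf : DifferentiableOn ℂ f s) (n : ℕ) : ContDiffOn ℂ n f s := by
  induction n generalizing f with
  | zero => exact contDiffOn_zero.2 hf.continuousOn
  | succ n ih =>
    have := contDiffOn_succ_of_fderiv_apply (n := (n : WithTop ℕ∞)) hf
      (fun h => absurd h (by simp)) (fun y => by
        have h1 := ih (differentiableOn_fderiv_apply hs hf y)
        refine h1.congr (fun x hx => ?_)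
        rw [fderivWithin_of_isOpen hs hx])
    exact_mod_cast this

end General



theorem param_circle {E : Type} [NormedAddCommGroup E] [NormedSpace ℂ E] [FiniteDimensional ℂ E]
    {Ω : Set (E × ℂ)} (hΩ : IsOpen Ω) {F : E × ℂ → ℂ} (hF : DifferentiableOn ℂ F Ω) {r : ℝ}
    {U : Set E} (hU : IsOpen U) (hsub : ∀ p ∈ U, ∀ ξ ∈ sphere (0:ℂ) |r|, (p, ξ) ∈ Ω) :
    DifferentiableOn ℂ (fun p => ∮ ξ in C(0, r), F (p, ξ)) U := by
  have hcd : ContDiffOn ℂ (1:ℕ) F Ω := contDiffOn_of_differentiableOn hΩ hF 1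
  have hfd : ContinuousOn (fun q => fderiv ℂ F q) Ω :=
    hcd.continuousOn_fderiv_of_isOpen hΩ (by simp)
  intro p0 hp0
  have : ProperSpace E := FiniteDimensional.proper ℂ E
  obtain ⟨δ, hδ, hδU⟩ := Metric.nhds_basis_closedBall.mem_iff.1 (hU.mem_nhds hp0)
  have hK : IsCompact (closedBall p0 δ ×ˢ sphere (0:ℂ) |r|) :=
    (isCompact_closedBall _ _).prod (isCompact_sphere _ _)
  have hKΩ : closedBall p0 δ ×ˢ sphere (0:ℂ) |r| ⊆ Ω := by
    rintro ⟨p, ξ⟩ ⟨h1, h2⟩
    exact hsub p (hδU h1) ξ h2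
  obtain ⟨M, hM⟩ := hK.exists_bound_of_continuousOn (hfd.mono hKΩ)
  have hcm : ∀ θ : ℝ, circleMap 0 r θ ∈ sphere (0:ℂ) |r| := fun θ => circleMap_mem_sphere' 0 r θ
  have hcc : Continuous (circleMap (0:ℂ) r) := continuous_circleMap 0 r
  have hdc : Continuous (fun θ => deriv (circleMap (0:ℂ) r) θ) := by
    simp only [deriv_circleMap]
    fun_prop
  have hFc : ∀ p ∈ U, Continuous (fun θ : ℝ => F (p, circleMap 0 r θ)) := by
    intro p hp
    apply hF.continuousOn.comp_continuous (by fun_prop)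
    intro θ
    exact hsub p hp _ (hcm θ)
  have hF'c : ∀ p ∈ U, Continuous (fun θ : ℝ => fderiv ℂ F (p, circleMap 0 r θ)) := by
    intro p hp
    apply hfd.comp_continuous (by fun_prop)
    intro θ
    exact hsub p hp _ (hcm θ)
  have key := intervalIntegral.hasFDerivAt_integral_of_dominated_of_fderiv_le (𝕜 := ℂ)
    (F := fun (p : E) (θ : ℝ) => deriv (circleMap (0:ℂ) r) θ • F (p, circleMap 0 r θ))
    (F' := fun (p : E) (θ : ℝ) => deriv (circleMap (0:ℂ) r) θ •
      ((fderiv ℂ F (p, circleMap 0 r θ)).comp (ContinuousLinearMap.inl ℂ E ℂ)))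
    (x₀ := p0) (s := ball p0 δ) (μ := MeasureTheory.volume) (a := 0) (b := 2 * Real.pi)
    (bound := fun _ => |r| * (M * ‖ContinuousLinearMap.inl ℂ E ℂ‖))
    (ball_mem_nhds p0 hδ)
    (by
      filter_upwards [hU.mem_nhds hp0] with p hp
      exact (hdc.smul (hFc p hp)).aestronglyMeasurable)
    ((hdc.smul (hFc p0 hp0)).intervalIntegrable _ _)
    (by
      apply Continuous.aestronglyMeasurable
      exact hdc.smul ((hF'c p0 hp0).clm_comp continuous_const))
    (by
      refine Filter.Eventually.of_forall fun θ _ p hp => ?_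
      rw [norm_smul]
      apply mul_le_mul _ _ (norm_nonneg _) (abs_nonneg _)
      · rw [deriv_circleMap, norm_mul, Complex.norm_I, mul_one, norm_circleMap_zero]
      · refine (ContinuousLinearMap.opNorm_comp_le _ _).trans ?_
        apply mul_le_mul_of_nonneg_right _ (norm_nonneg _)
        exact hM (p, circleMap 0 r θ) ⟨ball_subset_closedBall hp, hcm θ⟩)
    intervalIntegrable_const
    (by
      refine Filter.Eventually.of_forall fun θ _ p hp => ?_
      have h1 : (p, circleMap 0 r θ) ∈ Ω := hsub p (hδU (ball_subset_closedBall hp)) _ (hcm θ)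
      have h2 : HasFDerivAt (fun x : E => F (x, circleMap 0 r θ))
          ((fderiv ℂ F (p, circleMap 0 r θ)).comp (ContinuousLinearMap.inl ℂ E ℂ)) p :=
        (hF.differentiableAt (hΩ.mem_nhds h1)).hasFDerivAt.comp p
          (hasFDerivAt_prodMk_left p (circleMap 0 r θ))
      exact h2.const_smul (deriv (circleMap 0 r) θ))
  exact key.differentiableAt.differentiableWithinAt

end Hartogs673

open Set Metric Filter Topology

/-- Hartogs extension from a Hartogs figure -/
theorem hartogs_ext {X : Type} [NormedAddCommGroup X] [NormedSpace ℂ X] [FiniteDimensional ℂ X]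
    {W W₀ : Set X} (hW : IsOpen W) (hWc : Convex ℝ W) (hW0 : IsOpen W₀) (hne : W₀.Nonempty)
    (hsub : W₀ ⊆ W) {ρ R : ℝ} (hρ : 0 ≤ ρ) (hρR : ρ < R) (g : X × ℂ → ℂ)
    (hg : DifferentiableOn ℂ g {p | p.1 ∈ W ∧ ‖p.2‖ < R ∧ (p.1 ∈ W₀ ∨ ρ < ‖p.2‖)}) :
    ∃ G : X × ℂ → ℂ, DifferentiableOn ℂ G {p | p.1 ∈ W ∧ ‖p.2‖ < R} ∧
      ∀ p : X × ℂ, p.1 ∈ W → ‖p.2‖ < R → (p.1 ∈ W₀ ∨ ρ < ‖p.2‖) → G p = g p := by
  classical
  set D : Set (X × ℂ) := {p | p.1 ∈ W ∧ ‖p.2‖ < R ∧ (p.1 ∈ W₀ ∨ ρ < ‖p.2‖)} with hD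
  have hDo : IsOpen D := by
    have h1 : IsOpen {p : X × ℂ | p.1 ∈ W} := hW.preimage continuous_fst
    have h2 : IsOpen {p : X × ℂ | ‖p.2‖ < R} :=
      isOpen_lt (continuous_norm.comp continuous_snd) continuous_const
    have h3 : IsOpen {p : X × ℂ | p.1 ∈ W₀} := hW0.preimage continuous_fst
    have h4 : IsOpen {p : X × ℂ | ρ < ‖p.2‖} :=
      isOpen_lt continuous_const (continuous_norm.comp continuous_snd)
    exact h1.inter (h2.inter (h3.union h4))
  obtain ⟨r, hr1, hr2⟩ := exists_between hρR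
  have hr0 : 0 < r := lt_of_le_of_lt hρ hr1
  -- the integrand
  set Ω : Set ((X × ℂ) × ℂ) := {q | q.1.1 ∈ W ∧ ρ < ‖q.2‖ ∧ ‖q.2‖ < R ∧ ‖q.1.2‖ < ‖q.2‖} with hΩ
  have hΩo : IsOpen Ω := by
    have h1 : IsOpen {q : (X × ℂ) × ℂ | q.1.1 ∈ W} := hW.preimage (by fun_prop)
    have h2 : IsOpen {q : (X × ℂ) × ℂ | ρ < ‖q.2‖} := isOpen_lt (by fun_prop) (by fun_prop)
    have h3 : IsOpen {q : (X × ℂ) × ℂ | ‖q.2‖ < R} := isOpen_lt (by fun_prop) (by fun_prop)
    have h4 : IsOpen {q : (X × ℂ) × ℂ | ‖q.1.2‖ < ‖q.2‖} := isOpen_lt (by fun_prop) (by fun_prop)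
    exact h1.inter (h2.inter (h3.inter h4))
  set F : (X × ℂ) × ℂ → ℂ := fun q => (q.2 - q.1.2)⁻¹ • g (q.1.1, q.2) with hF
  have hFd : DifferentiableOn ℂ F Ω := by
    intro q hq
    apply DifferentiableAt.differentiableWithinAt
    obtain ⟨h1, h2, h3, h4⟩ := hq
    have h5 : q.2 - q.1.2 ≠ 0 := by
      intro h
      rw [sub_eq_zero] at h
      rw [h] at h4
      exact lt_irrefl _ h4
    have h6 : DifferentiableAt ℂ g (q.1.1, q.2) :=
      hg.differentiableAt (hDo.mem_nhds ⟨h1, h3, Or.inr h2⟩)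
    have h7 : DifferentiableAt ℂ (fun q : (X × ℂ) × ℂ => g (q.1.1, q.2)) q :=
      DifferentiableAt.comp q h6 (by fun_prop)
    have h8 : DifferentiableAt ℂ (fun q : (X × ℂ) × ℂ => (q.2 - q.1.2)⁻¹) q := by
      have h9 : DifferentiableAt ℂ (fun q : (X × ℂ) × ℂ => q.2 - q.1.2) q := by fun_prop
      exact h9.inv h5
    exact h8.smul h7
  set U : Set (X × ℂ) := {p | p.1 ∈ W ∧ ‖p.2‖ < r} with hU
  have hUo : IsOpen U := by
    have h1 : IsOpen {p : X × ℂ | p.1 ∈ W} := hW.preimage continuous_fst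
    have h2 : IsOpen {p : X × ℂ | ‖p.2‖ < r} := isOpen_lt (by fun_prop) (by fun_prop)
    exact h1.inter h2
  set I : X × ℂ → ℂ := fun p => (2 * Real.pi * Complex.I : ℂ)⁻¹ • ∮ ξ in C(0, r), F (p, ξ) with hI
  have hId : DifferentiableOn ℂ I U := by
    refine DifferentiableOn.const_smul (R := ℂ) (Hartogs673.param_circle hΩo hFd hUo ?_)
      (2 * Real.pi * Complex.I : ℂ)⁻¹
    intro p hp ξ hξ
    rw [mem_sphere_zero_iff_norm, abs_of_pos hr0] at hξ
    refine ⟨hp.1, ?_, ?_, ?_⟩
    · show ρ < ‖ξ‖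
      rw [hξ]; exact hr1
    · show ‖ξ‖ < R
      rw [hξ]; exact hr2
    · show ‖p.2‖ < ‖ξ‖
      rw [hξ]; exact hp.2
  -- Cauchy formula over W₀
  have hcauchy : ∀ x ∈ W₀, ∀ z : ℂ, ‖z‖ < r → I (x, z) = g (x, z) := by
    intro x hx z hz
    have hgx : DifferentiableOn ℂ (fun ξ => g (x, ξ)) (ball 0 R) := by
      intro ξ hξ
      rw [mem_ball_zero_iff] at hξ
      apply DifferentiableAt.differentiableWithinAt
      have h6 : DifferentiableAt ℂ g (x, ξ) :=
        hg.differentiableAt (hDo.mem_nhds ⟨hsub hx, hξ, Or.inl hx⟩)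
      exact DifferentiableAt.comp ξ h6 (by fun_prop)
    have hdc : DiffContOnCl ℂ (fun ξ => g (x, ξ)) (ball 0 r) := by
      apply DifferentiableOn.diffContOnCl
      rw [closure_ball _ hr0.ne']
      exact hgx.mono (closedBall_subset_ball hr2)
    exact hdc.two_pi_i_inv_smul_circleIntegral_sub_inv_smul (w := z) (by simpa using hz)
  have hann : ∀ x ∈ W, ∀ z : ℂ, ρ < ‖z‖ → ‖z‖ < r → I (x, z) = g (x, z) := by
    intro x hx z hz1 hz2
    obtain ⟨x0, hx0⟩ := hne
    set T : Set ℂ := {τ | x0 + τ • (x - x0) ∈ W} with hT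
    have hTo : IsOpen T := hW.preimage (by fun_prop)
    have hTc : Convex ℝ T := by
      intro a ha b hb s t hs ht hst
      have h1 := hWc ha hb hs ht hst
      have h2 : x0 + (s • a + t • b) • (x - x0)
          = s • (x0 + a • (x - x0)) + t • (x0 + b • (x - x0)) := by
        rw [smul_add, smul_add, add_smul, smul_assoc, smul_assoc]
        have h3 : x0 = s • x0 + t • x0 := by rw [← add_smul, hst, one_smul]
        nth_rewrite 1 [h3]
        abel
      show x0 + (s • a + t • b) • (x - x0) ∈ W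
      rw [h2]
      exact h1
    set k : ℂ → ℂ := fun τ => I (x0 + τ • (x - x0), z) - g (x0 + τ • (x - x0), z) with hk
    have hkd : DifferentiableOn ℂ k T := by
      intro τ hτ
      apply DifferentiableAt.differentiableWithinAt
      have h1 : DifferentiableAt ℂ I (x0 + τ • (x - x0), z) :=
        hId.differentiableAt (hUo.mem_nhds ⟨hτ, hz2⟩)
      have h2 : DifferentiableAt ℂ g (x0 + τ • (x - x0), z) :=
        hg.differentiableAt (hDo.mem_nhds ⟨hτ, hz2.trans hr2, Or.inr hz1⟩)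
      have h3 : DifferentiableAt ℂ (fun τ : ℂ => (x0 + τ • (x - x0), z)) τ := by fun_prop
      exact (DifferentiableAt.comp τ h1 h3).sub (DifferentiableAt.comp τ h2 h3)
    have h0T : (0:ℂ) ∈ T := by
      show x0 + (0:ℂ) • (x - x0) ∈ W
      rw [zero_smul, add_zero]
      exact hsub hx0
    have h1T : (1:ℂ) ∈ T := by
      show x0 + (1:ℂ) • (x - x0) ∈ W
      rw [one_smul, add_sub_cancel]
      exact hx
    have hk0 : k =ᶠ[𝓝 0] 0 := by
      have h1 : {τ : ℂ | x0 + τ • (x - x0) ∈ W₀} ∈ 𝓝 (0:ℂ) := by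
        have h2 : IsOpen {τ : ℂ | x0 + τ • (x - x0) ∈ W₀} := hW0.preimage (by fun_prop)
        apply h2.mem_nhds
        show x0 + (0:ℂ) • (x - x0) ∈ W₀
        rw [zero_smul, add_zero]
        exact hx0
      filter_upwards [h1] with τ hτ
      simp only [hk, Pi.zero_apply]
      rw [hcauchy _ hτ z hz2, sub_self]
    have h5 := (hkd.analyticOnNhd hTo).eqOn_zero_of_preconnected_of_eventuallyEq_zero
      hTc.isPreconnected h0T hk0 h1T
    simp only [hk, Pi.zero_apply, one_smul, add_sub_cancel] at h5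
    exact sub_eq_zero.1 h5
  refine ⟨fun p => if ‖p.2‖ < r then I p else g p, ?_, ?_⟩
  · rintro p ⟨hp1, hp2⟩
    apply DifferentiableAt.differentiableWithinAt
    by_cases hp : ‖p.2‖ < r
    · have h1 : DifferentiableAt ℂ I p := hId.differentiableAt (hUo.mem_nhds ⟨hp1, hp⟩)
      apply h1.congr_of_eventuallyEq
      filter_upwards [hUo.mem_nhds ⟨hp1, hp⟩] with q hq
      rw [if_pos hq.2]
    · push Not at hp
      have h0 : ρ < ‖p.2‖ := lt_of_lt_of_le hr1 hp
      have h1 : DifferentiableAt ℂ g p := hg.differentiableAt (hDo.mem_nhds ⟨hp1, hp2, Or.inr h0⟩)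
      apply h1.congr_of_eventuallyEq
      have h2 : IsOpen {q : X × ℂ | q.1 ∈ W ∧ ρ < ‖q.2‖} :=
        (hW.preimage continuous_fst).inter
          (isOpen_lt continuous_const (continuous_norm.comp continuous_snd))
      filter_upwards [h2.mem_nhds ⟨hp1, h0⟩] with q hq
      by_cases hqr : ‖q.2‖ < r
      · rw [if_pos hqr]
        exact hann q.1 hq.1 q.2 hq.2 hqr
      · rw [if_neg hqr]
  · intro p hp1 hp2 hp3
    by_cases hpr : ‖p.2‖ < r
    · simp only [if_pos hpr]
      rcases hp3 with h | h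
      · exact hcauchy p.1 h p.2 hpr
      · exact hann p.1 hp1 p.2 h hpr
    · simp only [if_neg hpr]

end Pool.Agent.Helper417.Mer
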