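import Mathlib

set_option autoImplicit false
set_option linter.unusedSectionVars false
set_option linter.unusedSimpArgs false
open scoped Manifold ContDiff Topology
open Set

/-! Quotients of open subsets of a complex normed space by properly discontinuous free holomorphic
actions, as complex manifolds (adapted from `Pool/Agent/Helper454/QuotMfd.lean`). -/

namespace Pool.Agent.Helper417.Mer

/-- Data of a complex manifold `M` given as quotient of an open set `U` of `E`. -/
structure CQuot (E : Type) [NormedAddCommGroup E] [NormedSpace ℂ E] (M : Type)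
    [TopologicalSpace M] where
  U : Set E
  isOpen : IsOpen U
  nonempty : Nonempty U
  G : Type
  grp : Group G
  act : MulAction G U
  q : U → M
  hq : IsQuotientCoveringMap q G
  φ : G → E → E
  φ_spec : ∀ (g : G) (x : U), ((g • x : U) : E) = φ g x
  φ_diff : ∀ g, ContDiff ℂ ω (φ g)

namespace CQuot

variable {E : Type} [NormedAddCommGroup E] [NormedSpace ℂ E] {M : Type} [TopologicalSpace M]
  (d : CQuot E M)

instance : Group d.G := d.grp
instance : MulAction d.G d.U := d.act
instance : Nonempty d.U := d.nonempty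

/-- the local homeomorphism -/
lemma hl : IsLocalHomeomorph d.q := d.hq.isCoveringMap.isLocalHomeomorph

/-- the inclusion as an open partial homeomorphism -/
noncomputable def ι : OpenPartialHomeomorph d.U E :=
  d.isOpen.isOpenEmbedding_subtypeVal.toOpenPartialHomeomorph Subtype.val

@[simp] lemma ι_coe : (d.ι : d.U → E) = Subtype.val := by
  simp [ι]

@[simp] lemma ι_source : d.ι.source = univ := by simp [ι]

@[simp] lemma ι_target : d.ι.target = d.U := by simp [ι]

lemma ι_symm {v : E} (hv : v ∈ d.U) : d.ι.symm v = ⟨v, hv⟩ := by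
  apply Subtype.val_injective
  have := d.ι.right_inv (x := v) (by simpa using hv)
  simpa using this

/-- the projection, extended to `E` -/
noncomputable def Q : E → M := d.q ∘ d.ι.symm

lemma Q_eq {v : E} (hv : v ∈ d.U) : d.Q v = d.q ⟨v, hv⟩ := by
  simp [Q, ι_symm d hv]

/-- local description of local inverses -/
lemma localInverse_eq_smul (x v : d.U)
    (hv : d.q v ∈ (d.hl.localInverseAt x).source) :
    ∃ g : d.G, ∀ᶠ u in 𝓝 v, d.hl.localInverseAt x (d.q u) = g • u := by
  set w := d.hl.localInverseAt x (d.q v) with hw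
  have hqw : d.q w = d.q v := d.hl.apply_localInverseAt_of_mem hv
  obtain ⟨g, hg⟩ := d.hq.apply_eq_iff_mem_orbit.mp hqw
  have hcs := d.hq.toContinuousConstSMul
  refine ⟨g, ?_⟩
  have hwt : w ∈ (d.hl.localInverseAt x).target := (d.hl.localInverseAt x).map_source hv
  have h1 : ∀ᶠ u in 𝓝 v, g • u ∈ (d.hl.localInverseAt x).target := by
    have hc : Continuous fun u : d.U => g • u := continuous_const_smul g
    have : g • v ∈ (d.hl.localInverseAt x).target := by
      have : g • v = w := hg
      rw [this]; exact hwt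
    exact hc.continuousAt.preimage_mem_nhds ((d.hl.localInverseAt x).open_target.mem_nhds this)
  have h2 : ∀ᶠ u in 𝓝 v, d.q u ∈ (d.hl.localInverseAt x).source :=
    d.hq.continuous.continuousAt.preimage_mem_nhds
      ((d.hl.localInverseAt x).open_source.mem_nhds hv)
  filter_upwards [h1, h2] with u hu1 hu2
  apply d.hl.injOn_localInverseAt_target (x := x)
  · exact (d.hl.localInverseAt x).map_source hu2
  · exact hu1
  · rw [d.hl.apply_localInverseAt_of_mem hu2]
    exact (d.hq.map_smul g).symm

/-- the global set-theoretic section used by the charts -/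
noncomputable def sec : M → d.U := d.hq.surjective.hasRightInverse.choose

lemma sec_spec (y : M) : d.q (d.sec y) = y :=
  d.hq.surjective.hasRightInverse.choose_spec y

/-- the quotient charted space -/
@[reducible] noncomputable def cs : ChartedSpace E M where
  atlas := {(d.hl.localInverseAt (d.sec y)).trans d.ι | y : M}
  chartAt y := (d.hl.localInverseAt (d.sec y)).trans d.ι
  mem_chart_source y := by
    have h := d.hl.apply_self_mem_localInverseAt_source (x := d.sec y)
    rw [sec_spec] at h
    simp [h]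
  chart_mem_atlas := by simp

lemma chartAt_eq (y : M) :
    letI := d.cs
    chartAt E y = (d.hl.localInverseAt (d.sec y)).trans d.ι := rfl

lemma extChartAt_coe (y : M) :
    letI := d.cs
    ⇑(extChartAt 𝓘(ℂ, E) y) = fun z => ((d.hl.localInverseAt (d.sec y) z : d.U) : E) := by
  let _ := d.cs
  ext z
  simp [extChartAt, chartAt_eq]

lemma extChartAt_symm_coe (y : M) :
    letI := d.cs
    ⇑(extChartAt 𝓘(ℂ, E) y).symm = d.Q := by
  let _ := d.cs
  ext z
  simp [extChartAt, chartAt_eq, Q]

lemma extChartAt_self (y : M) :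
    letI := d.cs
    extChartAt 𝓘(ℂ, E) y y = d.sec y := by
  let _ := d.cs
  rw [extChartAt_coe]
  have h := d.hl.localInverseAt_apply_self (x := d.sec y)
  rw [sec_spec d] at h
  simp [h]

lemma eventually_local (x : d.U) (v : E) (hvU : v ∈ d.U)
    (hv : d.Q v ∈ (d.hl.localInverseAt x).source) :
    ∃ g : d.G, ∀ᶠ u in 𝓝 v, ((d.hl.localInverseAt x (d.Q u) : d.U) : E) = d.φ g u := by
  rw [Q_eq d hvU] at hv
  obtain ⟨g, hg⟩ := d.localInverse_eq_smul x ⟨v, hvU⟩ hv
  refine ⟨g, ?_⟩
  rw [nhds_subtype_eq_comap] at hg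
  have h2 : ∀ᶠ u in 𝓝 v, u ∈ d.U := d.isOpen.mem_nhds hvU
  obtain ⟨s, hs, hs2⟩ := Filter.mem_comap.1 hg
  filter_upwards [hs, h2] with u hu hu2
  have := hs2 (show (⟨u, hu2⟩ : d.U) ∈ Subtype.val ⁻¹' s from hu)
  simp only [mem_ofPred_eq] at this
  rw [Q_eq d hu2, this, d.φ_spec]

lemma isManifold :
    letI := d.cs
    IsManifold 𝓘(ℂ, E) ω M := by
  let _ := d.cs
  apply isManifold_of_contDiffOn
  rintro e e' ⟨y, rfl⟩ ⟨y', rfl⟩
  intro v hv
  simp only [modelWithCornersSelf_coe, modelWithCornersSelf_coe_symm, preimage_id_eq, id_eq,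
    range_id, inter_univ, OpenPartialHomeomorph.coe_trans, Function.comp_def] at hv ⊢
  rw [OpenPartialHomeomorph.trans_source] at hv
  have hvU : v ∈ d.U := by
    have h1 := hv.1
    rw [OpenPartialHomeomorph.symm_source, OpenPartialHomeomorph.trans_target] at h1
    simpa using h1.1
  have hv2 : d.Q v ∈ (d.hl.localInverseAt (d.sec y')).source := by
    have h1 := hv.2
    rw [mem_preimage, OpenPartialHomeomorph.trans_source] at h1
    have h2 := h1.1
    simpa [Q] using h2
  obtain ⟨g, hg⟩ := d.eventually_local (d.sec y') v hvU hv2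
  have h1 : ContDiffAt ℂ ω (fun u => ((d.hl.localInverseAt (d.sec y') (d.Q u) : d.U) : E)) v :=
    (d.φ_diff g).contDiffAt.congr_of_eventuallyEq hg
  have h2 : (fun x => (d.hl.localInverseAt (d.sec y)).trans d.ι |>.symm x) = d.Q := by
    ext u; simp [Q]
  have := h1.contDiffWithinAt (s := (((d.hl.localInverseAt (d.sec y)).trans d.ι).symm.trans
    ((d.hl.localInverseAt (d.sec y')).trans d.ι)).source)
  simpa [Q, Function.comp_def] using this

/-- the local inverse in coordinates, along the projection of a holomorphic map -/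
lemma differentiableAt_localInverse_Q {V : Type} [NormedAddCommGroup V] [NormedSpace ℂ V]
    (x : d.U) {F : V → E} {z : V} (hF : DifferentiableAt ℂ F z) (hz : F z ∈ d.U)
    (hx : d.Q (F z) ∈ (d.hl.localInverseAt x).source) :
    DifferentiableAt ℂ (fun u => ((d.hl.localInverseAt x (d.Q (F u)) : d.U) : E)) z := by
  obtain ⟨g, hg⟩ := d.eventually_local x (F z) hz hx
  have h1 : ∀ᶠ u in 𝓝 z, ((d.hl.localInverseAt x (d.Q (F u)) : d.U) : E) = d.φ g (F u) :=
    hF.continuousAt.eventually hg
  have h2 : DifferentiableAt ℂ (fun u => d.φ g (F u)) z :=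
    DifferentiableAt.comp z (((d.φ_diff g).differentiable (by simp)) (F z)) hF
  exact h2.congr_of_eventuallyEq h1

lemma continuousAt_Q {v : E} (hv : v ∈ d.U) : ContinuousAt d.Q v := by
  have h1 : ContinuousAt d.ι.symm v := d.ι.symm.continuousAt (by simpa using hv)
  exact d.hq.continuous.continuousAt.comp h1

/-- projections of holomorphic maps are holomorphic -/
lemma mdifferentiableAt_Q {V : Type} [NormedAddCommGroup V] [NormedSpace ℂ V]
    {F : V → E} {z : V} (hF : DifferentiableAt ℂ F z) (hz : F z ∈ d.U) :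
    letI := d.cs
    MDifferentiableAt 𝓘(ℂ, V) 𝓘(ℂ, E) (fun u => d.Q (F u)) z := by
  let _ := d.cs
  rw [mdifferentiableAt_iff]
  refine ⟨(d.continuousAt_Q hz).comp hF.continuousAt, ?_⟩
  have hx : d.Q (F z) ∈ (d.hl.localInverseAt (d.sec (d.Q (F z)))).source := by
    have := d.hl.apply_self_mem_localInverseAt_source (x := d.sec (d.Q (F z)))
    rwa [d.sec_spec] at this
  have h1 := d.differentiableAt_localInverse_Q (d.sec (d.Q (F z))) hF hz hx
  have h2 : writtenInExtChartAt 𝓘(ℂ, V) 𝓘(ℂ, E) z (fun u => d.Q (F u)) =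
      fun u => ((d.hl.localInverseAt (d.sec (d.Q (F z))) (d.Q (F u)) : d.U) : E) := by
    ext u
    simp only [writtenInExtChartAt, Function.comp_def]
    rw [d.extChartAt_coe]
    simp [chartAt_self_eq]
  rw [h2]
  simpa [chartAt_self_eq] using h1.differentiableWithinAt

/-- a holomorphic map in the coordinates given by a local inverse of the projection -/
lemma differentiableAt_localInverse {V : Type} [NormedAddCommGroup V] [NormedSpace ℂ V]
    (x : d.U) {f : V → M} {z : V}
    (hf : letI := d.cs; MDifferentiableAt 𝓘(ℂ, V) 𝓘(ℂ, E) f z)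
    (hx : f z ∈ (d.hl.localInverseAt x).source) :
    DifferentiableAt ℂ (fun u => ((d.hl.localInverseAt x (f u) : d.U) : E)) z := by
  let _ := d.cs
  rw [mdifferentiableAt_iff] at hf
  obtain ⟨hc, hd⟩ := hf
  have h2 : writtenInExtChartAt 𝓘(ℂ, V) 𝓘(ℂ, E) z f =
      fun u => ((d.hl.localInverseAt (d.sec (f z)) (f u) : d.U) : E) := by
    ext u
    simp only [writtenInExtChartAt, Function.comp_def]
    rw [d.extChartAt_coe]
    simp [chartAt_self_eq]
  rw [h2] at hd
  have hd' : DifferentiableAt ℂ
      (fun u => ((d.hl.localInverseAt (d.sec (f z)) (f u) : d.U) : E)) z := by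
    simpa [chartAt_self_eq, differentiableWithinAt_univ] using hd
  have hs : f z ∈ (d.hl.localInverseAt (d.sec (f z))).source := by
    have := d.hl.apply_self_mem_localInverseAt_source (x := d.sec (f z))
    rwa [d.sec_spec] at this
  have hzU : (((d.hl.localInverseAt (d.sec (f z)) (f z) : d.U)) : E) ∈ d.U := Subtype.coe_prop _
  have hQ : ∀ y ∈ (d.hl.localInverseAt (d.sec (f z))).source,
      d.Q ((d.hl.localInverseAt (d.sec (f z)) y : d.U) : E) = y := by
    intro y hy
    rw [d.Q_eq (Subtype.coe_prop _)]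
    exact d.hl.apply_localInverseAt_of_mem hy
  have h3 := d.differentiableAt_localInverse_Q x hd' hzU (by rw [hQ _ hs]; exact hx)
  refine h3.congr_of_eventuallyEq ?_
  have h4 : ∀ᶠ u in 𝓝 z, f u ∈ (d.hl.localInverseAt (d.sec (f z))).source :=
    hc.preimage_mem_nhds ((d.hl.localInverseAt (d.sec (f z))).open_source.mem_nhds hs)
  filter_upwards [h4] with u hu
  rw [hQ _ hu]

/-- continuous lifts of holomorphic maps are holomorphic -/
lemma differentiableAt_lift {V : Type} [NormedAddCommGroup V] [NormedSpace ℂ V]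
    {f : V → M} {F : V → E} {z : V}
    (hf : letI := d.cs; MDifferentiableAt 𝓘(ℂ, V) 𝓘(ℂ, E) f z) (hc : ContinuousAt F z)
    (hF : ∀ᶠ u in 𝓝 z, F u ∈ d.U ∧ d.Q (F u) = f u) : DifferentiableAt ℂ F z := by
  obtain ⟨hzU, hzf⟩ := hF.self_of_nhds
  set x : d.U := ⟨F z, hzU⟩ with hxdef
  have hfx : f z = d.q x := by rw [← hzf, d.Q_eq hzU]
  have hx : f z ∈ (d.hl.localInverseAt x).source := by
    rw [hfx]; exact d.hl.apply_self_mem_localInverseAt_source
  refine (d.differentiableAt_localInverse x hf hx).congr_of_eventuallyEq ?_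
  -- the target of the local inverse is a neighbourhood of `x`
  have h1 : (d.hl.localInverseAt x).target ∈ 𝓝 x :=
    (d.hl.localInverseAt x).open_target.mem_nhds d.hl.self_mem_localInverseAt_target
  rw [nhds_subtype_eq_comap] at h1
  obtain ⟨s, hs, hs2⟩ := Filter.mem_comap.1 h1
  have h2 : ∀ᶠ u in 𝓝 z, F u ∈ s := hc.preimage_mem_nhds hs
  filter_upwards [h2, hF] with u hu1 hu2
  have h3 : (⟨F u, hu2.1⟩ : d.U) ∈ (d.hl.localInverseAt x).target :=
    hs2 (show (⟨F u, hu2.1⟩ : d.U) ∈ Subtype.val ⁻¹' s from hu1)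
  have h4 : f u = d.q ⟨F u, hu2.1⟩ := hu2.2.symm.trans (d.Q_eq hu2.1)
  have h5 : d.hl.localInverseAt x (d.q ⟨F u, hu2.1⟩) = ⟨F u, hu2.1⟩ := by
    have h6 := (d.hl.localInverseAt x).right_inv h3
    rwa [d.hl.localInverseAt_symm] at h6
  rw [h4, h5]

/-- functions on the quotient -/
lemma mdifferentiableAt_of_comp_Q {h : M → ℂ} {hE : E → ℂ} (hh : ∀ v ∈ d.U, h (d.Q v) = hE v)
    (hd : ∀ v ∈ d.U, DifferentiableAt ℂ hE v) (y : M) :
    letI := d.cs
    MDifferentiableAt 𝓘(ℂ, E) 𝓘(ℂ, ℂ) h y ∧
    mfderiv 𝓘(ℂ, E) 𝓘(ℂ, ℂ) h y = fderiv ℂ hE (d.sec y) := by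
  let _ := d.cs
  have hev : ∀ᶠ v in 𝓝 ((d.sec y : d.U) : E), h (d.Q v) = hE v := by
    filter_upwards [d.isOpen.mem_nhds (d.sec y).2] with v hv using hh v hv
  have hQc : Continuous fun v : d.U => h (d.q v) := by
    have : (fun v : d.U => h (d.q v)) = fun v : d.U => hE v := by
      ext v
      rw [← hh v v.2, d.Q_eq v.2]
    rw [this]
    rw [continuous_iff_continuousAt]
    intro v
    exact (hd v v.2).continuousAt.comp continuous_subtype_val.continuousAt
  have hc : Continuous h := by
    have := d.hq.toIsQuotientMap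
    rw [this.continuous_iff]
    exact hQc
  have h2 : writtenInExtChartAt 𝓘(ℂ, E) 𝓘(ℂ, ℂ) y h = fun v => h (d.Q v) := by
    ext v
    simp only [writtenInExtChartAt, Function.comp_def]
    rw [d.extChartAt_symm_coe]
    simp [chartAt_self_eq]
  have hd1 : DifferentiableAt ℂ (fun v => h (d.Q v)) ((d.sec y : d.U) : E) :=
    (hd _ (d.sec y).2).congr_of_eventuallyEq hev
  have hm : MDifferentiableAt 𝓘(ℂ, E) 𝓘(ℂ, ℂ) h y := by
    rw [mdifferentiableAt_iff]
    refine ⟨hc.continuousAt, ?_⟩
    rw [h2, d.extChartAt_self]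
    exact hd1.differentiableWithinAt
  refine ⟨hm, ?_⟩
  rw [hm.mfderiv, h2, d.extChartAt_self]
  simp only [modelWithCornersSelf_coe, range_id, fderivWithin_univ]
  exact Filter.EventuallyEq.fderiv_eq hev

end CQuot

end Pool.Agent.Helper417.Mer
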