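import Mathlib
import Pool.Agent.Helper417.Mer.QuotMfd

set_option autoImplicit false
set_option linter.unusedSectionVars false
open scoped Manifold ContDiff Topology unitInterval
open Set Metric Filter

namespace Pool.Agent.Helper417.Mer

/-- generalized Hartogs figure -/
def fig {X : Type} [NormedAddCommGroup X] (W W₀ : Set X) (ρ R : ℝ) : Set (X × ℂ) :=
  {p | p.1 ∈ W ∧ ‖p.2‖ < R ∧ (p.1 ∈ W₀ ∨ ρ < ‖p.2‖)}

/-- the full domain -/
def full {X : Type} [NormedAddCommGroup X] (W : Set X) (R : ℝ) : Set (X × ℂ) :=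
  {p | p.1 ∈ W ∧ ‖p.2‖ < R}

section Top

variable {X : Type} [NormedAddCommGroup X] [NormedSpace ℂ X] {W W₀ : Set X} {ρ R : ℝ}

lemma isOpen_fig (hW : IsOpen W) (hW₀ : IsOpen W₀) : IsOpen (fig W W₀ ρ R) := by
  have h1 : IsOpen {p : X × ℂ | p.1 ∈ W} := hW.preimage continuous_fst
  have h2 : IsOpen {p : X × ℂ | p.1 ∈ W₀} := hW₀.preimage continuous_fst
  have h3 : IsOpen {p : X × ℂ | ‖p.2‖ < R} := isOpen_lt (by fun_prop) continuous_const
  have h4 : IsOpen {p : X × ℂ | ρ < ‖p.2‖} := isOpen_lt continuous_const (by fun_prop)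
  exact h1.inter (h3.inter (h2.union h4))

lemma isOpen_full (hW : IsOpen W) : IsOpen (full W R) := by
  have h1 : IsOpen {p : X × ℂ | p.1 ∈ W} := hW.preimage continuous_fst
  have h3 : IsOpen {p : X × ℂ | ‖p.2‖ < R} := isOpen_lt (by fun_prop) continuous_const
  exact h1.inter h3

lemma fig_subset_full : fig W W₀ ρ R ⊆ full W R := fun _ hp => ⟨hp.1, hp.2.1⟩

lemma convex_full (hW : Convex ℝ W) : Convex ℝ (full W R) := by
  have : full W R = W ×ˢ ball (0 : ℂ) R := by
    ext p; simp [full]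
  rw [this]
  exact hW.prod (convex_ball _ _)

lemma contractible_fig (hW : Convex ℝ W) (hW₀ : Convex ℝ W₀) (hsub : W₀ ⊆ W) {c : X}
    (hc : c ∈ W₀) (hR : 0 < R) : ContractibleSpace (fig W W₀ ρ R) := by
  rw [contractible_iff_id_nullhomotopic]
  have hR0 : ∀ (s : I) (z : ℂ), ‖z‖ < R → ‖((1 - (s : ℝ)) : ℝ) • z‖ < R := by
    intro s z hz
    rw [norm_smul, Real.norm_of_nonneg (by linarith [s.2.2])]
    have h1 : 0 ≤ (s : ℝ) := s.2.1
    nlinarith [norm_nonneg z, s.2.2]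
  have hseg : ∀ {A : Set X}, Convex ℝ A → c ∈ A → ∀ (s : I) (x : X), x ∈ A →
      (1 - (s : ℝ)) • x + (s : ℝ) • c ∈ A := by
    intro A hA hcA s x hx
    exact hA hx hcA (by linarith [s.2.2]) s.2.1 (by ring)
  -- first homotopy
  let f₁ : C(fig W W₀ ρ R, fig W W₀ ρ R) :=
    ⟨fun p => ⟨(c, p.1.2), hsub hc, p.2.2.1, Or.inl hc⟩, by fun_prop⟩
  have H₁ : ContinuousMap.Homotopic (ContinuousMap.id (fig W W₀ ρ R)) f₁ := by
    refine ⟨⟨⟨fun q => ⟨((1 - (q.1 : ℝ)) • q.2.1.1 + (q.1 : ℝ) • c, q.2.1.2), ?_, q.2.2.2.1, ?_⟩,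
      by fun_prop⟩, ?_, ?_⟩⟩
    · exact hseg hW (hsub hc) q.1 _ q.2.2.1
    · rcases q.2.2.2.2 with h | h
      · exact Or.inl (hseg hW₀ hc q.1 _ h)
      · exact Or.inr h
    · intro p
      apply Subtype.ext
      simp
    · intro p
      apply Subtype.ext
      simp [f₁]
  have H₂ : ContinuousMap.Homotopic f₁
      (ContinuousMap.const _ ⟨(c, 0), hsub hc, by simpa using hR, Or.inl hc⟩) := by
    refine ⟨⟨⟨fun q => ⟨(c, ((1 - (q.1 : ℝ)) : ℝ) • q.2.1.2), hsub hc, hR0 q.1 _ q.2.2.2.1,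
      Or.inl hc⟩, by fun_prop⟩, ?_, ?_⟩⟩
    · intro p
      apply Subtype.ext
      simp [f₁]
    · intro p
      apply Subtype.ext
      simp
  exact ⟨_, H₁.trans H₂⟩

end Top

section Lift

variable {E : Type} [NormedAddCommGroup E] [NormedSpace ℂ E] {M : Type} [TopologicalSpace M]
  (d : CQuot E M) {V : Type} [NormedAddCommGroup V] [NormedSpace ℂ V]

/-- holomorphic lifts on simply connected open sets -/
lemma exists_lift {T : Set V} (hT : IsOpen T) (hs : SimplyConnectedSpace T) {f : V → M}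
    (hf : letI := d.cs; MDifferentiableOn 𝓘(ℂ, V) 𝓘(ℂ, E) f T) :
    ∃ F : V → E, DifferentiableOn ℂ F T ∧ ∀ z ∈ T, F z ∈ d.U ∧ d.Q (F z) = f z := by
  let _ := d.cs
  have hlp : LocallyPathConnectedSpace T := hT.locallyPathConnectedSpace
  let fT : C(T, M) := ⟨fun z => f z, by
    rw [continuous_iff_continuousAt]
    intro z
    exact ((hf z z.2).mdifferentiableAt (hT.mem_nhds z.2)).continuousAt.comp
      continuous_subtype_val.continuousAt⟩
  have hne : Nonempty T := inferInstance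
  obtain ⟨a₀⟩ := hne
  obtain ⟨e₀, he₀⟩ := d.hq.surjective (fT a₀)
  obtain ⟨F', ⟨-, hF'⟩, -⟩ := d.hq.isCoveringMap.existsUnique_continuousMap_lifts fT a₀ e₀ he₀
  classical
  let F : V → E := fun z => if h : z ∈ T then ((F' ⟨z, h⟩ : d.U) : E) else 0
  have hF : ∀ z (h : z ∈ T), F z = ((F' ⟨z, h⟩ : d.U) : E) := fun z h => dif_pos h
  have key : ∀ z ∈ T, F z ∈ d.U ∧ d.Q (F z) = f z := by
    intro z hz
    rw [hF z hz]
    refine ⟨Subtype.coe_prop _, ?_⟩
    rw [d.Q_eq (Subtype.coe_prop _)]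
    exact congrFun hF' ⟨z, hz⟩
  refine ⟨F, ?_, key⟩
  intro z hz
  apply DifferentiableAt.differentiableWithinAt
  apply d.differentiableAt_lift ((hf z hz).mdifferentiableAt (hT.mem_nhds hz))
  · have hc : ContinuousOn F T := by
      rw [continuousOn_iff_continuous_domRestrict]
      have : T.domRestrict F = fun z => ((F' z : d.U) : E) := by
        ext w
        exact hF w.1 w.2
      rw [this]
      fun_prop
    exact hc.continuousAt (hT.mem_nhds hz)
  · filter_upwards [hT.mem_nhds hz] with w hw using key w hw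

end Lift

end Pool.Agent.Helper417.Mer
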