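import Mathlib
import Pool.Agent.Helper417.Mer.Gen
import Pool.Agent.Helper417.Mer.Lift
import Pool.Agent.Helper417.Mer.HartogsExt
import Pool.Agent.Helper417.Mer.ThinCompl

set_option autoImplicit false
set_option linter.unusedSectionVars false
open scoped Manifold ContDiff Topology
open Set Metric Filter

namespace Pool.Agent.Helper417.Mer

/-- Hartogs extension, vector valued -/
lemma hartogs_ext_vec {X : Type} [NormedAddCommGroup X] [NormedSpace ℂ X] [FiniteDimensional ℂ X]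
    {E : Type} [NormedAddCommGroup E] [NormedSpace ℂ E] [FiniteDimensional ℂ E]
    {W W₀ : Set X} (hW : IsOpen W) (hWc : Convex ℝ W) (hW0 : IsOpen W₀) (hne : W₀.Nonempty)
    (hsub : W₀ ⊆ W) {ρ R : ℝ} (hρ : 0 ≤ ρ) (hρR : ρ < R) (g : X × ℂ → E)
    (hg : DifferentiableOn ℂ g (fig W W₀ ρ R)) :
    ∃ G : X × ℂ → E, DifferentiableOn ℂ G (full W R) ∧ EqOn G g (fig W W₀ ρ R) := by
  let m := Module.finrank ℂ E
  let L : E ≃L[ℂ] (Fin m → ℂ) := ContinuousLinearEquiv.ofFinrankEq (by simp [m])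
  have h1 : ∀ j : Fin m, ∃ G : X × ℂ → ℂ, DifferentiableOn ℂ G (full W R) ∧
      ∀ p : X × ℂ, p.1 ∈ W → ‖p.2‖ < R → (p.1 ∈ W₀ ∨ ρ < ‖p.2‖) → G p = L (g p) j := by
    intro j
    apply hartogs_ext hW hWc hW0 hne hsub hρ hρR (fun p => L (g p) j)
    have a1 : DifferentiableOn ℂ (fun p => L (g p)) (fig W W₀ ρ R) :=
      L.differentiable.comp_differentiableOn hg
    exact (differentiableOn_pi.1 a1) j
  choose G hG1 hG2 using h1
  refine ⟨fun p => L.symm (fun j => G j p), ?_, ?_⟩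
  · exact L.symm.differentiable.comp_differentiableOn (differentiableOn_pi.2 hG1)
  · intro p hp
    have : (fun j => G j p) = L (g p) := by
      ext j
      exact hG2 j p hp.1 hp.2.1 hp.2.2
    simp [this]

section

variable {V : Type} [NormedAddCommGroup V] [NormedSpace ℂ V]

lemma isOpen_diff_of_analytic {D A : Set V}
    (hA : IsAnalyticSubset 𝓘(ℂ, V) D A) : IsOpen (D \ A) := by
  rw [isOpen_iff_mem_nhds]
  rintro x ⟨hxD, hxA⟩
  obtain ⟨U, hU, hxU, hUD, m, g, hg, hAU⟩ := hA.2 x hxD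
  have hgx : g x ≠ 0 := by
    intro h
    have : x ∈ A ∩ U := by rw [hAU]; exact ⟨hxU, h⟩
    exact hxA this.1
  have hc : ContinuousAt g x := ((hg x hxU).mdifferentiableAt (hU.mem_nhds hxU)).continuousAt
  filter_upwards [hU.mem_nhds hxU, hc.eventually_ne hgx] with y hy1 hy2
  refine ⟨hUD hy1, fun hyA => hy2 ?_⟩
  have : y ∈ A ∩ U := ⟨hyA, hy1⟩
  rw [hAU] at this
  exact this.2

lemma not_mem_nhds_of_codim {A : Set V} (hA : CodimGeTwo A) {x : V} (hx : x ∈ A) :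
    A ∉ 𝓝 x := by
  intro h
  obtain ⟨P, hP, ε, hε, hiso⟩ := hA x hx
  obtain ⟨δ, hδ, hb⟩ := Metric.mem_nhds_iff.1 h
  have hne : P ≠ ⊥ := by
    rintro rfl
    simp at hP
  obtain ⟨v, hv, hv0⟩ := Submodule.exists_mem_ne_zero_of_ne_bot hne
  have hvn : 0 < ‖v‖ := norm_pos_iff.2 hv0
  set c : ℝ := min ε δ / (2 * ‖v‖) with hc
  have hcpos : 0 < c := by
    have := lt_min hε hδ
    positivity
  have hcv : ‖(c : ℂ) • v‖ = min ε δ / 2 := by
    rw [norm_smul, Complex.norm_real, Real.norm_of_nonneg hcpos.le, hc]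
    field_simp
  have hmin : 0 < min ε δ := lt_min hε hδ
  have h1 : x + (c : ℂ) • v ∈ A := by
    apply hb
    rw [mem_ball, dist_eq_norm, add_sub_cancel_left, hcv]
    linarith [min_le_right ε δ]
  have h2 := hiso (x + (c : ℂ) • v) h1 (by rw [add_sub_cancel_left]; exact P.smul_mem _ hv)
    (by rw [add_sub_cancel_left, hcv]; linarith [min_le_left ε δ])
  have h3 : (c : ℂ) • v = 0 := by simpa using h2
  rw [h3, norm_zero] at hcv
  linarith

/-- an analytic set of codimension at least two is locally contained in a proper hypersurface -/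
lemma thin_of_codim {D A : Set V} (hA : IsAnalyticSubset 𝓘(ℂ, V) D A) (hA2 : CodimGeTwo A) :
    ∀ x ∈ D, ∃ U : Set V, IsOpen U ∧ x ∈ U ∧ ∃ g : V → ℂ, DifferentiableOn ℂ g U ∧
      (∀ y ∈ A ∩ U, g y = 0) ∧ ¬ (∀ᶠ y in 𝓝 x, g y = 0) := by
  intro x hx
  obtain ⟨U, hU, hxU, hUD, m, g, hg, hAU⟩ := hA.2 x hx
  have hgd : DifferentiableOn ℂ g U := mdifferentiableOn_iff_differentiableOn.1 hg
  have hgj : ∀ j, DifferentiableOn ℂ (fun y => g y j) U := differentiableOn_pi.1 hgd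
  have hz : ∀ j, ∀ y ∈ A ∩ U, g y j = 0 := by
    intro j y hy
    rw [hAU] at hy
    rw [hy.2]; rfl
  by_contra hcon
  push Not at hcon
  have hall : ∀ j, ∀ᶠ y in 𝓝 x, g y j = 0 := fun j => hcon U hU hxU _ (hgj j) (hz j)
  have hall2 : ∀ᶠ y in 𝓝 x, ∀ j, g y j = 0 := eventually_all.2 hall
  have hmem : A ∈ 𝓝 x := by
    filter_upwards [hall2, hU.mem_nhds hxU] with y hy1 hy2
    have : y ∈ A ∩ U := by rw [hAU]; exact ⟨hy2, funext hy1⟩
    exact this.1
  exact not_mem_nhds_of_codim hA2 (mem_of_mem_nhds hmem) hmem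

end

section Good

variable {E : Type} [NormedAddCommGroup E] [NormedSpace ℂ E] [FiniteDimensional ℂ E]
  {M : Type} [TopologicalSpace M] [T2Space M] (d : CQuot E M)

/-- the hypothesis on `S` used to extend maps: it is stable under extension of holomorphic
functions -/
def ExtClosed (S : Set M) : Prop :=
  ∀ (V : Type) [NormedAddCommGroup V] [NormedSpace ℂ V] (D T : Set V), IsOpen D → Convex ℝ D →
    IsOpen T → T.Nonempty → T ⊆ D →
    (∀ g : V → ℂ, DifferentiableOn ℂ g T → ∃ G : V → ℂ, DifferentiableOn ℂ G D ∧ EqOn G g T) →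
    ∀ F : V → E, DifferentiableOn ℂ F D → (∀ z ∈ T, F z ∈ d.U ∧ d.Q (F z) ∈ S) →
      ∀ z ∈ D, F z ∈ d.U ∧ d.Q (F z) ∈ S

variable {d}

lemma ext_fig {S : Set M} (hS : ExtClosed d S) {X : Type} [NormedAddCommGroup X]
    [NormedSpace ℂ X] [FiniteDimensional ℂ X]
    {W W₀ : Set X} (hW : IsOpen W) (hWc : Convex ℝ W) (hW0 : IsOpen W₀) (hW0c : Convex ℝ W₀)
    (hne : W₀.Nonempty) (hsub : W₀ ⊆ W) {ρ R : ℝ} (hρ : 0 ≤ ρ) (hρR : ρ < R) {f : X × ℂ → M}
    (hf : letI := d.cs; MDifferentiableOn 𝓘(ℂ, X × ℂ) 𝓘(ℂ, E) f (fig W W₀ ρ R))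
    (hfS : ∀ p ∈ fig W W₀ ρ R, f p ∈ S) :
    ∃ F : X × ℂ → M, (letI := d.cs; MDifferentiableOn 𝓘(ℂ, X × ℂ) 𝓘(ℂ, E) F (full W R)) ∧
      (∀ p ∈ full W R, F p ∈ S) ∧ EqOn F f (fig W W₀ ρ R) := by
  let _ := d.cs
  obtain ⟨c, hc⟩ := hne
  have hR : 0 < R := lt_of_le_of_lt hρ hρR
  have hcon := contractible_fig (ρ := ρ) hWc hW0c hsub hc hR
  obtain ⟨F₀, hF₀, hF₀'⟩ := exists_lift d (isOpen_fig (ρ := ρ) (R := R) hW hW0) inferInstance hf
  obtain ⟨F, hF, hFF⟩ := hartogs_ext_vec hW hWc hW0 ⟨c, hc⟩ hsub hρ hρR F₀ hF₀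
  have hcT : (c, (0 : ℂ)) ∈ fig W W₀ ρ R := ⟨hsub hc, by simpa using hR, Or.inl hc⟩
  have key := hS (X × ℂ) (full W R) (fig W W₀ ρ R) (isOpen_full hW) (convex_full hWc)
    (isOpen_fig hW hW0) ⟨_, hcT⟩ fig_subset_full
    (fun g hg => by
      obtain ⟨G, hG, hG'⟩ := hartogs_ext hW hWc hW0 ⟨c, hc⟩ hsub hρ hρR g hg
      exact ⟨G, hG, fun p hp => hG' p hp.1 hp.2.1 hp.2.2⟩)
    F hF (fun z hz => by
      rw [hFF hz]
      refine ⟨(hF₀' z hz).1, ?_⟩
      rw [(hF₀' z hz).2]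
      exact hfS z hz)
  refine ⟨fun p => d.Q (F p), ?_, fun p hp => (key p hp).2, ?_⟩
  · intro p hp
    exact (d.mdifferentiableAt_Q ((hF p hp).differentiableAt ((isOpen_full hW).mem_nhds hp))
      (key p hp).1).mdifferentiableWithinAt
  · intro p hp
    simp only
    rw [hFF hp, (hF₀' p hp).2]

/-- coordinates adapted to a complex plane of dimension two -/
lemma exists_coord {V : Type} [NormedAddCommGroup V] [NormedSpace ℂ V] [FiniteDimensional ℂ V]
    (P : Submodule ℂ V) (hP : Module.finrank ℂ P = 2) :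
    ∃ (n : ℕ) (Φ : (((Fin n → ℂ) × ℂ) × ℂ) ≃L[ℂ] V), ∀ a b : ℂ, Φ ((0, a), b) ∈ P := by
  obtain ⟨P', hPP'⟩ := Submodule.exists_isCompl P
  let n := Module.finrank ℂ P'
  let e1 : (Fin n → ℂ) ≃ₗ[ℂ] P' := LinearEquiv.ofFinrankEq _ _ (by simp [n])
  let e2 : (ℂ × ℂ) ≃ₗ[ℂ] P := LinearEquiv.ofFinrankEq _ _ (by simp [hP])
  let e3 : ((Fin n → ℂ) × (ℂ × ℂ)) ≃ₗ[ℂ] (P' × P) := e1.prodCongr e2
  let e4 : (P' × P) ≃ₗ[ℂ] V := Submodule.prodEquivOfIsCompl P' P hPP'.symm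
  let e5 : (((Fin n → ℂ) × ℂ) × ℂ) ≃ₗ[ℂ] ((Fin n → ℂ) × (ℂ × ℂ)) :=
    { toFun := fun x => (x.1.1, (x.1.2, x.2))
      invFun := fun x => ((x.1, x.2.1), x.2.2)
      left_inv := fun _ => rfl
      right_inv := fun _ => rfl
      map_add' := fun _ _ => rfl
      map_smul' := fun _ _ => rfl }
  refine ⟨n, ((e5.trans e3).trans e4).toContinuousLinearEquiv, fun a b => ?_⟩
  have : ((e5.trans e3).trans e4) ((0, a), b) = ((e2 (a, b) : P) : V) := by
    simp [e4, e3, e5]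
  rw [LinearEquiv.coe_toContinuousLinearEquiv', this]
  exact Subtype.coe_prop _

lemma mdiff_comp_affine {V V' : Type} [NormedAddCommGroup V] [NormedSpace ℂ V]
    [NormedAddCommGroup V'] [NormedSpace ℂ V'] [ChartedSpace E M] {f : V → M} {A : V' → V} {z : V'}
    (hf : MDifferentiableAt 𝓘(ℂ, V) 𝓘(ℂ, E) f (A z)) (hA : DifferentiableAt ℂ A z) :
    MDifferentiableAt 𝓘(ℂ, V') 𝓘(ℂ, E) (fun x => f (A x)) z :=
  hf.comp z hA.mdifferentiableAt

/-- analytic subsets of codimension at least two are removable for maps to `S` -/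
lemma removable {S : Set M} (hS : ExtClosed d S) {V : Type} [NormedAddCommGroup V]
    [NormedSpace ℂ V] [FiniteDimensional ℂ V] {D A : Set V} (hD : IsOpen D)
    (hA : IsAnalyticSubset 𝓘(ℂ, V) D A) (hA2 : CodimGeTwo A) {f : V → M}
    (hf : letI := d.cs; MDifferentiableOn 𝓘(ℂ, V) 𝓘(ℂ, E) f (D \ A))
    (hfS : ∀ p ∈ D \ A, f p ∈ S) {p : V} (hp : p ∈ D) :
    ∃ (N : Set V) (F : V → M), IsOpen N ∧ p ∈ N ∧ N ⊆ D ∧
      (letI := d.cs; MDifferentiableOn 𝓘(ℂ, V) 𝓘(ℂ, E) F N) ∧ (∀ q ∈ N, F q ∈ S) ∧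
      ∀ q ∈ N, q ∉ A → F q = f q := by
  let _ := d.cs
  have hmf : IsManifold 𝓘(ℂ, E) ω M := d.isManifold
  have hmf1 : IsManifold 𝓘(ℂ, E) 1 M := IsManifold.of_le (n := ω) le_top
  have hDA : IsOpen (D \ A) := isOpen_diff_of_analytic hA
  by_cases hpA : p ∈ A
  swap
  · exact ⟨D \ A, f, hDA, ⟨hp, hpA⟩, sdiff_subset, hf, hfS, fun _ _ _ => rfl⟩
  obtain ⟨P, hP, ε, hε, hiso⟩ := hA2 p hpA
  obtain ⟨n, Φ, hΦ⟩ := exists_coord P hP
  let V' := ((Fin n → ℂ) × ℂ) × ℂ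
  set T : V' → V := fun x => p + Φ x with hT
  have hTc : Continuous T := continuous_const.add Φ.continuous
  have hTd : Differentiable ℂ T := by
    intro x
    exact (Φ.differentiableAt).const_add p
  have hT0 : T 0 = p := by simp [hT]
  -- choice of `δ`
  have hn0 : T ⁻¹' D ∩ {x | ‖Φ x‖ < ε} ∈ 𝓝 (0 : V') := by
    apply inter_mem
    · exact (hD.preimage hTc).mem_nhds (by simpa [hT] using hp)
    · have : IsOpen {x : V' | ‖Φ x‖ < ε} :=
        isOpen_lt (continuous_norm.comp Φ.continuous) continuous_const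
      exact this.mem_nhds (by simpa using hε)
  obtain ⟨δ, hδ, hb⟩ := Metric.nhds_basis_closedBall.mem_iff.1 hn0
  -- the compact set
  set K : Set (ℂ × ℂ) := {x | ‖x‖ ≤ δ ∧ δ / 2 ≤ ‖x‖} with hK
  have hKc : IsCompact K := by
    have h1 : K = closedBall 0 δ ∩ {x | δ / 2 ≤ ‖x‖} := by
      ext x; simp [hK]
    rw [h1]
    exact (isCompact_closedBall _ _).inter_right (isClosed_le continuous_const continuous_norm)
  set O : Set ((Fin n → ℂ) × (ℂ × ℂ)) := {x | T ((x.1, x.2.1), x.2.2) ∈ D \ A} with hO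
  have hOo : IsOpen O := hDA.preimage (hTc.comp (by fun_prop))
  have hKO : ({0} : Set (Fin n → ℂ)) ×ˢ K ⊆ O := by
    rintro ⟨c, x⟩ ⟨hc, hx⟩
    simp only [mem_singleton_iff] at hc
    subst hc
    have hxb : ((((0 : Fin n → ℂ), x.1), x.2) : V') ∈ closedBall (0 : V') δ := by
      rw [mem_closedBall_zero_iff]
      simp only [Prod.norm_def, norm_zero]
      have := hx.1
      rw [Prod.norm_def] at this
      have h1 := (max_le_iff.1 this).1
      have h2 := (max_le_iff.1 this).2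
      have h3 : 0 ≤ ‖x.1‖ := norm_nonneg _
      simp [h1, h2]
    have h1 := hb hxb
    refine ⟨h1.1, fun hmem => ?_⟩
    have h2 : T (((0 : Fin n → ℂ), x.1), x.2) = p := by
      apply hiso _ hmem
      · simp only [hT, add_sub_cancel_left]
        exact hΦ _ _
      · simp only [hT, add_sub_cancel_left]
        exact h1.2
    have h3 : Φ (((0 : Fin n → ℂ), x.1), x.2) = 0 := by
      simpa [hT] using h2
    have h4 : ((((0 : Fin n → ℂ), x.1), x.2) : V') = 0 := by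
      apply Φ.injective
      rw [h3, map_zero]
    have h5 : x = 0 := by
      have := congrArg (fun y : V' => (y.1.2, y.2)) h4
      exact this
    have h6 := hx.2
    rw [h5, norm_zero] at h6
    linarith
  obtain ⟨u, v, hu, hv, h0u, hKv, huv⟩ := generalized_tube_lemma isCompact_singleton hKc hOo hKO
  obtain ⟨η₀, hη₀, hη₀u⟩ := Metric.mem_nhds_iff.1 (hu.mem_nhds (h0u rfl))
  set η := min η₀ δ with hη
  have hηp : 0 < η := lt_min hη₀ hδ
  -- the figure
  set W : Set ((Fin n → ℂ) × ℂ) := ball 0 η ×ˢ ball 0 δ with hW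
  set W₀ : Set ((Fin n → ℂ) × ℂ) := ball 0 η ×ˢ ball ((3 * δ / 4 : ℝ) : ℂ) (δ / 4) with hW₀
  have hWo : IsOpen W := isOpen_ball.prod isOpen_ball
  have hW₀o : IsOpen W₀ := isOpen_ball.prod isOpen_ball
  have hWc : Convex ℝ W := (convex_ball _ _).prod (convex_ball _ _)
  have hW₀c : Convex ℝ W₀ := (convex_ball _ _).prod (convex_ball _ _)
  have h34 : ‖((3 * δ / 4 : ℝ) : ℂ)‖ = 3 * δ / 4 := by
    rw [Complex.norm_real, Real.norm_of_nonneg (by positivity)]
  have hball : ∀ a ∈ ball ((3 * δ / 4 : ℝ) : ℂ) (δ / 4), ‖a‖ < δ ∧ δ / 2 < ‖a‖ := by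
    intro a ha
    rw [mem_ball, dist_eq_norm] at ha
    have h1 := norm_sub_norm_le a ((3 * δ / 4 : ℝ) : ℂ)
    have h2 := norm_sub_norm_le ((3 * δ / 4 : ℝ) : ℂ) a
    rw [norm_sub_rev] at h2
    rw [h34] at h1 h2
    constructor <;> linarith
  have hsub : W₀ ⊆ W := by
    rintro ⟨c, a⟩ ⟨hc, ha⟩
    refine ⟨hc, ?_⟩
    rw [mem_ball_zero_iff]
    exact (hball a ha).1
  have hne : W₀.Nonempty := ⟨(0, ((3 * δ / 4 : ℝ) : ℂ)), by simp [hηp], by simp [hδ]⟩
  have hfigDA : ∀ x ∈ fig W W₀ (δ / 2) δ, T x ∈ D \ A := by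
    rintro ⟨⟨c, a⟩, b⟩ ⟨⟨hc, ha⟩, hb1, hb2⟩
    have hcu : c ∈ u := hη₀u (ball_subset_ball (min_le_left _ _) hc)
    simp only [mem_ball_zero_iff] at ha hb1 hb2
    have habK : (a, b) ∈ K := by
      refine ⟨?_, ?_⟩
      · rw [Prod.norm_def]; exact max_le ha.le hb1.le
      · rw [Prod.norm_def]
        rcases hb2 with h | h
        · exact le_max_of_le_left (hball a h.2).2.le
        · exact le_max_of_le_right h.le
    exact huv (show (c, (a, b)) ∈ u ×ˢ v from ⟨hcu, hKv habK⟩)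
  have hfullD : ∀ x ∈ full W δ, T x ∈ D := by
    rintro ⟨⟨c, a⟩, b⟩ ⟨⟨hc, ha⟩, hb1⟩
    have hc' : ‖c‖ < η := mem_ball_zero_iff.1 hc
    have ha' : ‖a‖ < δ := mem_ball_zero_iff.1 ha
    have hb' : ‖b‖ < δ := hb1
    refine (hb (?_ : ((c, a), b) ∈ closedBall (0 : V') δ)).1
    rw [mem_closedBall_zero_iff]
    simp only [Prod.norm_def]
    exact max_le (max_le (hc'.trans_le (min_le_right _ _)).le ha'.le) hb'.le
  -- extend
  obtain ⟨F, hF, hFS, hFf⟩ := ext_fig hS hWo hWc hW₀o hW₀c hne hsub (ρ := δ / 2) (R := δ)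
    (by positivity) (by linarith) (f := fun x => f (T x))
    (fun x hx => (mdiff_comp_affine ((hf _ (hfigDA x hx)).mdifferentiableAt
      (hDA.mem_nhds (hfigDA x hx))) (hTd x)).mdifferentiableWithinAt)
    (fun x hx => hfS _ (hfigDA x hx))
  -- identity off `A`
  set A' : Set V' := T ⁻¹' A with hA'
  have hTopen : IsOpenMap T := by
    have : T = (fun y => p + y) ∘ Φ := rfl
    rw [this]
    exact (Homeomorph.addLeft p).isOpenMap.comp Φ.toHomeomorph.isOpenMap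
  have hthin : ∀ x ∈ full W δ, ∃ U : Set V', IsOpen U ∧ x ∈ U ∧ ∃ g : V' → ℂ,
      DifferentiableOn ℂ g U ∧ (∀ y ∈ A' ∩ U, g y = 0) ∧ ¬ (∀ᶠ y in 𝓝 x, g y = 0) := by
    intro x hx
    obtain ⟨U, hU, hxU, g, hg, hgA, hgne⟩ := thin_of_codim hA hA2 (T x) (hfullD x hx)
    refine ⟨T ⁻¹' U, hU.preimage hTc, hxU, fun y => g (T y), ?_, ?_, ?_⟩
    · intro y hy
      exact (hg _ hy).comp y (hTd y).differentiableWithinAt (fun s hs => hs)
    · rintro y ⟨hy1, hy2⟩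
      exact hgA _ ⟨hy1, hy2⟩
    · intro h
      apply hgne
      have h1 : T '' {y | g (T y) = 0} ∈ 𝓝 (T x) := hTopen.image_mem_nhds h
      filter_upwards [h1]
      rintro _ ⟨y, hy, rfl⟩
      exact hy
  have hfo : IsOpen (full W δ) := isOpen_full hWo
  have h0full : (0 : V') ∈ full W δ := ⟨⟨by simp [hηp], by simp [hδ]⟩, by simpa using hδ⟩
  have hfullconn : IsConnected (full W δ) := ⟨⟨_, h0full⟩, (convex_full hWc).isPreconnected⟩
  have hdiffeq : full W δ \ A' = full W δ ∩ T ⁻¹' (D \ A) := by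
    ext x
    constructor
    · rintro ⟨h1, h2⟩; exact ⟨h1, hfullD x h1, h2⟩
    · rintro ⟨h1, h2⟩; exact ⟨h1, h2.2⟩
  have hfo' : IsOpen (full W δ \ A') := by
    rw [hdiffeq]
    exact hfo.inter (hDA.preimage hTc)
  obtain ⟨hconn, -⟩ := isConnected_diff_thin hfo hfullconn hthin hfo'
  obtain ⟨w₀, hw₀⟩ := hne
  have hz₁ : (w₀, (0 : ℂ)) ∈ fig W W₀ (δ / 2) δ := ⟨hsub hw₀, by simpa using hδ, Or.inl hw₀⟩
  have hFeq : EqOn F (fun x => f (T x)) (full W δ \ A') := by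
    apply eqOn_of_preconnected hfo' hconn.isPreconnected (hF.mono sdiff_subset) _
      (z₁ := (w₀, (0 : ℂ))) ⟨fig_subset_full hz₁, (hfigDA _ hz₁).2⟩
    · filter_upwards [(isOpen_fig hWo hW₀o).mem_nhds hz₁] with y hy using hFf hy
    · intro x hx
      rw [hdiffeq] at hx
      exact (mdiff_comp_affine ((hf _ hx.2).mdifferentiableAt (hDA.mem_nhds hx.2))
        (hTd x)).mdifferentiableWithinAt
  -- transport back
  set T' : V → V' := fun y => Φ.symm (y - p) with hT'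
  have hT'd : Differentiable ℂ T' := by
    intro y
    exact (Φ.symm.differentiableAt).comp y (by fun_prop)
  have hTT' : ∀ y, T (T' y) = y := by intro y; simp [hT, hT']
  refine ⟨T' ⁻¹' (full W δ), fun y => F (T' y), hfo.preimage hT'd.continuous, ?_, ?_, ?_, ?_, ?_⟩
  · show T' p ∈ full W δ
    have : T' p = 0 := by simp [hT']
    rw [this]; exact h0full
  · intro y hy
    have := hfullD _ hy
    rwa [hTT'] at this
  · intro y hy
    exact (mdiff_comp_affine ((hF _ hy).mdifferentiableAt (hfo.mem_nhds hy))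
        (hT'd y)).mdifferentiableWithinAt
  · intro y hy
    exact hFS _ hy
  · intro y hy hyA
    have h1 : T' y ∈ full W δ \ A' := ⟨hy, by rw [hA', mem_preimage, hTT']; exact hyA⟩
    have h2 := hFeq h1
    simp only [hTT'] at h2
    exact h2

/-- removing the indeterminacy set -/
lemma removable_global {S : Set M} (hS : ExtClosed d S) {V : Type} [NormedAddCommGroup V]
    [NormedSpace ℂ V] [FiniteDimensional ℂ V] {D A : Set V} (hD : IsOpen D)
    (hA : IsAnalyticSubset 𝓘(ℂ, V) D A) (hA2 : CodimGeTwo A) {f : V → M}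
    (hf : letI := d.cs; MDifferentiableOn 𝓘(ℂ, V) 𝓘(ℂ, E) f (D \ A))
    (hfS : ∀ p ∈ D \ A, f p ∈ S) :
    ∃ F : V → M, (letI := d.cs; MDifferentiableOn 𝓘(ℂ, V) 𝓘(ℂ, E) F D) ∧ (∀ q ∈ D, F q ∈ S) ∧
      ∀ q ∈ D, q ∉ A → F q = f q := by
  let _ := d.cs
  classical
  have hMne : Nonempty M := ⟨d.q (Classical.arbitrary d.U)⟩
  choose! N F hN hpN hND hF hFS hFf using
    fun p (hp : p ∈ D) => removable hS hD hA hA2 hf hfS hp
  have key : ∀ p ∈ D, ∀ q ∈ N p, F q q = F p q := by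
    intro p hp q hq
    have hqD := hND p hp hq
    by_contra hne
    obtain ⟨u, v, hu, hv, hxu, hxv, huv⟩ := t2_separation hne
    have c1 : ContinuousAt (F q) q :=
      ((hF q hqD q (hpN q hqD)).mdifferentiableAt ((hN q hqD).mem_nhds (hpN q hqD))).continuousAt
    have c2 : ContinuousAt (F p) q :=
      ((hF p hp q hq).mdifferentiableAt ((hN p hp).mem_nhds hq)).continuousAt
    have n1 : ∀ᶠ z in 𝓝 q, F q z ∈ u := c1.preimage_mem_nhds (hu.mem_nhds hxu)
    have n2 : ∀ᶠ z in 𝓝 q, F p z ∈ v := c2.preimage_mem_nhds (hv.mem_nhds hxv)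
    have n3 : ∀ᶠ z in 𝓝 q, z ∈ N q := (hN q hqD).mem_nhds (hpN q hqD)
    have n4 : ∀ᶠ z in 𝓝 q, z ∈ N p := (hN p hp).mem_nhds hq
    have n5 : ∃ z, z ∉ A ∧ F q z ∈ u ∧ F p z ∈ v ∧ z ∈ N q ∧ z ∈ N p := by
      by_contra hcon
      push Not at hcon
      have hmem : A ∈ 𝓝 q := by
        filter_upwards [n1, n2, n3, n4] with z z1 z2 z3 z4
        by_contra hzA
        exact hcon z hzA z1 z2 z3 z4
      exact not_mem_nhds_of_codim hA2 (mem_of_mem_nhds hmem) hmem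
    obtain ⟨z, z0, z1, z2, z3, z4⟩ := n5
    have e1 := hFf q hqD z z3 z0
    have e2 := hFf p hp z z4 z0
    exact Set.disjoint_left.1 huv z1 (by rw [e1, ← e2]; exact z2)
  refine ⟨fun q => F q q, ?_, fun q hq => hFS q hq q (hpN q hq), fun q hq hqA =>
    hFf q hq q (hpN q hq) hqA⟩
  intro p hp
  apply MDifferentiableAt.mdifferentiableWithinAt
  have h1 : MDifferentiableAt 𝓘(ℂ, V) 𝓘(ℂ, E) (F p) p :=
    (hF p hp p (hpN p hp)).mdifferentiableAt ((hN p hp).mem_nhds (hpN p hp))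
  apply h1.congr_of_eventuallyEq
  filter_upwards [(hN p hp).mem_nhds (hpN p hp)] with q hq using key p hp q hq

/-- the meromorphic extension property -/
theorem hasMeromorphicExtension {S : Set M} (hS : ExtClosed d S) :
    letI := d.cs
    HasMeromorphicExtension E S := by
  let _ := d.cs
  have hmf : IsManifold 𝓘(ℂ, E) ω M := d.isManifold
  have hmf1 : IsManifold 𝓘(ℂ, E) 1 M := IsManifold.of_le (n := ω) le_top
  intro n r hr0 hr1 A f hf
  set W : Set (Fin n → ℂ) := {x | ‖x‖ < 1} with hW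
  set W₀ : Set (Fin n → ℂ) := {x | ‖x‖ < r} with hW₀
  have hWb : W = ball 0 1 := by ext x; simp [hW]
  have hW₀b : W₀ = ball 0 r := by ext x; simp [hW₀]
  have hWo : IsOpen W := hWb ▸ isOpen_ball
  have hW₀o : IsOpen W₀ := hW₀b ▸ isOpen_ball
  have hWc : Convex ℝ W := hWb ▸ convex_ball _ _
  have hW₀c : Convex ℝ W₀ := hW₀b ▸ convex_ball _ _
  have hsub : W₀ ⊆ W := fun x hx => lt_trans hx hr1
  have hne : W₀.Nonempty := ⟨0, by simp [hW₀, hr0]⟩
  have hfig : hartogs n r = fig W W₀ (1 - r) 1 := rfl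
  have hfull : polydisc n = full W 1 := rfl
  have hHo : IsOpen (hartogs n r) := hfig ▸ isOpen_fig hWo hW₀o
  have hPo : IsOpen (polydisc n) := hfull ▸ isOpen_full hWo
  obtain ⟨f₁, hf₁, hf₁S, hf₁f⟩ := removable_global hS hHo hf.analytic hf.codim hf.holo hf.mapsTo
  obtain ⟨F, hF, hFS, hFf⟩ := ext_fig hS hWo hWc hW₀o hW₀c hne hsub (ρ := 1 - r) (R := 1)
    (by linarith) (by linarith) (hfig ▸ hf₁) (hfig ▸ hf₁S)
  refine ⟨∅, F, ⟨?_, ?_, ?_, ?_, ?_⟩, ?_⟩
  · refine ⟨empty_subset _, fun x hx => ⟨polydisc n, hPo, hx, Subset.rfl, 1, fun _ _ => 1,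
      mdifferentiableOn_const, ?_⟩⟩
    ext y
    simp only [empty_inter, mem_empty_iff_false, false_iff, mem_ofPred_eq, not_and]
    intro _ h
    have := congrFun h 0
    simp at this
  · intro p hp
    exact absurd hp (notMem_empty p)
  · rw [sdiff_empty, hfull]
    exact hF
  · rw [sdiff_empty, hfull]
    exact hFS
  · rw [sdiff_empty]
    exact graph_analytic hPo (hfull ▸ hF)
  · intro p hp hpA _
    rw [hFf (hfig ▸ hp), hf₁f p hp hpA]

end Good

end Pool.Agent.Helper417.Mer
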