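import Mathlib
import Pool.Agent.Helper417.Mer.Good

set_option autoImplicit false
set_option linter.unusedSectionVars false
open scoped Manifold ContDiff Topology
open Set Metric Filter

namespace Pool.Agent.Helper417.Mer

/-- `ℂ²` as `ℂ¹ × ℂ` -/
abbrev V2 : Type := (Fin 1 → ℂ) × ℂ

/-- in dimension two, sets of codimension at least two consist of isolated points -/
lemma isolated {A : Set V2} (hA : CodimGeTwo A) {p : V2} (hp : p ∈ A) :
    ∃ ε > 0, ∀ q ∈ A, ‖q - p‖ < ε → q = p := by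
  obtain ⟨P, hP, ε, hε, h⟩ := hA p hp
  have htop : P = ⊤ := by
    apply Submodule.eq_top_of_finrank_eq
    rw [hP]
    simp
  refine ⟨ε, hε, fun q hq hqp => h q hq ?_ hqp⟩
  rw [htop]
  exact Submodule.mem_top

/-- discreteness in a neighbourhood of every point of the domain -/
lemma discrete {D A : Set V2} (hA : IsAnalyticSubset 𝓘(ℂ, V2) D A) (hA2 : CodimGeTwo A)
    {x : V2} (hx : x ∈ D) : ∃ U : Set V2, IsOpen U ∧ x ∈ U ∧ U ⊆ D ∧ A ∩ U ⊆ {x} := by
  by_cases hxA : x ∈ A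
  · obtain ⟨ε, hε, h⟩ := isolated hA2 hxA
    obtain ⟨U, hU, hxU, hUD, -⟩ := hA.2 x hx
    refine ⟨U ∩ ball x ε, hU.inter isOpen_ball, ⟨hxU, mem_ball_self hε⟩,
      inter_subset_left.trans hUD, ?_⟩
    rintro y ⟨hyA, -, hy⟩
    exact h y hyA (by rwa [mem_ball, dist_eq_norm] at hy)
  · refine ⟨D \ A, isOpen_diff_of_analytic hA, ⟨hx, hxA⟩, sdiff_subset, ?_⟩
    rintro y ⟨h1, h2⟩
    exact absurd h1 h2.2

variable {E M : Type} [NormedAddCommGroup E] [NormedSpace ℂ E]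
  [TopologicalSpace M] [ChartedSpace E M]

/-- the graph is closed over the domain of holomorphy -/
lemma graph_closed {V : Type} [NormedAddCommGroup V] [NormedSpace ℂ V] [T2Space M] {D : Set V}
    (hD : IsOpen D) {f : V → M} (hf : MDifferentiableOn 𝓘(ℂ, V) 𝓘(ℂ, E) f D) {z : V} (hz : z ∈ D)
    {x : M} (hx : (z, x) ∈ closure {p : V × M | p.1 ∈ D ∧ f p.1 = p.2}) : f z = x := by
  have hc : ContinuousAt f z := ((hf z hz).mdifferentiableAt (hD.mem_nhds hz)).continuousAt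
  by_contra hne
  obtain ⟨u, v, hu, hv, hxu, hxv, huv⟩ := t2_separation hne
  have n1 : ∀ᶠ z' in 𝓝 z, f z' ∈ u := hc.preimage_mem_nhds (hu.mem_nhds hxu)
  have n2 : {p : V × M | f p.1 ∈ u ∧ p.2 ∈ v} ∈ 𝓝 (z, x) := by
    have a1 : ∀ᶠ p : V × M in 𝓝 (z, x), f p.1 ∈ u := (continuous_fst.tendsto (z, x)).eventually n1
    have a2 : ∀ᶠ p : V × M in 𝓝 (z, x), p.2 ∈ v := continuousAt_snd.eventually (hv.mem_nhds hxv)
    exact a1.and a2
  obtain ⟨p, hp1, hp2⟩ := mem_closure_iff_nhds.1 hx _ n2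
  exact Set.disjoint_left.1 huv hp1.1 (hp2.2 ▸ hp1.2)

lemma isOpen_polydisc (n : ℕ) : IsOpen (polydisc n) := by
  have h1 : IsOpen {p : (Fin n → ℂ) × ℂ | ‖p.1‖ < 1} := isOpen_lt (by fun_prop) continuous_const
  have h2 : IsOpen {p : (Fin n → ℂ) × ℂ | ‖p.2‖ < 1} := isOpen_lt (by fun_prop) continuous_const
  exact h1.inter h2

lemma isOpen_hartogs (n : ℕ) (r : ℝ) : IsOpen (hartogs n r) := by
  have h1 : IsOpen {p : (Fin n → ℂ) × ℂ | ‖p.1‖ < 1} := isOpen_lt (by fun_prop) continuous_const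
  have h2 : IsOpen {p : (Fin n → ℂ) × ℂ | ‖p.2‖ < 1} := isOpen_lt (by fun_prop) continuous_const
  have h3 : IsOpen {p : (Fin n → ℂ) × ℂ | ‖p.1‖ < r} := isOpen_lt (by fun_prop) continuous_const
  have h4 : IsOpen {p : (Fin n → ℂ) × ℂ | 1 - r < ‖p.2‖} :=
    isOpen_lt continuous_const (by fun_prop)
  exact h1.inter (h2.inter (h3.union h4))

lemma convex_polydisc (n : ℕ) : Convex ℝ (polydisc n) := by
  have : polydisc n = ball (0 : Fin n → ℂ) 1 ×ˢ ball (0 : ℂ) 1 := by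
    ext p; simp [polydisc]
  rw [this]
  exact (convex_ball _ _).prod (convex_ball _ _)

lemma hartogs_subset (n : ℕ) (r : ℝ) : hartogs n r ⊆ polydisc n := fun _ hp => ⟨hp.1, hp.2.1⟩

/-- the complement in a convex open set of a set which is locally at most a point -/
lemma connected_compl {D A : Set V2} (hD : IsOpen D) (hDc : Convex ℝ D) (hDne : D.Nonempty)
    (hA : ∀ x ∈ D, ∃ U : Set V2, IsOpen U ∧ x ∈ U ∧ A ∩ U ⊆ {x}) :
    IsOpen (D \ A) ∧ IsConnected (D \ A) ∧ D ⊆ closure (D \ A) := by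
  have ho : IsOpen (D \ A) := by
    rw [isOpen_iff_mem_nhds]
    rintro x ⟨hxD, hxA⟩
    obtain ⟨U, hU, hxU, h⟩ := hA x hxD
    filter_upwards [hD.mem_nhds hxD, hU.mem_nhds hxU] with y h1 h2
    refine ⟨h1, fun h3 => hxA ?_⟩
    have : y = x := h ⟨h3, h2⟩
    rwa [this] at h3
  have h1 := isConnected_diff_thin (A := A) hD ⟨hDne, hDc.isPreconnected⟩ (fun x hx => by
    obtain ⟨U, hU, hxU, h⟩ := hA x hx
    refine ⟨U, hU, hxU, fun p => p.2 - x.2, by fun_prop, ?_, ?_⟩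
    · intro y hy
      have : y = x := h hy
      simp [this]
    · intro hev
      have hcont : Tendsto (fun τ : ℂ => ((x.1, x.2 + τ) : V2)) (𝓝[≠] 0) (𝓝 x) := by
        have : Continuous (fun τ : ℂ => ((x.1, x.2 + τ) : V2)) := by fun_prop
        have h2 := this.tendsto 0
        simp only [add_zero] at h2
        exact h2.mono_left nhdsWithin_le_nhds
      have h3 := hcont.eventually hev
      simp only [add_sub_cancel_left] at h3
      have h4 : ∀ᶠ τ : ℂ in 𝓝[≠] 0, τ ≠ 0 := eventually_mem_nhdsWithin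
      obtain ⟨τ, hτ1, hτ2⟩ := (h3.and h4).exists
      exact hτ2 hτ1) ho
  exact ⟨ho, h1.1, h1.2⟩

end Pool.Agent.Helper417.Mer
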