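import Mathlib

set_option autoImplicit false
open Set Metric

/-! The group `Γ = ℤ ⋉ ℤ[i]²` and its lattice in `ℂ²`. -/

namespace Pool.Agent.Helper417.Mer

/-- golden ratio -/
noncomputable def gr : ℝ := Real.goldenRatio

/-- `λ = φ²` -/
noncomputable def lam : ℝ := gr ^ 2

/-- `μ = φ⁻²` -/
noncomputable def mu : ℝ := gr⁻¹ ^ 2

lemma gr_gt : 1 < gr := Real.one_lt_goldenRatio
lemma gr_pos : 0 < gr := lt_trans one_pos gr_gt
lemma gr_lt : gr < 2 := Real.goldenRatio_lt_two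
lemma gr_sq : gr ^ 2 = gr + 1 := Real.goldenRatio_sq
lemma gr_inv : gr⁻¹ = gr - 1 := by
  have h := gr_sq
  have := gr_pos
  field_simp
  nlinarith
lemma lam_eq : lam = gr + 1 := gr_sq
lemma mu_eq : mu = 2 - gr := by
  rw [mu, gr_inv]
  have h := gr_sq
  ring_nf
  rw [h]; ring
lemma lam_add_mu : lam + mu = 3 := by rw [lam_eq, mu_eq]; ring
lemma lam_mul_mu : lam * mu = 1 := by
  rw [lam, mu, ← mul_pow, mul_inv_cancel₀ gr_pos.ne', one_pow]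
lemma lam_gt : 1 < lam := by rw [lam_eq]; linarith [gr_pos]
lemma lam_lt : lam < 3 := by rw [lam_eq]; linarith [gr_lt]
lemma mu_pos : 0 < mu := by rw [mu_eq]; linarith [gr_lt]
lemma mu_lt : mu < 1 := by rw [mu_eq]; linarith [gr_gt]
lemma lam_pos : 0 < lam := lt_trans one_pos lam_gt
lemma lamC_ne : (lam : ℂ) ≠ 0 := by exact_mod_cast lam_pos.ne'
lemma muC_ne : (mu : ℂ) ≠ 0 := by exact_mod_cast mu_pos.ne'
lemma grC_ne : (gr : ℂ) ≠ 0 := by exact_mod_cast gr_pos.ne'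
lemma lamC_add : (lam : ℂ) + mu = 3 := by exact_mod_cast congrArg (fun x : ℝ => (x : ℂ)) lam_add_mu
lemma lamC_mul : (lam : ℂ) * mu = 1 := by exact_mod_cast congrArg (fun x : ℝ => (x : ℂ)) lam_mul_mu
lemma lam_eq_zpow (k : ℤ) : (lam : ℂ) ^ k = (gr : ℂ) ^ (2 * k) := by
  rw [lam, Complex.ofReal_pow, zpow_mul]; norm_cast
lemma mu_eq_zpow (k : ℤ) : (mu : ℂ) ^ k = (gr : ℂ) ^ (-(2 * k)) := by
  rw [mu, Complex.ofReal_pow, Complex.ofReal_inv, inv_pow, inv_zpow, zpow_neg, zpow_mul]; norm_cast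

/-- Gaussian integers inside `ℂ` -/
def IsG (z : ℂ) : Prop := ∃ a b : ℤ, z = a + b * Complex.I

lemma IsG.zero : IsG 0 := ⟨0, 0, by simp⟩
lemma IsG.add {z w : ℂ} (hz : IsG z) (hw : IsG w) : IsG (z + w) := by
  obtain ⟨a, b, rfl⟩ := hz
  obtain ⟨c, d, rfl⟩ := hw
  exact ⟨a + c, b + d, by push_cast; ring⟩
lemma IsG.neg {z : ℂ} (hz : IsG z) : IsG (-z) := by
  obtain ⟨a, b, rfl⟩ := hz
  exact ⟨-a, -b, by push_cast; ring⟩
lemma IsG.sub {z w : ℂ} (hz : IsG z) (hw : IsG w) : IsG (z - w) := by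
  rw [sub_eq_add_neg]; exact hz.add hw.neg
lemma IsG.mul3 {z : ℂ} (hz : IsG z) : IsG (3 * z) := by
  obtain ⟨a, b, rfl⟩ := hz
  exact ⟨3 * a, 3 * b, by push_cast; ring⟩

/-- every complex number is at distance at most one from a Gaussian integer -/
lemma exists_near (z : ℂ) : ∃ v, IsG v ∧ ‖v - z‖ ≤ 1 := by
  refine ⟨(round z.re : ℤ) + (round z.im : ℤ) * Complex.I, ⟨_, _, rfl⟩, ?_⟩
  have h1 := abs_sub_round z.re
  have h2 := abs_sub_round z.im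
  refine (Complex.norm_le_abs_re_add_abs_im _).trans ?_
  have e1 : (((round z.re : ℤ) : ℂ) + (round z.im : ℤ) * Complex.I - z).re = round z.re - z.re := by
    simp
  have e2 : (((round z.re : ℤ) : ℂ) + (round z.im : ℤ) * Complex.I - z).im = round z.im - z.im := by
    simp
  rw [e1, e2, abs_sub_comm, abs_sub_comm (round z.im : ℝ)]
  linarith

/-- the lattice `{(v₂ - μ v₁, v₂ - λ v₁) : v₁, v₂ ∈ ℤ[i]}` in `ℂ²` -/
def Lat : Set (ℂ × ℂ) := {p | ∃ v₁ v₂ : ℂ, IsG v₁ ∧ IsG v₂ ∧ p.1 = v₂ - mu * v₁ ∧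
  p.2 = v₂ - lam * v₁}

lemma Lat.zero : ((0, 0) : ℂ × ℂ) ∈ Lat := ⟨0, 0, IsG.zero, IsG.zero, by simp, by simp⟩

lemma Lat.add {p q : ℂ × ℂ} (hp : p ∈ Lat) (hq : q ∈ Lat) : (p.1 + q.1, p.2 + q.2) ∈ Lat := by
  obtain ⟨v₁, v₂, h1, h2, h3, h4⟩ := hp
  obtain ⟨w₁, w₂, k1, k2, k3, k4⟩ := hq
  refine ⟨v₁ + w₁, v₂ + w₂, h1.add k1, h2.add k2, ?_, ?_⟩
  · simp only [h3, k3]; ring
  · simp only [h4, k4]; ring

lemma Lat.neg {p : ℂ × ℂ} (hp : p ∈ Lat) : (-p.1, -p.2) ∈ Lat := by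
  obtain ⟨v₁, v₂, h1, h2, h3, h4⟩ := hp
  refine ⟨-v₁, -v₂, h1.neg, h2.neg, ?_, ?_⟩
  · simp only [h3]; ring
  · simp only [h4]; ring

lemma Lat.scale {a b : ℂ} (hp : (a, b) ∈ Lat) : (lam * a, mu * b) ∈ Lat := by
  obtain ⟨v₁, v₂, h1, h2, h3, h4⟩ := hp
  refine ⟨v₂, 3 * v₂ - v₁, h2, h2.mul3.sub h1, ?_, ?_⟩
  · simp only at h3 ⊢
    rw [h3]
    linear_combination (-v₁) * lamC_mul + v₂ * lamC_add
  · simp only at h4 ⊢
    rw [h4]
    linear_combination (-v₁) * lamC_mul + v₂ * lamC_add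

lemma Lat.scale_inv {a b : ℂ} (hp : (a, b) ∈ Lat) :
    ((lam : ℂ)⁻¹ * a, (mu : ℂ)⁻¹ * b) ∈ Lat := by
  have e1 : (lam : ℂ)⁻¹ = mu := inv_eq_of_mul_eq_one_right lamC_mul
  have e2 : (mu : ℂ)⁻¹ = lam := by rw [← e1, inv_inv]
  rw [e1, e2]
  obtain ⟨v₁, v₂, h1, h2, h3, h4⟩ := hp
  refine ⟨3 * v₁ - v₂, v₁, h1.mul3.sub h2, h1, ?_, ?_⟩
  · simp only at h3 ⊢
    rw [h3]
    have : (mu : ℂ) * mu = 3 * mu - 1 := by
      linear_combination (mu : ℂ) * lamC_add - lamC_mul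
    linear_combination (-v₁) * this
  · simp only at h4 ⊢
    rw [h4]
    have : (lam : ℂ) * lam = 3 * lam - 1 := by
      linear_combination (lam : ℂ) * lamC_add - lamC_mul
    linear_combination (-v₁) * this

lemma Lat.zpow {a b : ℂ} (hp : (a, b) ∈ Lat) (k : ℤ) :
    ((lam : ℂ) ^ k * a, (mu : ℂ) ^ k * b) ∈ Lat := by
  induction k with
  | zero => simpa using hp
  | succ n ih =>
    have := Lat.scale ih
    rw [zpow_add_one₀ lamC_ne, zpow_add_one₀ muC_ne]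
    convert this using 2 <;> ring
  | pred n ih =>
    have := Lat.scale_inv ih
    rw [zpow_sub_one₀ lamC_ne, zpow_sub_one₀ muC_ne]
    convert this using 2 <;> ring

/-- the covering radius of the lattice is at most `4` -/
lemma Lat.exists_near (z w : ℂ) : ∃ a b : ℂ, (a, b) ∈ Lat ∧ ‖z + a‖ ≤ 4 ∧ ‖w + b‖ ≤ 4 := by
  have hd : (lam : ℂ) - mu ≠ 0 := by
    have : lam - mu ≠ 0 := by linarith [lam_gt, mu_lt]
    exact_mod_cast this
  set v₁' : ℂ := (w - z) / (lam - mu) with hv₁'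
  set v₂' : ℂ := mu * v₁' - z with hv₂'
  obtain ⟨v₁, hv₁, hn1⟩ := Mer.exists_near v₁'
  obtain ⟨v₂, hv₂, hn2⟩ := Mer.exists_near v₂'
  have hw : w = lam * v₁' - v₂' := by
    rw [hv₂', hv₁']; field_simp; ring
  have hz : z = mu * v₁' - v₂' := by rw [hv₂']; ring
  refine ⟨v₂ - mu * v₁, v₂ - lam * v₁, ⟨v₁, v₂, hv₁, hv₂, rfl, rfl⟩, ?_, ?_⟩
  · have : z + (v₂ - mu * v₁) = (v₂ - v₂') - mu * (v₁ - v₁') := by
      conv_lhs => rw [hz]
      ring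
    rw [this]
    calc ‖(v₂ - v₂') - mu * (v₁ - v₁')‖ ≤ ‖v₂ - v₂'‖ + ‖(mu : ℂ) * (v₁ - v₁')‖ := norm_sub_le _ _
      _ = ‖v₂ - v₂'‖ + mu * ‖v₁ - v₁'‖ := by
          rw [norm_mul, Complex.norm_real, Real.norm_of_nonneg mu_pos.le]
      _ ≤ 4 := by nlinarith [mu_pos, mu_lt]
  · have : w + (v₂ - lam * v₁) = (v₂ - v₂') - lam * (v₁ - v₁') := by
      conv_lhs => rw [hw]
      ring
    rw [this]
    calc ‖(v₂ - v₂') - lam * (v₁ - v₁')‖ ≤ ‖v₂ - v₂'‖ + ‖(lam : ℂ) * (v₁ - v₁')‖ :=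
          norm_sub_le _ _
      _ = ‖v₂ - v₂'‖ + lam * ‖v₁ - v₁'‖ := by
          rw [norm_mul, Complex.norm_real, Real.norm_of_nonneg lam_pos.le]
      _ ≤ 4 := by nlinarith [lam_pos, lam_lt, norm_nonneg (v₁ - v₁')]

lemma finite_IsG (R : ℝ) : {z : ℂ | IsG z ∧ ‖z‖ ≤ R}.Finite := by
  set N : ℤ := ⌈R⌉ with hN
  have hfin : ((Icc (-N) N) ×ˢ (Icc (-N) N) : Set (ℤ × ℤ)).Finite :=
    (finite_Icc _ _).prod (finite_Icc _ _)
  apply (hfin.image (fun p : ℤ × ℤ => (p.1 : ℂ) + p.2 * Complex.I)).subset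
  rintro z ⟨⟨a, b, rfl⟩, hz⟩
  have h1 : |(a : ℝ)| ≤ R := by
    have := Complex.abs_re_le_norm ((a : ℂ) + b * Complex.I)
    simp at this
    linarith
  have h2 : |(b : ℝ)| ≤ R := by
    have := Complex.abs_im_le_norm ((a : ℂ) + b * Complex.I)
    simp at this
    linarith
  have hRN : R ≤ N := Int.le_ceil R
  rw [abs_le] at h1 h2
  refine ⟨(a, b), ⟨⟨?_, ?_⟩, ⟨?_, ?_⟩⟩, rfl⟩
  · have : (-(N : ℝ)) ≤ a := by linarith
    exact_mod_cast this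
  · have : (a : ℝ) ≤ N := by linarith
    exact_mod_cast this
  · have : (-(N : ℝ)) ≤ b := by linarith
    exact_mod_cast this
  · have : (b : ℝ) ≤ N := by linarith
    exact_mod_cast this

/-- the lattice is discrete -/
lemma Lat.finite (R : ℝ) : {p : ℂ × ℂ | p ∈ Lat ∧ ‖p.1‖ ≤ R ∧ ‖p.2‖ ≤ R}.Finite := by
  have hd : (lam : ℂ) - mu ≠ 0 := by
    have : lam - mu ≠ 0 := by linarith [lam_gt, mu_lt]
    exact_mod_cast this
  have h1 : 1 ≤ ‖(lam : ℂ) - mu‖ := by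
    rw [← Complex.ofReal_sub, Complex.norm_real, Real.norm_eq_abs]
    rw [lam_eq, mu_eq]
    have := gr_gt
    rw [abs_of_pos (by linarith)]
    linarith
  have hfin := ((finite_IsG (2 * R)).prod (finite_IsG (3 * R))).image
    (fun p : ℂ × ℂ => (p.2 - mu * p.1, p.2 - lam * p.1))
  apply hfin.subset
  rintro ⟨a, b⟩ ⟨⟨v₁, v₂, hv1, hv2, h3, h4⟩, ha, hb⟩
  simp only at h3 h4 ha hb
  have e1 : ((lam : ℂ) - mu) * v₁ = a - b := by rw [h3, h4]; ring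
  have n1 : ‖v₁‖ ≤ 2 * R := by
    have : ‖(lam : ℂ) - mu‖ * ‖v₁‖ ≤ 2 * R := by
      rw [← norm_mul, e1]
      linarith [norm_sub_le a b]
    nlinarith [norm_nonneg v₁]
  have n2 : ‖v₂‖ ≤ 3 * R := by
    have : v₂ = a + mu * v₁ := by rw [h3]; ring
    rw [this]
    calc ‖a + mu * v₁‖ ≤ ‖a‖ + ‖(mu : ℂ) * v₁‖ := norm_add_le _ _
      _ = ‖a‖ + mu * ‖v₁‖ := by rw [norm_mul, Complex.norm_real, Real.norm_of_nonneg mu_pos.le]
      _ ≤ 3 * R := by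
        nlinarith [mu_pos, mu_lt, norm_nonneg v₁]
  exact ⟨(v₁, v₂), ⟨⟨hv1, n1⟩, ⟨hv2, n2⟩⟩, by rw [h3, h4]⟩

lemma Lat.eq_zero_of_snd {a : ℂ} (h : (a, (0 : ℂ)) ∈ Lat) : a = 0 := by
  obtain ⟨v₁, v₂, ⟨m, n, h1⟩, ⟨p, q, h2⟩, h3, h4⟩ := h
  simp only at h3 h4
  -- `v₂ = lam * v₁` with `lam` irrational
  have hirr : Irrational lam := by
    rw [lam_eq]
    exact_mod_cast Real.goldenRatio_irrational.add_natCast 1
  have e : v₂ = lam * v₁ := by linear_combination -h4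
  rw [h1, h2] at e
  have hre := congrArg Complex.re e
  have him := congrArg Complex.im e
  simp at hre him
  have hm : m = 0 := by
    by_contra hm
    apply hirr
    refine ⟨(p : ℚ) / m, ?_⟩
    push_cast
    rw [hre]
    field_simp
  have hn : n = 0 := by
    by_contra hn
    apply hirr
    refine ⟨(q : ℚ) / n, ?_⟩
    push_cast
    rw [him]
    field_simp
  subst hm hn
  simp at hre him
  subst hre him
  rw [h3, h1, h2]
  simp

/-- The group `Γ = ℤ ⋉ ℤ[i]²`, as a set of triples `(k, a, b)`. -/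
def Gam : Type := {p : ℤ × ℂ × ℂ // p.2 ∈ Lat}

namespace Gam

/-- constructor -/
def mk (k : ℤ) (a b : ℂ) (h : (a, b) ∈ Lat) : Gam := ⟨(k, a, b), h⟩

/-- first component -/
def k (g : Gam) : ℤ := g.1.1
/-- second component -/
def a (g : Gam) : ℂ := g.1.2.1
/-- third component -/
def b (g : Gam) : ℂ := g.1.2.2

lemma mem (g : Gam) : (g.a, g.b) ∈ Lat := g.2

@[ext] lemma ext {g h : Gam} (h1 : g.k = h.k) (h2 : g.a = h.a) (h3 : g.b = h.b) : g = h :=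
  Subtype.ext (Prod.ext h1 (Prod.ext h2 h3))

noncomputable instance : Group Gam where
  mul g h := mk (g.k + h.k) (g.a + (lam : ℂ) ^ g.k * h.a) (g.b + (mu : ℂ) ^ g.k * h.b)
    (Lat.add g.mem (Lat.zpow h.mem g.k))
  one := mk 0 0 0 Lat.zero
  inv g := mk (-g.k) (-((lam : ℂ) ^ (-g.k) * g.a)) (-((mu : ℂ) ^ (-g.k) * g.b))
    (Lat.neg (Lat.zpow g.mem (-g.k)))
  mul_assoc g h l := by
    apply ext
    · exact add_assoc _ _ _
    · show (g.a + (lam : ℂ) ^ g.k * h.a) + (lam : ℂ) ^ (g.k + h.k) * l.a =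
        g.a + (lam : ℂ) ^ g.k * (h.a + (lam : ℂ) ^ h.k * l.a)
      rw [zpow_add₀ lamC_ne]; ring
    · show (g.b + (mu : ℂ) ^ g.k * h.b) + (mu : ℂ) ^ (g.k + h.k) * l.b =
        g.b + (mu : ℂ) ^ g.k * (h.b + (mu : ℂ) ^ h.k * l.b)
      rw [zpow_add₀ muC_ne]; ring
  one_mul g := by
    apply ext
    · exact zero_add _
    · show (0 : ℂ) + (lam : ℂ) ^ (0 : ℤ) * g.a = g.a
      simp
    · show (0 : ℂ) + (mu : ℂ) ^ (0 : ℤ) * g.b = g.b
      simp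
  mul_one g := by
    apply ext
    · exact add_zero _
    · show g.a + (lam : ℂ) ^ g.k * 0 = g.a
      simp
    · show g.b + (mu : ℂ) ^ g.k * 0 = g.b
      simp
  inv_mul_cancel g := by
    apply ext
    · exact neg_add_cancel _
    · show -((lam : ℂ) ^ (-g.k) * g.a) + (lam : ℂ) ^ (-g.k) * g.a = 0
      ring
    · show -((mu : ℂ) ^ (-g.k) * g.b) + (mu : ℂ) ^ (-g.k) * g.b = 0
      ring

lemma mul_k (g h : Gam) : (g * h).k = g.k + h.k := rfl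
lemma mul_a (g h : Gam) : (g * h).a = g.a + (lam : ℂ) ^ g.k * h.a := rfl
lemma mul_b (g h : Gam) : (g * h).b = g.b + (mu : ℂ) ^ g.k * h.b := rfl
lemma one_k : (1 : Gam).k = 0 := rfl
lemma one_a : (1 : Gam).a = 0 := rfl
lemma one_b : (1 : Gam).b = 0 := rfl

/-- boundedness criterion for finiteness -/
lemma finite_of_bdd {S : Set Gam} {N : ℤ} {R : ℝ} (hN : ∀ g ∈ S, |g.k| ≤ N)
    (ha : ∀ g ∈ S, ‖g.a‖ ≤ R) (hb : ∀ g ∈ S, ‖g.b‖ ≤ R) : S.Finite := by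
  have hfin : ((Icc (-N) N) ×ˢ {p : ℂ × ℂ | p ∈ Lat ∧ ‖p.1‖ ≤ R ∧ ‖p.2‖ ≤ R} :
      Set (ℤ × (ℂ × ℂ))).Finite := (finite_Icc _ _).prod (Lat.finite R)
  apply Finite.of_finite_image (f := fun g : Gam => (g.1 : ℤ × ℂ × ℂ)) _
    (Subtype.val_injective.injOn)
  apply hfin.subset
  rintro _ ⟨g, hg, rfl⟩
  exact ⟨abs_le.1 (hN g hg), g.mem, ha g hg, hb g hg⟩

end Gam

/-- exponents are bounded when powers of `φ` are bounded -/
lemma abs_le_of_zpow (C : ℝ) : ∃ N : ℤ, ∀ k : ℤ, gr ^ k ≤ C → gr ^ (-k) ≤ C →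
    |k| ≤ N := by
  obtain ⟨n, hn⟩ := pow_unbounded_of_one_lt C gr_gt
  refine ⟨n, fun k h1 h2 => ?_⟩
  rw [abs_le]
  constructor
  · by_contra hcon
    push Not at hcon
    have : gr ^ (n : ℤ) ≤ gr ^ (-k) := zpow_le_zpow_right₀ gr_gt.le (by omega)
    rw [zpow_natCast] at this
    linarith
  · by_contra hcon
    push Not at hcon
    have : gr ^ (n : ℤ) ≤ gr ^ k := zpow_le_zpow_right₀ gr_gt.le (by omega)
    rw [zpow_natCast] at this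
    linarith

end Pool.Agent.Helper417.Mer
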