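import Mathlib
import Pool.Agent.Helper417.Mer.Defs
import Pool.Agent.Helper417.Mer.QuotMfd
import Pool.Agent.Helper417.Mer.Grp

set_option autoImplicit false
set_option linter.unusedSectionVars false
open scoped Manifold ContDiff Topology
open Set Metric Filter

namespace Pool.Agent.Helper417.Mer

/-- A family of compact complex manifolds `{π = t} / Γ`. -/
structure GFam (E : Type) [NormedAddCommGroup E] [NormedSpace ℂ E] where
  U : Set E
  isOpen : IsOpen U
  nonempty : U.Nonempty
  act : Gam → E → E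
  mem : ∀ g x, x ∈ U → act g x ∈ U
  one : ∀ x ∈ U, act 1 x = x
  mul : ∀ g h, ∀ x ∈ U, act (g * h) x = act g (act h x)
  diff : ∀ g, ContDiff ℂ ω (act g)
  bdd : ∀ K : Set E, IsCompact K → K ⊆ U → ∃ (N : ℤ) (R : ℝ), ∀ g x, x ∈ K → act g x ∈ K →
    |g.k| ≤ N ∧ ‖g.a‖ ≤ R ∧ ‖g.b‖ ≤ R
  free : ∀ g h, ∀ x ∈ U, act g x = act h x → g = h
  π : E → ℂ
  π_inv : ∀ g, ∀ x ∈ U, π (act g x) = π x
  π_diff : Differentiable ℂ π
  π_sub : ∀ x ∈ U, Function.Surjective (fderiv ℂ π x)
  π_range : π '' U = ball 0 1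
  π_proper : ∀ K ⊆ ball (0 : ℂ) 1, IsCompact K → ∃ F : Set E, IsCompact F ∧ F ⊆ U ∧
    ∀ x ∈ U, π x ∈ K → ∃ g, act g x ∈ F
  π_conn : ∀ t ∈ ball (0 : ℂ) 1, IsConnected {x | x ∈ U ∧ π x = t}

namespace GFam

variable {E : Type} [NormedAddCommGroup E] [NormedSpace ℂ E] (F : GFam E)

instance mulAction : MulAction Gam F.U where
  smul g x := ⟨F.act g x, F.mem g x x.2⟩
  one_smul x := Subtype.ext (F.one x x.2)
  mul_smul g h x := Subtype.ext (F.mul g h x x.2)

lemma smul_coe (g : Gam) (x : F.U) : ((g • x : F.U) : E) = F.act g x := rfl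

instance contSMul : ContinuousConstSMul Gam F.U where
  continuous_const_smul g := by
    apply Continuous.subtype_mk
    exact (F.diff g).continuous.comp continuous_subtype_val

instance cancelSMul : IsCancelSMul Gam F.U where
  right_cancel' g h x hx := F.free g h x x.2 (congrArg Subtype.val hx)

instance pdSMul : ProperlyDiscontinuousSMul Gam F.U where
  finite_disjoint_inter_image := by
    intro K L hK hL
    set K' : Set E := Subtype.val '' K ∪ Subtype.val '' L with hK'
    have hK'c : IsCompact K' :=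
      (hK.image continuous_subtype_val).union (hL.image continuous_subtype_val)
    have hK'U : K' ⊆ F.U := by
      rintro _ (⟨x, -, rfl⟩ | ⟨x, -, rfl⟩) <;> exact x.2
    obtain ⟨N, R, h⟩ := F.bdd K' hK'c hK'U
    have key : ∀ g ∈ {g : Gam | ((g • ·) '' K ∩ L).Nonempty}, |g.k| ≤ N ∧ ‖g.a‖ ≤ R ∧ ‖g.b‖ ≤ R := by
      rintro g ⟨_, ⟨x, hx, rfl⟩, hy⟩
      exact h g x (Or.inl ⟨x, hx, rfl⟩) (Or.inr ⟨g • x, hy, rfl⟩)
    have := Gam.finite_of_bdd (fun g hg => (key g hg).1) (fun g hg => (key g hg).2.1)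
      (fun g hg => (key g hg).2.2)
    convert this using 1

variable [FiniteDimensional ℂ E]

/-- the total space -/
abbrev Tot : Type := Quotient (MulAction.orbitRel Gam F.U)

lemma locallyCompact : LocallyCompactSpace F.U := by
  have : ProperSpace E := FiniteDimensional.proper ℂ E
  exact F.isOpen.locallyCompactSpace

lemma isQuot : IsQuotientCoveringMap (Quotient.mk (MulAction.orbitRel Gam F.U)) Gam := by
  have := F.locallyCompact
  exact isQuotientCoveringMap_quotientMk_of_properlyDiscontinuousSMul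

/-- the quotient data -/
noncomputable def quot : CQuot E F.Tot where
  U := F.U
  isOpen := F.isOpen
  nonempty := F.nonempty.to_subtype
  G := Gam
  grp := inferInstance
  act := inferInstance
  q := Quotient.mk _
  hq := F.isQuot
  φ := F.act
  φ_spec := fun _ _ => rfl
  φ_diff := F.diff

/-- the projection to the disc -/
noncomputable def proj : F.Tot → ℂ := Quotient.lift (fun x : F.U => F.π x) (by
  rintro x y ⟨g, rfl⟩
  exact F.π_inv g y y.2)

lemma proj_Q {x : E} (hx : x ∈ F.U) : F.proj (F.quot.Q x) = F.π x := by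
  rw [F.quot.Q_eq hx]
  rfl

lemma exists_rep (y : F.Tot) : ∃ x ∈ F.U, F.quot.Q x = y := by
  obtain ⟨x, rfl⟩ := F.quot.hq.surjective y
  exact ⟨x, x.2, F.quot.Q_eq x.2⟩

lemma Q_act (g : Gam) {x : E} (hx : x ∈ F.U) : F.quot.Q (F.act g x) = F.quot.Q x := by
  rw [F.quot.Q_eq hx, F.quot.Q_eq (F.mem g x hx)]
  exact F.quot.hq.map_smul (e := (⟨x, hx⟩ : F.U)) g

lemma Q_eq_iff {x y : E} (hx : x ∈ F.U) (hy : y ∈ F.U) (h : F.quot.Q x = F.quot.Q y) :
    ∃ g, x = F.act g y := by
  rw [F.quot.Q_eq hx, F.quot.Q_eq hy] at h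
  obtain ⟨g, hg⟩ := F.quot.hq.apply_eq_iff_mem_orbit.1 h
  exact ⟨g, (congrArg Subtype.val hg).symm⟩

lemma t2 : T2Space F.Tot := by
  have := F.locallyCompact
  exact t2Space_of_properlyDiscontinuousSMul_of_t2Space

lemma secondCountable : SecondCountableTopology F.Tot := by
  have : ProperSpace E := FiniteDimensional.proper ℂ E
  have : SecondCountableTopology F.U := inferInstance
  exact ContinuousConstSMul.secondCountableTopology

theorem isComplexDeformation :
    letI := F.quot.cs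
    IsComplexDeformation E F.proj := by
  let _ := F.quot.cs
  have hT2 := F.t2
  have hh : ∀ v ∈ F.quot.U, F.proj (F.quot.Q v) = F.π v := fun v hv => F.proj_Q hv
  have hd : ∀ v ∈ F.quot.U, DifferentiableAt ℂ F.π v := fun v _ => F.π_diff v
  have hmd := fun y => F.quot.mdifferentiableAt_of_comp_Q hh hd y
  have hcont : Continuous F.proj := by
    rw [continuous_iff_continuousAt]
    exact fun y => (hmd y).1.continuousAt
  refine ⟨inferInstance, F.quot.isManifold, hT2, F.secondCountable, fun y => (hmd y).1, ?_, ?_, ?_, ?_⟩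
  · intro y
    rw [(hmd y).2]
    exact F.π_sub _ (F.quot.sec y).2
  · rw [← F.π_range]
    ext t
    constructor
    · rintro ⟨y, rfl⟩
      obtain ⟨x, hx, rfl⟩ := F.exists_rep y
      exact ⟨x, hx, (F.proj_Q hx).symm⟩
    · rintro ⟨x, hx, rfl⟩
      exact ⟨F.quot.Q x, F.proj_Q hx⟩
  · intro K hK hKc
    obtain ⟨S, hS, hSU, hS2⟩ := F.π_proper K hK hKc
    have hcQ : ContinuousOn F.quot.Q S := fun x hx =>
      (F.quot.continuousAt_Q (hSU hx)).continuousWithinAt
    apply (hS.image_of_continuousOn hcQ).of_isClosed_subset (hKc.isClosed.preimage hcont)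
    intro y hy
    obtain ⟨x, hx, rfl⟩ := F.exists_rep y
    obtain ⟨g, hg⟩ := hS2 x hx (by rw [← F.proj_Q hx]; exact hy)
    exact ⟨_, hg, F.Q_act g hx⟩
  · intro t ht
    have hc := F.π_conn t ht
    have : F.proj ⁻¹' {t} = F.quot.Q '' {x | x ∈ F.U ∧ F.π x = t} := by
      ext y
      constructor
      · intro hy
        obtain ⟨x, hx, rfl⟩ := F.exists_rep y
        exact ⟨x, ⟨hx, by rw [← F.proj_Q hx]; exact hy⟩, rfl⟩
      · rintro ⟨x, ⟨hx, hxt⟩, rfl⟩
        simp only [mem_preimage, mem_singleton_iff]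
        rw [F.proj_Q hx, hxt]
    rw [this]
    exact hc.image _ (fun x hx => (F.quot.continuousAt_Q hx.1).continuousWithinAt)

end GFam

end Pool.Agent.Helper417.Mer
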