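import Mathlib
import Pool.Agent.Helper417.Mer.Fam
import Pool.Agent.Helper417.Mer.Good

set_option autoImplicit false
set_option linter.unusedSectionVars false
open scoped Manifold ContDiff Topology
open Set Metric Filter

/-! The family `{(x, s, y) ∈ ℂ² × ℂ × (ℂ² ∖ 0) : det (x, y) = t} / Γ`. -/

namespace Pool.Agent.Helper417.Mer.Closed

/-- `ℂ⁵` -/
abbrev E5 : Type := ℂ × ℂ × ℂ × ℂ × ℂ

/-- the determinant -/
def det (p : E5) : ℂ := p.1 * p.2.2.2.2 - p.2.1 * p.2.2.2.1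

/-- the universal cover -/
def U : Set E5 := {p | p.2.2.2 ≠ 0 ∧ ‖det p‖ < 1}

/-- the action -/
noncomputable def act (g : Gam) (p : E5) : E5 :=
  ((gr : ℂ) ^ (-g.k) * p.1 + g.b * (gr : ℂ) ^ g.k * p.2.2.2.1,
   (gr : ℂ) ^ (-g.k) * p.2.1 + g.b * (gr : ℂ) ^ g.k * p.2.2.2.2,
   (lam : ℂ) ^ g.k * p.2.2.1 + g.a,
   (gr : ℂ) ^ g.k * p.2.2.2.1,
   (gr : ℂ) ^ g.k * p.2.2.2.2)

lemma gr_zpow_mul (k : ℤ) : (gr : ℂ) ^ (-k) * (gr : ℂ) ^ k = 1 := by
  rw [zpow_neg, inv_mul_cancel₀ (zpow_ne_zero _ grC_ne)]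

lemma det_act (g : Gam) (p : E5) : det (act g p) = det p := by
  simp only [det, act]
  linear_combination (p.1 * p.2.2.2.2 - p.2.1 * p.2.2.2.1) * gr_zpow_mul g.k

lemma norm_gr_zpow (k : ℤ) : ‖(gr : ℂ) ^ k‖ = gr ^ k := by
  rw [norm_zpow, Complex.norm_real, Real.norm_of_nonneg gr_pos.le]

lemma act_y (g : Gam) (p : E5) : (act g p).2.2.2 = (gr : ℂ) ^ g.k • p.2.2.2 := rfl

lemma norm_act_y (g : Gam) (p : E5) : ‖(act g p).2.2.2‖ = gr ^ g.k * ‖p.2.2.2‖ := by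
  rw [act_y, norm_smul, norm_gr_zpow]

lemma isOpen_U : IsOpen U := by
  have h1 : IsOpen {p : E5 | p.2.2.2 ≠ 0} := isOpen_ne_fun (by fun_prop) continuous_const
  have h2 : IsOpen {p : E5 | ‖det p‖ < 1} := isOpen_lt (by unfold det; fun_prop) continuous_const
  exact h1.inter h2

lemma act_mem (g : Gam) (p : E5) (hp : p ∈ U) : act g p ∈ U := by
  refine ⟨?_, by rw [det_act]; exact hp.2⟩
  rw [act_y]
  exact smul_ne_zero (zpow_ne_zero _ grC_ne) hp.1

lemma act_one (p : E5) : act 1 p = p := by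
  simp [act, Gam.one_k, Gam.one_a, Gam.one_b]

lemma act_mul (g h : Gam) (p : E5) : act (g * h) p = act g (act h p) := by
  have e1 : (gr : ℂ) ^ (-(g.k + h.k)) = (gr : ℂ) ^ (-g.k) * (gr : ℂ) ^ (-h.k) := by
    rw [← zpow_add₀ grC_ne]; congr 1; ring
  have e2 : (gr : ℂ) ^ (g.k + h.k) = (gr : ℂ) ^ g.k * (gr : ℂ) ^ h.k := zpow_add₀ grC_ne _ _
  have e3 : (lam : ℂ) ^ (g.k + h.k) = (lam : ℂ) ^ g.k * (lam : ℂ) ^ h.k := zpow_add₀ lamC_ne _ _
  have e4 : (mu : ℂ) ^ g.k * (gr : ℂ) ^ g.k = (gr : ℂ) ^ (-g.k) := by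
    rw [mu_eq_zpow, ← zpow_add₀ grC_ne]; congr 1; ring
  have e5 := gr_zpow_mul h.k
  simp only [act, Gam.mul_k, Gam.mul_a, Gam.mul_b, e1, e2, e3]
  refine Prod.ext ?_ (Prod.ext ?_ (Prod.ext ?_ (Prod.ext ?_ ?_)))
  · simp only
    linear_combination (h.b * (gr : ℂ) ^ h.k * p.2.2.2.1) * e4
  · simp only
    linear_combination (h.b * (gr : ℂ) ^ h.k * p.2.2.2.2) * e4
  · simp only; ring
  · simp only; ring
  · simp only; ring

lemma act_diff (g : Gam) : ContDiff ℂ ω (act g) := by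
  unfold act
  fun_prop

lemma gr_zpow_inj {k l : ℤ} (h : (gr : ℂ) ^ k = (gr : ℂ) ^ l) : k = l := by
  have h1 : gr ^ k = gr ^ l := by
    rw [← norm_gr_zpow, ← norm_gr_zpow, h]
  exact zpow_right_injective₀ gr_pos gr_gt.ne' h1

lemma act_free (g h : Gam) (p : E5) (hp : p ∈ U) (he : act g p = act h p) : g = h := by
  have hy : (gr : ℂ) ^ g.k • p.2.2.2 = (gr : ℂ) ^ h.k • p.2.2.2 := by
    rw [← act_y, ← act_y, he]
  have hk : g.k = h.k := gr_zpow_inj (smul_left_injective ℂ hp.1 hy)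
  have ha : g.a = h.a := by
    have := congrArg (fun q : E5 => q.2.2.1) he
    simp only [act, hk] at this
    exact add_left_cancel this
  have hb : g.b = h.b := by
    have h1 := congrArg (fun q : E5 => q.1) he
    have h2 := congrArg (fun q : E5 => q.2.1) he
    simp only [act, hk] at h1 h2
    have h3 := add_left_cancel h1
    have h4 := add_left_cancel h2
    have hz : (gr : ℂ) ^ h.k ≠ 0 := zpow_ne_zero _ grC_ne
    by_cases hy1 : p.2.2.2.1 = 0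
    · have hy2 : p.2.2.2.2 ≠ 0 := fun h0 => hp.1 (Prod.ext hy1 h0)
      exact mul_right_cancel₀ hz (mul_right_cancel₀ hy2 h4)
    · exact mul_right_cancel₀ hz (mul_right_cancel₀ hy1 h3)
  exact Gam.ext hk ha hb

lemma act_bdd (K : Set E5) (hK : IsCompact K) (hKU : K ⊆ U) : ∃ (N : ℤ) (R : ℝ), ∀ g x,
    x ∈ K → act g x ∈ K → |g.k| ≤ N ∧ ‖g.a‖ ≤ R ∧ ‖g.b‖ ≤ R := by
  obtain ⟨C₁, hC₁⟩ := hK.isBounded.exists_norm_le
  have hcont : ContinuousOn (fun p : E5 => ‖p.2.2.2‖⁻¹) K := by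
    apply ContinuousOn.inv₀ (by fun_prop)
    intro p hp
    exact norm_ne_zero_iff.2 (hKU hp).1
  obtain ⟨C₂, hC₂⟩ := (hK.bddAbove_image hcont)
  set C : ℝ := max 1 (max C₁ C₂) with hC
  have hC1 : 1 ≤ C := le_max_left _ _
  have hCa : ∀ p ∈ K, ‖p‖ ≤ C := fun p hp =>
    (hC₁ p hp).trans ((le_max_left _ _).trans (le_max_right _ _))
  have hCb : ∀ p ∈ K, 1 ≤ C * ‖p.2.2.2‖ := by
    intro p hp
    have h1 : ‖p.2.2.2‖⁻¹ ≤ C :=
      (hC₂ ⟨p, hp, rfl⟩).trans ((le_max_right _ _).trans (le_max_right _ _))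
    have h2 : 0 < ‖p.2.2.2‖ := norm_pos_iff.2 (hKU hp).1
    rw [inv_le_iff_one_le_mul₀ h2] at h1
    exact h1
  have hy_le : ∀ p : E5, ‖p.2.2.2‖ ≤ ‖p‖ := fun p =>
    (norm_snd_le _).trans ((norm_snd_le _).trans (norm_snd_le _))
  obtain ⟨N, hN⟩ := abs_le_of_zpow (C ^ 2)
  refine ⟨N, (C + C ^ 4 * C) + C * (C + C ^ 2 * C), ?_⟩
  intro g x hx hgx
  have hpos : 0 < C := lt_of_lt_of_le one_pos hC1
  have hk1 : gr ^ g.k ≤ C ^ 2 := by
    have h1 := norm_act_y g x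
    have h2 := (hy_le _).trans (hCa _ hgx)
    rw [h1] at h2
    have h3 := hCb x hx
    have h4 : 0 < gr ^ g.k := zpow_pos gr_pos _
    calc gr ^ g.k = gr ^ g.k * 1 := (mul_one _).symm
      _ ≤ gr ^ g.k * (C * ‖x.2.2.2‖) := by gcongr
      _ = C * (gr ^ g.k * ‖x.2.2.2‖) := by ring
      _ ≤ C * C := by gcongr
      _ = C ^ 2 := by ring
  have hk2 : gr ^ (-g.k) ≤ C ^ 2 := by
    have h1 := norm_act_y g x
    have h2 := (hy_le _).trans (hCa _ hx)
    have h3 := hCb _ hgx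
    rw [h1] at h3
    have h4 : 0 < gr ^ g.k := zpow_pos gr_pos _
    rw [zpow_neg, inv_le_iff_one_le_mul₀ h4]
    calc (1 : ℝ) ≤ C * (gr ^ g.k * ‖x.2.2.2‖) := h3
      _ ≤ C * (gr ^ g.k * C) := by gcongr
      _ = C ^ 2 * gr ^ g.k := by ring
  refine ⟨hN _ hk1 hk2, ?_, ?_⟩
  · have h1 : g.a = (act g x).2.2.1 - (lam : ℂ) ^ g.k * x.2.2.1 := by simp [act]
    have h2 : ‖(lam : ℂ) ^ g.k‖ ≤ C ^ 4 := by
      rw [lam_eq_zpow, norm_gr_zpow, zpow_mul', zpow_ofNat]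
      calc (gr ^ g.k) ^ 2 ≤ (C ^ 2) ^ 2 := pow_le_pow_left₀ (zpow_pos gr_pos _).le hk1 2
        _ = C ^ 4 := by ring
    have h3 : ∀ p : E5, ‖p.2.2.1‖ ≤ ‖p‖ := fun p =>
      (norm_fst_le _).trans ((norm_snd_le _).trans (norm_snd_le _))
    have h4 : 0 ≤ C * (C + C ^ 2 * C) := by positivity
    calc ‖g.a‖ ≤ ‖(act g x).2.2.1‖ + ‖(lam : ℂ) ^ g.k * x.2.2.1‖ := by
          rw [h1]; exact norm_sub_le _ _
      _ ≤ C + C ^ 4 * C := by
          rw [norm_mul]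
          have a1 := (h3 _).trans (hCa _ hgx)
          have a2 := (h3 _).trans (hCa _ hx)
          gcongr
      _ ≤ _ := by linarith
  · have h1 : ‖g.b‖ * ‖(act g x).2.2.2‖ ≤ C + C ^ 2 * C := by
      rw [← norm_smul]
      have e : g.b • (act g x).2.2.2 = ((act g x).1 - (gr : ℂ) ^ (-g.k) * x.1,
          (act g x).2.1 - (gr : ℂ) ^ (-g.k) * x.2.1) := by
        refine Prod.ext ?_ ?_
        · simp [act]; ring
        · simp [act]; ring
      rw [e]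
      have hA : ∀ p : E5, ‖p.1‖ ≤ ‖p‖ := fun p => norm_fst_le _
      have hB : ∀ p : E5, ‖p.2.1‖ ≤ ‖p‖ := fun p => (norm_fst_le _).trans (norm_snd_le _)
      have hz : ‖(gr : ℂ) ^ (-g.k)‖ ≤ C ^ 2 := by rw [norm_gr_zpow]; exact hk2
      rw [Prod.norm_def]
      apply max_le
      · refine (norm_sub_le _ _).trans ?_
        rw [norm_mul]
        have a1 := (hA _).trans (hCa _ hgx)
        have a2 := (hA _).trans (hCa _ hx)
        gcongr
      · refine (norm_sub_le _ _).trans ?_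
        rw [norm_mul]
        have a1 := (hB _).trans (hCa _ hgx)
        have a2 := (hB _).trans (hCa _ hx)
        gcongr
    have h2 := hCb _ hgx
    have h4 : 0 ≤ C + C ^ 4 * C := by positivity
    calc ‖g.b‖ = ‖g.b‖ * 1 := (mul_one _).symm
      _ ≤ ‖g.b‖ * (C * ‖(act g x).2.2.2‖) := by gcongr
      _ = C * (‖g.b‖ * ‖(act g x).2.2.2‖) := by ring
      _ ≤ C * (C + C ^ 2 * C) := by gcongr
      _ ≤ _ := by linarith

lemma det_differentiable : Differentiable ℂ det := by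
  unfold det; fun_prop

lemma det_sub (p : E5) (hp : p ∈ U) : Function.Surjective (fderiv ℂ det p) := by
  have key : ∀ v : ℂ × ℂ, fderiv ℂ det p (v.1, v.2, 0, 0, 0) =
      v.1 * p.2.2.2.2 - v.2 * p.2.2.2.1 := by
    intro v
    have h1 : HasDerivAt (fun τ : ℂ => p + τ • ((v.1, v.2, 0, 0, 0) : E5)) (v.1, v.2, 0, 0, 0)
        0 := by
      have := ((hasDerivAt_id (0 : ℂ)).smul_const ((v.1, v.2, 0, 0, 0) : E5)).const_add p
      simpa using this
    have h2 : HasFDerivAt det (fderiv ℂ det p) (p + (0 : ℂ) • ((v.1, v.2, 0, 0, 0) : E5)) := by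
      rw [zero_smul, add_zero]
      exact (det_differentiable p).hasFDerivAt
    have h3 := h2.comp_hasDerivAt (0 : ℂ) h1
    have h4 : HasDerivAt (fun τ : ℂ => det p + τ * (v.1 * p.2.2.2.2 - v.2 * p.2.2.2.1))
        (v.1 * p.2.2.2.2 - v.2 * p.2.2.2.1) 0 := by
      have := ((hasDerivAt_id (0 : ℂ)).mul_const
        (v.1 * p.2.2.2.2 - v.2 * p.2.2.2.1)).const_add (det p)
      simpa using this
    have h5 : (det ∘ fun τ : ℂ => p + τ • ((v.1, v.2, 0, 0, 0) : E5)) =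
        fun τ : ℂ => det p + τ * (v.1 * p.2.2.2.2 - v.2 * p.2.2.2.1) := by
      ext τ
      simp [det]
      ring
    rw [h5] at h3
    exact h3.unique h4
  intro c
  by_cases hy1 : p.2.2.2.1 = 0
  · have hy2 : p.2.2.2.2 ≠ 0 := fun h0 => hp.1 (Prod.ext hy1 h0)
    refine ⟨(c / p.2.2.2.2, 0, 0, 0, 0), ?_⟩
    rw [key (c / p.2.2.2.2, 0)]
    field_simp
    simp
  · refine ⟨(0, -c / p.2.2.2.1, 0, 0, 0), ?_⟩
    rw [key (0, -c / p.2.2.2.1)]
    field_simp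
    simp

lemma det_range : det '' U = ball 0 1 := by
  ext t
  constructor
  · rintro ⟨p, hp, rfl⟩
    simpa using hp.2
  · intro ht
    refine ⟨(t, 0, 0, 0, 1), ⟨?_, ?_⟩, ?_⟩
    · intro h
      have := congrArg Prod.snd h
      simp at this
    · simpa [det] using ht
    · simp [det]

/-- the square of the Euclidean norm -/
noncomputable def nsq (y : ℂ × ℂ) : ℂ := y.1 * (starRingEnd ℂ) y.1 + y.2 * (starRingEnd ℂ) y.2

lemma nsq_eq (y : ℂ × ℂ) : nsq y = ((‖y.1‖ ^ 2 + ‖y.2‖ ^ 2 : ℝ) : ℂ) := by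
  simp [nsq, Complex.mul_conj, Complex.normSq_eq_norm_sq]

lemma nsq_ne {y : ℂ × ℂ} (hy : y ≠ 0) : nsq y ≠ 0 := by
  rw [nsq_eq]
  have : ‖y.1‖ ^ 2 + ‖y.2‖ ^ 2 ≠ 0 := by
    intro h
    have h1 : ‖y.1‖ = 0 := by nlinarith [sq_nonneg ‖y.1‖, sq_nonneg ‖y.2‖]
    have h2 : ‖y.2‖ = 0 := by nlinarith [sq_nonneg ‖y.1‖, sq_nonneg ‖y.2‖]
    exact hy (Prod.ext (norm_eq_zero.1 h1) (norm_eq_zero.1 h2))
  exact_mod_cast this

/-- parametrization of the fibres -/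
noncomputable def par (t : ℂ) (q : ℂ × ℂ × (ℂ × ℂ)) : E5 :=
  (q.1 * q.2.2.1 + t * (starRingEnd ℂ) q.2.2.2 / nsq q.2.2,
   q.1 * q.2.2.2 - t * (starRingEnd ℂ) q.2.2.1 / nsq q.2.2, q.2.1, q.2.2.1, q.2.2.2)

lemma det_par (t : ℂ) (q : ℂ × ℂ × (ℂ × ℂ)) (hq : q.2.2 ≠ 0) : det (par t q) = t := by
  have h := nsq_ne hq
  have h2 : q.2.2.1 * (starRingEnd ℂ) q.2.2.1 + q.2.2.2 * (starRingEnd ℂ) q.2.2.2 =
    nsq q.2.2 := rfl
  simp only [det, par]
  field_simp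
  rw [← h2]
  ring

/-- inverse of the parametrization -/
lemma exists_par (t : ℂ) (p : E5) (hp : p.2.2.2 ≠ 0) (ht : det p = t) :
    ∃ σ : ℂ, p = par t (σ, p.2.2.1, p.2.2.2) := by
  have h := nsq_ne hp
  have h2 : p.2.2.2.1 * (starRingEnd ℂ) p.2.2.2.1 + p.2.2.2.2 * (starRingEnd ℂ) p.2.2.2.2 =
    nsq p.2.2.2 := rfl
  refine ⟨(p.1 * (starRingEnd ℂ) p.2.2.2.1 + p.2.1 * (starRingEnd ℂ) p.2.2.2.2) / nsq p.2.2.2, ?_⟩
  simp only [par]
  refine Prod.ext ?_ (Prod.ext ?_ rfl)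
  · simp only
    field_simp
    rw [← ht, ← h2, det]
    ring
  · simp only
    field_simp
    rw [← ht, ← h2, det]
    ring

lemma conn (t : ℂ) (ht : t ∈ ball (0 : ℂ) 1) : IsConnected {p | p ∈ U ∧ det p = t} := by
  have h1 : IsConnected ({0}ᶜ : Set (ℂ × ℂ)) := by
    apply isConnected_compl_singleton_of_one_lt_rank
    have : Module.finrank ℝ (ℂ × ℂ) = 4 := by simp
    rw [← Module.finrank_eq_rank, this]
    norm_num
  have h2 : IsConnected ((univ : Set ℂ) ×ˢ ((univ : Set ℂ) ×ˢ ({0}ᶜ : Set (ℂ × ℂ)))) :=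
    isConnected_univ.prod (isConnected_univ.prod h1)
  have h3 : ContinuousOn (par t) ((univ : Set ℂ) ×ˢ ((univ : Set ℂ) ×ˢ ({0}ᶜ : Set (ℂ × ℂ)))) := by
    have hn : ∀ q ∈ ((univ : Set ℂ) ×ˢ ((univ : Set ℂ) ×ˢ ({0}ᶜ : Set (ℂ × ℂ)))),
        nsq q.2.2 ≠ 0 := fun q hq => nsq_ne hq.2.2
    have hnc : Continuous fun q : ℂ × ℂ × (ℂ × ℂ) => nsq q.2.2 := by
      unfold nsq
      have : Continuous (starRingEnd ℂ) := Complex.continuous_conj
      fun_prop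
    unfold par
    have hconj : Continuous (starRingEnd ℂ) := Complex.continuous_conj
    refine ContinuousOn.prodMk ?_ (ContinuousOn.prodMk ?_ (by fun_prop))
    · exact ContinuousOn.add (by fun_prop) (ContinuousOn.div (by fun_prop) hnc.continuousOn hn)
    · exact ContinuousOn.sub (by fun_prop) (ContinuousOn.div (by fun_prop) hnc.continuousOn hn)
  have h4 := h2.image _ h3
  convert h4 using 1
  ext p
  constructor
  · rintro ⟨hp, hpt⟩
    obtain ⟨σ, hσ⟩ := exists_par t p hp.1 hpt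
    exact ⟨(σ, p.2.2.1, p.2.2.2), ⟨mem_univ _, mem_univ _, hp.1⟩, hσ.symm⟩
  · rintro ⟨q, ⟨-, -, hq⟩, rfl⟩
    have hd := det_par t q hq
    refine ⟨⟨hq, ?_⟩, hd⟩
    rw [hd]
    simpa using ht

lemma proper (K : Set ℂ) (hK : K ⊆ ball (0 : ℂ) 1) (hKc : IsCompact K) :
    ∃ F : Set E5, IsCompact F ∧ F ⊆ U ∧ ∀ x ∈ U, det x ∈ K → ∃ g, act g x ∈ F := by
  refine ⟨closedBall 0 10 ∩ {p | det p ∈ K ∧ 1 ≤ ‖p.2.2.2‖}, ?_, ?_, ?_⟩
  · apply (isCompact_closedBall _ _).inter_right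
    have h1 : IsClosed {p : E5 | det p ∈ K} :=
      hKc.isClosed.preimage det_differentiable.continuous
    have h2 : IsClosed {p : E5 | 1 ≤ ‖p.2.2.2‖} := isClosed_le continuous_const (by fun_prop)
    exact h1.inter h2
  · rintro p ⟨-, h1, h2⟩
    refine ⟨?_, by simpa using hK h1⟩
    intro h0
    rw [h0, norm_zero] at h2
    linarith
  · intro x hx hxK
    have hy : 0 < ‖x.2.2.2‖ := norm_pos_iff.2 hx.1
    obtain ⟨n, hn1, hn2⟩ := exists_mem_Ico_zpow hy gr_gt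
    set g₁ : Gam := Gam.mk (-n) 0 0 Lat.zero with hg₁
    set x' := act g₁ x with hx'
    have hk₁ : g₁.k = -n := rfl
    have hy' : ‖x'.2.2.2‖ = gr ^ (-n) * ‖x.2.2.2‖ := by rw [hx', norm_act_y, hk₁]
    have hgn : 0 < gr ^ (-n) := zpow_pos gr_pos _
    have hmul : gr ^ (-n) * gr ^ n = 1 := by
      rw [← zpow_add₀ gr_pos.ne']; simp
    have hy1 : 1 ≤ ‖x'.2.2.2‖ := by
      rw [hy', ← hmul]
      gcongr
    have hy2 : ‖x'.2.2.2‖ ≤ 2 := by
      rw [hy']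
      calc gr ^ (-n) * ‖x.2.2.2‖ ≤ gr ^ (-n) * gr ^ (n + 1) := by gcongr
        _ = gr ^ (-n) * gr ^ n * gr := by rw [zpow_add_one₀ gr_pos.ne']; ring
        _ ≤ 2 := by rw [hmul, one_mul]; exact gr_lt.le
    have hx'U : x' ∈ U := act_mem _ _ hx
    have hdet' : det x' = det x := det_act _ _
    obtain ⟨σ, hσ⟩ := exists_par (det x) x' hx'U.1 hdet'
    obtain ⟨a, b, hab, ha, hb⟩ := Lat.exists_near x'.2.2.1 σ
    set g₂ : Gam := Gam.mk 0 a b hab with hg₂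
    have hx'' : act g₂ x' = (x'.1 + b * x'.2.2.2.1, x'.2.1 + b * x'.2.2.2.2, x'.2.2.1 + a,
        x'.2.2.2.1, x'.2.2.2.2) := by
      simp [act, hg₂, Gam.mk, Gam.k, Gam.a, Gam.b]
    refine ⟨g₂ * g₁, ?_⟩
    rw [act_mul, ← hx', hx'']
    have hns : 1 ≤ ‖nsq x'.2.2.2‖ := by
      rw [nsq_eq, Complex.norm_real, Real.norm_of_nonneg (by positivity)]
      rw [Prod.norm_def] at hy1
      rcases le_max_iff.1 hy1 with h | h
      · nlinarith [sq_nonneg ‖x'.2.2.2.2‖]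
      · nlinarith [sq_nonneg ‖x'.2.2.2.1‖]
    have hy1' : ‖x'.2.2.2.1‖ ≤ 2 := (norm_fst_le _).trans hy2
    have hy2' : ‖x'.2.2.2.2‖ ≤ 2 := (norm_snd_le _).trans hy2
    have hdn : ‖det x‖ ≤ 1 := hx.2.le
    have hquot : ∀ z : ℂ, ‖z‖ ≤ 2 → ‖det x * (starRingEnd ℂ) z / nsq x'.2.2.2‖ ≤ 2 := by
      intro z hz
      rw [norm_div, norm_mul, RCLike.norm_conj, div_le_iff₀ (by linarith)]
      nlinarith [norm_nonneg z, norm_nonneg (det x)]
    have hf1 : x'.1 = σ * x'.2.2.2.1 + det x * (starRingEnd ℂ) x'.2.2.2.2 / nsq x'.2.2.2 := by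
      have := congrArg (fun q : E5 => q.1) hσ
      simpa [par] using this
    have hf2 : x'.2.1 = σ * x'.2.2.2.2 - det x * (starRingEnd ℂ) x'.2.2.2.1 / nsq x'.2.2.2 := by
      have := congrArg (fun q : E5 => q.2.1) hσ
      simpa [par] using this
    have hc1 : ‖x'.1 + b * x'.2.2.2.1‖ ≤ 10 := by
      have e : x'.1 + b * x'.2.2.2.1 = (σ + b) * x'.2.2.2.1 +
          det x * (starRingEnd ℂ) x'.2.2.2.2 / nsq x'.2.2.2 := by rw [hf1]; ring
      rw [e]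
      refine (norm_add_le _ _).trans ?_
      rw [norm_mul]
      have := hquot _ hy2'
      nlinarith [norm_nonneg (σ + b), norm_nonneg x'.2.2.2.1]
    have hc2 : ‖x'.2.1 + b * x'.2.2.2.2‖ ≤ 10 := by
      have e : x'.2.1 + b * x'.2.2.2.2 = (σ + b) * x'.2.2.2.2 -
          det x * (starRingEnd ℂ) x'.2.2.2.1 / nsq x'.2.2.2 := by rw [hf2]; ring
      rw [e]
      refine (norm_sub_le _ _).trans ?_
      rw [norm_mul]
      have := hquot _ hy1'
      nlinarith [norm_nonneg (σ + b), norm_nonneg x'.2.2.2.2]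
    refine ⟨?_, ?_, hy1⟩
    · rw [mem_closedBall_zero_iff]
      simp only [Prod.norm_def]
      refine max_le hc1 (max_le hc2 (max_le (by linarith) (max_le (by linarith) (by linarith))))
    · have e : det (act g₂ x') = det x := by rw [det_act, hdet']
      rw [hx''] at e
      rw [e]
      exact hxK

/-- the family -/
noncomputable def fam : GFam E5 where
  U := U
  isOpen := isOpen_U
  nonempty := ⟨(0, 0, 0, 0, 1), by
    refine ⟨?_, by simp [det]⟩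
    intro h
    have := congrArg Prod.snd h
    simp at this⟩
  act := act
  mem := act_mem
  one := fun x _ => act_one x
  mul := fun g h x _ => act_mul g h x
  diff := act_diff
  bdd := act_bdd
  free := act_free
  π := det
  π_inv := fun g x _ => det_act g x
  π_diff := det_differentiable
  π_sub := det_sub
  π_range := det_range
  π_proper := proper
  π_conn := conn

/-- the fibres over `t ≠ 0` are good -/
lemma extClosed {t : ℂ} (ht : t ≠ 0) : ExtClosed fam.quot (fam.proj ⁻¹' {t}) := by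
  intro V _ _ D T hD hDc hT hTne hTD _ F hF hFT z hz
  obtain ⟨z₁, hz₁⟩ := hTne
  have hproj : ∀ w, F w ∈ U → fam.proj (fam.quot.Q (F w)) = det (F w) := fun w hw =>
    fam.proj_Q hw
  have h1 : ∀ w ∈ T, F w ∈ U ∧ det (F w) = t := by
    intro w hw
    refine ⟨(hFT w hw).1, ?_⟩
    rw [← hproj w (hFT w hw).1]
    exact (hFT w hw).2
  have hdd : DifferentiableOn ℂ (fun w => det (F w) - t) D := by
    intro w hw
    exact ((det_differentiable (F w)).comp_differentiableWithinAt w (hF w hw)).sub_const t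
  have h0 : ∀ᶠ w in 𝓝 z₁, det (F w) - t = 0 := by
    filter_upwards [hT.mem_nhds hz₁] with w hw
    rw [(h1 w hw).2, sub_self]
  have h2 : det (F z) = t := sub_eq_zero.1 (eqOn_zero_of_convex hD hDc hdd (hTD hz₁) h0 z hz)
  have h3 : F z ∈ U := by
    refine ⟨?_, ?_⟩
    · intro h
      apply ht
      rw [← h2, det]
      have e1 : (F z).2.2.2.1 = 0 := congrArg Prod.fst h
      have e2 : (F z).2.2.2.2 = 0 := congrArg Prod.snd h
      rw [e1, e2]; ring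
    · rw [h2, ← (h1 z₁ hz₁).2]
      exact (h1 z₁ hz₁).1.2
  refine ⟨h3, ?_⟩
  show fam.proj (fam.quot.Q (F z)) = t
  rw [hproj z h3, h2]

end Pool.Agent.Helper417.Mer.Closed
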