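import Mathlib
import Pool.Agent.Helper417.Mer.ExClosed
import Pool.Agent.Helper417.Mer.Bad

set_option autoImplicit false
set_option linter.unusedSectionVars false
open scoped Manifold ContDiff Topology
open Set Metric Filter

/-! The fibre over `0` of the family of `ExClosed` contains a Hopf surface, and does not have the
meromorphic extension property. -/

namespace Pool.Agent.Helper417.Mer.Closed

/-- the lift of the map to the Hopf surface -/
noncomputable def fl (p : V2) : E5 := (0, 0, 0, p.1 0 - 1 / 2, p.2)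

lemma fl_diff : Differentiable ℂ fl := by
  have h0 : Differentiable ℂ (fun p : V2 => p.1 0) := by fun_prop
  unfold fl
  fun_prop

/-- the hole -/
noncomputable def p0 : V2 := (fun _ => 1 / 2, 0)

lemma fl_mem {p : V2} (hp : p ≠ p0) : fl p ∈ U := by
  refine ⟨?_, ?_⟩
  · intro h
    apply hp
    have h1 : p.1 0 - 1 / 2 = 0 := congrArg Prod.fst h
    have h2 : p.2 = 0 := congrArg Prod.snd h
    refine Prod.ext ?_ h2
    funext i
    have : i = 0 := Subsingleton.elim _ _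
    rw [this]
    show p.1 0 = 1 / 2
    linear_combination h1
  · simp [det, fl]

lemma det_fl (p : V2) : det (fl p) = 0 := by simp [det, fl]

lemma p0_not_mem : p0 ∉ hartogs 1 (1 / 4) := by
  rintro ⟨-, -, h | h⟩
  · have : ‖p0.1‖ = 1 / 2 := by
      simp only [p0]
      rw [pi_norm_const]
      norm_num
    rw [this] at h
    norm_num at h
  · simp [p0] at h
    norm_num at h

lemma p0_mem : p0 ∈ polydisc 1 := by
  refine ⟨?_, by simp [p0]⟩
  have : ‖p0.1‖ = 1 / 2 := by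
    simp only [p0]
    rw [pi_norm_const]
    norm_num
  rw [this]; norm_num

/-- the map to the Hopf surface -/
noncomputable def f (p : V2) : fam.Tot := fam.quot.Q (fl p)

lemma f_mdiff {p : V2} (hp : p ≠ p0) :
    letI := fam.quot.cs
    MDifferentiableAt 𝓘(ℂ, V2) 𝓘(ℂ, E5) f p := by
  let _ := fam.quot.cs
  exact fam.quot.mdifferentiableAt_Q (fl_diff p) (fl_mem hp)

lemma f_proj {p : V2} (hp : p ≠ p0) : fam.proj (f p) = 0 := by
  show fam.proj (fam.quot.Q (fl p)) = 0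
  rw [fam.proj_Q (fl_mem hp)]
  exact det_fl p

/-- the direction -/
noncomputable def dir (s : ℂ) : V2 := (fun _ => 1 / 2 + s, 0)

lemma dir_zero : dir 0 = p0 := by simp [dir, p0]

lemma dir_diff : Differentiable ℂ dir := by unfold dir; fun_prop

lemma dir_ne {s : ℂ} (hs : s ≠ 0) : dir s ≠ p0 := by
  intro h
  have := congrFun (congrArg Prod.fst h) 0
  simp [dir, p0] at this
  exact hs this

lemma fl_dir (s : ℂ) : fl (dir s) = (0, 0, 0, s, 0) := by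
  simp [fl, dir]

/-- the point of the Hopf surface -/
noncomputable def xv : fam.Tot := fam.quot.Q (0, 0, 0, 1, 0)

lemma v_mem {s : ℂ} (hs : s ≠ 0) : ((0, 0, 0, s, 0) : E5) ∈ U := by
  rw [← fl_dir]; exact fl_mem (dir_ne hs)

lemma f_dir_pow (n : ℕ) : f (dir ((gr : ℂ)⁻¹ ^ n)) = xv := by
  show fam.quot.Q (fl (dir ((gr : ℂ)⁻¹ ^ n))) = fam.quot.Q (0, 0, 0, 1, 0)
  rw [fl_dir, ← fam.Q_act (Gam.mk (-n) 0 0 Lat.zero) (v_mem one_ne_zero)]
  congr 1
  show _ = act _ _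
  simp [act, Gam.mk, Gam.k, Gam.a, Gam.b]

lemma f_dir_neg (n : ℕ) : f (dir (-(gr : ℂ)⁻¹ ^ n)) ≠ xv := by
  intro h
  have hne : -(gr : ℂ)⁻¹ ^ n ≠ 0 := neg_ne_zero.2 (pow_ne_zero _ (inv_ne_zero grC_ne))
  have h' : fam.quot.Q (0, 0, 0, -(gr : ℂ)⁻¹ ^ n, 0) = fam.quot.Q (0, 0, 0, 1, 0) := by
    rw [← fl_dir]; exact h
  obtain ⟨g, hg⟩ := fam.Q_eq_iff (v_mem hne) (v_mem one_ne_zero) h'
  have hg' : ((0, 0, 0, -(gr : ℂ)⁻¹ ^ n, 0) : E5) = act g (0, 0, 0, 1, 0) := hg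
  have h1 := congrArg (fun q : E5 => q.2.2.2.1) hg'
  simp only [act, mul_one] at h1
  have h2 : -(gr⁻¹ ^ n) = gr ^ g.k := by
    have : ((-(gr⁻¹ ^ n) : ℝ) : ℂ) = ((gr ^ g.k : ℝ) : ℂ) := by
      push_cast
      exact h1
    exact_mod_cast this
  have h3 : 0 < gr ^ g.k := zpow_pos gr_pos _
  have h4 : 0 < gr⁻¹ ^ n := pow_pos (inv_pos.2 gr_pos) _
  linarith

/-- The fibre over `0` does not have the meromorphic extension property. -/
theorem not_hasMeromorphicExtension :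
    letI := fam.quot.cs
    ¬ HasMeromorphicExtension E5 (fam.proj ⁻¹' {0}) := by
  let _ := fam.quot.cs
  have hT2 := fam.t2
  have hMan : IsManifold 𝓘(ℂ, E5) ω fam.Tot := fam.quot.isManifold
  have hMan1 : IsManifold 𝓘(ℂ, E5) 1 fam.Tot := IsManifold.of_le (n := ω) le_top
  intro hext
  -- the map on the Hartogs figure
  have hmer : IsMeromorphicMap E5 (hartogs 1 (1 / 4)) (fam.proj ⁻¹' {0}) ∅ f := by
    have hne : ∀ p ∈ hartogs 1 (1 / 4), p ≠ p0 := fun p hp h => p0_not_mem (h ▸ hp)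
    have hmd : MDifferentiableOn 𝓘(ℂ, V2) 𝓘(ℂ, E5) f (hartogs 1 (1 / 4)) := fun p hp =>
      (f_mdiff (hne p hp)).mdifferentiableWithinAt
    refine ⟨⟨empty_subset _, fun x hx => ⟨hartogs 1 (1 / 4), isOpen_hartogs _ _, hx, subset_rfl,
      1, fun _ _ => 1, mdifferentiableOn_const, ?_⟩⟩, fun p hp => hp.elim, ?_, ?_, ?_⟩
    · ext y
      constructor
      · rintro ⟨h, -⟩; exact h.elim
      · rintro ⟨-, h⟩
        have := congrFun h 0
        simp at this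
    · rw [sdiff_empty]; exact hmd
    · rintro p ⟨hp, -⟩
      exact f_proj (hne p hp)
    · rw [sdiff_empty]
      exact graph_analytic (isOpen_hartogs _ _) hmd
  obtain ⟨B, F, hF, hFf⟩ := hext 1 (1 / 4) (by norm_num) (by norm_num) ∅ f hmer
  set D := polydisc 1 with hDdef
  have hDo : IsOpen D := isOpen_polydisc 1
  -- the bad set
  have hthin : ∀ x ∈ D, ∃ W : Set V2, IsOpen W ∧ x ∈ W ∧ (B ∪ {p0}) ∩ W ⊆ {x} := by
    intro x hx
    obtain ⟨W, hW, hxW, -, hBW⟩ := discrete hF.analytic hF.codim hx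
    by_cases hxp : x = p0
    · refine ⟨W, hW, hxW, ?_⟩
      rintro y ⟨hy | hy, hyW⟩
      · exact hBW ⟨hy, hyW⟩
      · rw [hxp]; exact hy
    · refine ⟨W ∩ {p0}ᶜ, hW.inter isOpen_compl_singleton, ⟨hxW, hxp⟩, ?_⟩
      rintro y ⟨hy | hy, hyW, hyp⟩
      · exact hBW ⟨hy, hyW⟩
      · exact absurd hy hyp
  obtain ⟨hD'o, hD'c, hD'd⟩ := connected_compl hDo (convex_polydisc 1) ⟨p0, p0_mem⟩ hthin
  -- `F = f` there
  have hmF : MDifferentiableOn 𝓘(ℂ, V2) 𝓘(ℂ, E5) F (D \ (B ∪ {p0})) :=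
    hF.holo.mono (sdiff_subset_sdiff_right subset_union_left)
  have hmf : MDifferentiableOn 𝓘(ℂ, V2) 𝓘(ℂ, E5) f (D \ (B ∪ {p0})) := fun p hp =>
    (f_mdiff (fun h => hp.2 (Or.inr h))).mdifferentiableWithinAt
  have h0H : (0 : V2) ∈ hartogs 1 (1 / 4) := by
    refine ⟨by simp, by simp, Or.inl (by simp)⟩
  obtain ⟨z₁, hz₁H, hz₁D⟩ := mem_closure_iff_nhds.1 (hD'd (hartogs_subset _ _ h0H)) _
    ((isOpen_hartogs 1 (1 / 4)).mem_nhds h0H)
  have hFe : F =ᶠ[𝓝 z₁] f := by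
    filter_upwards [(isOpen_hartogs 1 (1 / 4)).mem_nhds hz₁H, hD'o.mem_nhds hz₁D] with p h1 h2
    exact hFf p h1 (notMem_empty _) (fun h => h2.2 (Or.inl h))
  have hEq : EqOn F f (D \ (B ∪ {p0})) :=
    eqOn_of_preconnected hD'o hD'c.isPreconnected hmF hmf hz₁D hFe
  -- near the hole
  obtain ⟨W₀, hW₀, hpW₀, hBW₀⟩ := hthin p0 p0_mem
  have hdir : Tendsto dir (𝓝 0) (𝓝 p0) := by
    have := dir_diff.continuous.tendsto 0
    rwa [dir_zero] at this
  have hnear : ∀ᶠ s : ℂ in 𝓝 0, s ≠ 0 → dir s ∈ D \ (B ∪ {p0}) := by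
    filter_upwards [hdir.eventually (hW₀.mem_nhds hpW₀), hdir.eventually (hDo.mem_nhds p0_mem)]
      with s h1 h2 hs
    refine ⟨h2, fun h => dir_ne hs ?_⟩
    exact hBW₀ ⟨h, h1⟩
  have hpow : Tendsto (fun n : ℕ => (gr : ℂ)⁻¹ ^ n) atTop (𝓝 0) := by
    apply tendsto_pow_atTop_nhds_zero_of_norm_lt_one
    rw [norm_inv, Complex.norm_real, Real.norm_of_nonneg gr_pos.le]
    exact inv_lt_one_of_one_lt₀ gr_gt
  have hpow0 : ∀ n : ℕ, (gr : ℂ)⁻¹ ^ n ≠ 0 := fun n => pow_ne_zero _ (inv_ne_zero grC_ne)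
  set G : Set (V2 × fam.Tot) := {p | p.1 ∈ D \ B ∧ F p.1 = p.2} with hG
  have hmemG : ∀ᶠ n : ℕ in atTop, (dir ((gr : ℂ)⁻¹ ^ n), xv) ∈ G := by
    filter_upwards [hpow.eventually hnear] with n hn
    have h1 := hn (hpow0 n)
    refine ⟨⟨h1.1, fun h => h1.2 (Or.inl h)⟩, ?_⟩
    show F (dir ((gr : ℂ)⁻¹ ^ n)) = xv
    rw [hEq h1, f_dir_pow]
  -- the germ
  have hgr := hF.graph.2 (p0, xv) ⟨p0_mem, mem_univ _⟩
  obtain ⟨W, hW, hpW, hWD, m, g, hg, hgW⟩ := hgr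
  have hcurve : ∀ᶠ s : ℂ in 𝓝 0, (dir s, xv) ∈ W := by
    have : Tendsto (fun s : ℂ => (dir s, xv)) (𝓝 0) (𝓝 (p0, xv)) :=
      hdir.prodMk_nhds tendsto_const_nhds
    exact this.eventually (hW.mem_nhds hpW)
  obtain ⟨ε, hε, hb⟩ := Metric.eventually_nhds_iff_ball.1 hcurve
  have hgd : DifferentiableOn ℂ (fun s => g (dir s, xv)) (ball 0 ε) := by
    intro s hs
    have h1 : MDifferentiableAt (𝓘(ℂ, V2).prod 𝓘(ℂ, E5)) 𝓘(ℂ, Fin m → ℂ) g (dir s, xv) :=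
      (hg _ (hb s hs)).mdifferentiableAt (hW.mem_nhds (hb s hs))
    have h2 : MDifferentiableAt 𝓘(ℂ, ℂ) (𝓘(ℂ, V2).prod 𝓘(ℂ, E5)) (fun s : ℂ => (dir s, xv)) s :=
      (dir_diff s).mdifferentiableAt.prodMk mdifferentiableAt_const
    exact (h1.comp s h2).differentiableAt.differentiableWithinAt
  have hana : AnalyticOnNhd ℂ (fun s => g (dir s, xv)) (ball 0 ε) :=
    hgd.analyticOnNhd isOpen_ball
  have hfreq : ∃ᶠ s : ℂ in 𝓝[≠] 0, g (dir s, xv) = 0 := by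
    have ht : Tendsto (fun n : ℕ => (gr : ℂ)⁻¹ ^ n) atTop (𝓝[≠] 0) :=
      tendsto_nhdsWithin_iff.2 ⟨hpow, Eventually.of_forall hpow0⟩
    apply ht.frequently
    apply Eventually.frequently
    filter_upwards [hmemG, hpow.eventually hcurve] with n h1 h2
    have h3 : (dir ((gr : ℂ)⁻¹ ^ n), xv) ∈
        (closure G ∩ D ×ˢ (univ : Set fam.Tot)) ∩ W :=
      ⟨⟨subset_closure h1, hWD h2⟩, h2⟩
    rw [hgW] at h3
    exact h3.2
  have hzero : ∀ᶠ s : ℂ in 𝓝 0, g (dir s, xv) = 0 :=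
    (hana 0 (mem_ball_self hε)).frequently_zero_iff_eventually_zero.1 hfreq
  have hneg : Tendsto (fun n : ℕ => -(gr : ℂ)⁻¹ ^ n) atTop (𝓝 0) := by
    have := hpow.neg
    rwa [neg_zero] at this
  obtain ⟨n, h1, h2, h3⟩ := ((hneg.eventually hzero).and ((hneg.eventually hnear).and
    (hneg.eventually hcurve))).exists
  have h2' := h2 (neg_ne_zero.2 (hpow0 n))
  have h4 : (dir (-(gr : ℂ)⁻¹ ^ n), xv) ∈ (closure G ∩ D ×ˢ (univ : Set fam.Tot)) ∩ W := by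
    rw [hgW]
    exact ⟨h3, h1⟩
  have hDB : IsOpen (D \ B) := isOpen_diff_of_analytic hF.analytic
  have h5 := graph_closed hDB hF.holo ⟨h2'.1, fun h => h2'.2 (Or.inl h)⟩ h4.1.1
  rw [hEq h2'] at h5
  exact f_dir_neg n h5

end Pool.Agent.Helper417.Mer.Closed
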