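import Mathlib
import Pool.Agent.Helper417.Mer.Fam
import Pool.Agent.Helper417.Mer.Good

set_option autoImplicit false
set_option linter.unusedSectionVars false
open scoped Manifold ContDiff Topology
open Set Metric Filter

/-! The family `{(t, ζ, z, w) : ζ ≠ t conj z} / Γ`. -/

namespace Pool.Agent.Helper417.Mer.Opn

/-- `ℂ⁴` -/
abbrev E4 : Type := ℂ × ℂ × ℂ × ℂ

/-- the multiplicative coordinate -/
noncomputable def wf (p : E4) : ℂ := p.2.1 - p.1 * (starRingEnd ℂ) p.2.2.1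

/-- the universal cover -/
def U : Set E4 := {p | wf p ≠ 0 ∧ ‖p.1‖ < 1}

/-- the action -/
noncomputable def act (g : Gam) (p : E4) : E4 :=
  (p.1, (lam : ℂ) ^ g.k * p.2.1 + (starRingEnd ℂ) g.a * p.1,
   (lam : ℂ) ^ g.k * p.2.2.1 + g.a, (mu : ℂ) ^ g.k * p.2.2.2 + g.b)

lemma conj_lam (k : ℤ) : (starRingEnd ℂ) ((lam : ℂ) ^ k) = (lam : ℂ) ^ k := by
  rw [map_zpow₀, Complex.conj_ofReal]

lemma wf_act (g : Gam) (p : E4) : wf (act g p) = (lam : ℂ) ^ g.k * wf p := by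
  simp only [wf, act, map_add, map_mul, conj_lam]
  ring

lemma continuous_wf : Continuous wf := by
  have : Continuous (starRingEnd ℂ) := Complex.continuous_conj
  unfold wf
  fun_prop

lemma isOpen_U : IsOpen U := by
  have h1 : IsOpen {p : E4 | wf p ≠ 0} := isOpen_ne_fun continuous_wf continuous_const
  have h2 : IsOpen {p : E4 | ‖p.1‖ < 1} := isOpen_lt (by fun_prop) continuous_const
  exact h1.inter h2

lemma act_mem (g : Gam) (p : E4) (hp : p ∈ U) : act g p ∈ U := by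
  refine ⟨?_, hp.2⟩
  rw [wf_act]
  exact mul_ne_zero (zpow_ne_zero _ lamC_ne) hp.1

lemma act_one (p : E4) : act 1 p = p := by
  simp [act, Gam.one_k, Gam.one_a, Gam.one_b]

lemma act_mul (g h : Gam) (p : E4) : act (g * h) p = act g (act h p) := by
  have e2 : (mu : ℂ) ^ (g.k + h.k) = (mu : ℂ) ^ g.k * (mu : ℂ) ^ h.k := zpow_add₀ muC_ne _ _
  have e3 : (lam : ℂ) ^ (g.k + h.k) = (lam : ℂ) ^ g.k * (lam : ℂ) ^ h.k := zpow_add₀ lamC_ne _ _
  simp only [act, Gam.mul_k, Gam.mul_a, Gam.mul_b, e2, e3, map_add, map_mul, conj_lam]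
  refine Prod.ext rfl (Prod.ext ?_ (Prod.ext ?_ ?_))
  · simp only; ring
  · simp only; ring
  · simp only; ring

lemma act_diff (g : Gam) : ContDiff ℂ ω (act g) := by
  unfold act
  fun_prop

lemma norm_gr_zpow (k : ℤ) : ‖(gr : ℂ) ^ k‖ = gr ^ k := by
  rw [norm_zpow, Complex.norm_real, Real.norm_of_nonneg gr_pos.le]

lemma norm_lam_zpow (k : ℤ) : ‖(lam : ℂ) ^ k‖ = lam ^ k := by
  rw [norm_zpow, Complex.norm_real, Real.norm_of_nonneg lam_pos.le]

lemma norm_mu_zpow (k : ℤ) : ‖(mu : ℂ) ^ k‖ = mu ^ k := by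
  rw [norm_zpow, Complex.norm_real, Real.norm_of_nonneg mu_pos.le]

lemma mu_zpow (k : ℤ) : mu ^ k = lam ^ (-k) := by
  have : mu = lam⁻¹ := eq_inv_of_mul_eq_one_right lam_mul_mu
  rw [this, inv_zpow, zpow_neg]

lemma lam_zpow_inj {k l : ℤ} (h : (lam : ℂ) ^ k = (lam : ℂ) ^ l) : k = l := by
  have h1 : lam ^ k = lam ^ l := by
    rw [← norm_lam_zpow, ← norm_lam_zpow, h]
  exact zpow_right_injective₀ lam_pos lam_gt.ne' h1

lemma act_free (g h : Gam) (p : E4) (hp : p ∈ U) (he : act g p = act h p) : g = h := by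
  have hw : (lam : ℂ) ^ g.k * wf p = (lam : ℂ) ^ h.k * wf p := by
    rw [← wf_act, ← wf_act, he]
  have hk : g.k = h.k := lam_zpow_inj (mul_right_cancel₀ hp.1 hw)
  have ha : g.a = h.a := by
    have := congrArg (fun q : E4 => q.2.2.1) he
    simp only [act, hk] at this
    exact add_left_cancel this
  have hb : g.b = h.b := by
    have := congrArg (fun q : E4 => q.2.2.2) he
    simp only [act, hk] at this
    exact add_left_cancel this
  exact Gam.ext hk ha hb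

lemma act_bdd (K : Set E4) (hK : IsCompact K) (hKU : K ⊆ U) : ∃ (N : ℤ) (R : ℝ), ∀ g x,
    x ∈ K → act g x ∈ K → |g.k| ≤ N ∧ ‖g.a‖ ≤ R ∧ ‖g.b‖ ≤ R := by
  obtain ⟨C₁, hC₁⟩ := hK.isBounded.exists_norm_le
  have hcont : ContinuousOn (fun p : E4 => ‖wf p‖⁻¹) K := by
    apply ContinuousOn.inv₀ (continuous_wf.norm.continuousOn)
    intro p hp
    exact norm_ne_zero_iff.2 (hKU hp).1
  obtain ⟨C₂, hC₂⟩ := (hK.bddAbove_image hcont)
  obtain ⟨C₃, hC₃⟩ := (hK.bddAbove_image continuous_wf.norm.continuousOn)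
  set C : ℝ := max 1 (max C₁ (max C₂ C₃)) with hC
  have hC1 : 1 ≤ C := le_max_left _ _
  have hCa : ∀ p ∈ K, ‖p‖ ≤ C := fun p hp =>
    (hC₁ p hp).trans ((le_max_left _ _).trans (le_max_right _ _))
  have hCc : ∀ p ∈ K, ‖wf p‖ ≤ C := fun p hp =>
    (hC₃ ⟨p, hp, rfl⟩).trans ((le_max_right _ _).trans ((le_max_right _ _).trans (le_max_right _ _)))
  have hCb : ∀ p ∈ K, 1 ≤ C * ‖wf p‖ := by
    intro p hp
    have h1 : ‖wf p‖⁻¹ ≤ C :=
      (hC₂ ⟨p, hp, rfl⟩).trans ((le_max_left _ _).trans ((le_max_right _ _).trans (le_max_right _ _)))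
    have h2 : 0 < ‖wf p‖ := norm_pos_iff.2 (hKU hp).1
    rw [inv_le_iff_one_le_mul₀ h2] at h1
    exact h1
  obtain ⟨N, hN⟩ := abs_le_of_zpow (C ^ 2)
  refine ⟨N, C + C ^ 2 * C, ?_⟩
  intro g x hx hgx
  have hpos : 0 < C := lt_of_lt_of_le one_pos hC1
  have hwn : ‖wf (act g x)‖ = lam ^ g.k * ‖wf x‖ := by rw [wf_act, norm_mul, norm_lam_zpow]
  have h4 : 0 < lam ^ g.k := zpow_pos lam_pos _
  have hk1 : lam ^ g.k ≤ C ^ 2 := by
    have h2 := hCc _ hgx
    rw [hwn] at h2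
    have h3 := hCb x hx
    calc lam ^ g.k = lam ^ g.k * 1 := (mul_one _).symm
      _ ≤ lam ^ g.k * (C * ‖wf x‖) := by gcongr
      _ = C * (lam ^ g.k * ‖wf x‖) := by ring
      _ ≤ C * C := by gcongr
      _ = C ^ 2 := by ring
  have hk2 : lam ^ (-g.k) ≤ C ^ 2 := by
    have h2 := hCc _ hx
    have h3 := hCb _ hgx
    rw [hwn] at h3
    rw [zpow_neg, inv_le_iff_one_le_mul₀ h4]
    calc (1 : ℝ) ≤ C * (lam ^ g.k * ‖wf x‖) := h3
      _ ≤ C * (lam ^ g.k * C) := by gcongr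
      _ = C ^ 2 * lam ^ g.k := by ring
  have hlg : ∀ k : ℤ, lam ^ k = gr ^ (2 * k) := by
    intro k
    rw [lam, ← zpow_natCast gr 2, ← zpow_mul]
    norm_num
  have hkN : |g.k| ≤ N := by
    have h5 := hN (2 * g.k) (by rw [← hlg]; exact hk1)
      (by rw [show -(2 * g.k) = 2 * (-g.k) by ring, ← hlg]; exact hk2)
    rw [abs_mul] at h5
    have : |(2 : ℤ)| = 2 := rfl
    rw [this] at h5
    have := abs_nonneg g.k
    omega
  have hz2 : ∀ p : E4, ‖p.2.2.1‖ ≤ ‖p‖ := fun p =>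
    (norm_fst_le _).trans ((norm_snd_le _).trans (norm_snd_le _))
  have hz3 : ∀ p : E4, ‖p.2.2.2‖ ≤ ‖p‖ := fun p =>
    (norm_snd_le _).trans ((norm_snd_le _).trans (norm_snd_le _))
  refine ⟨hkN, ?_, ?_⟩
  · have h1 : g.a = (act g x).2.2.1 - (lam : ℂ) ^ g.k * x.2.2.1 := by simp [act]
    rw [h1]
    refine (norm_sub_le _ _).trans ?_
    rw [norm_mul, norm_lam_zpow]
    have a1 := (hz2 _).trans (hCa _ hgx)
    have a2 := (hz2 _).trans (hCa _ hx)
    gcongr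
  · have h1 : g.b = (act g x).2.2.2 - (mu : ℂ) ^ g.k * x.2.2.2 := by simp [act]
    rw [h1]
    refine (norm_sub_le _ _).trans ?_
    rw [norm_mul, norm_mu_zpow, mu_zpow]
    have a1 := (hz3 _).trans (hCa _ hgx)
    have a2 := (hz3 _).trans (hCa _ hx)
    gcongr

/-- parametrization of the fibres -/
noncomputable def par (t : ℂ) (q : ℂ × ℂ × ℂ) : E4 :=
  (t, q.1 + t * (starRingEnd ℂ) q.2.1, q.2.1, q.2.2)

lemma wf_par (t : ℂ) (q : ℂ × ℂ × ℂ) : wf (par t q) = q.1 := by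
  simp [wf, par]

lemma continuous_par (t : ℂ) : Continuous (par t) := by
  have : Continuous (starRingEnd ℂ) := Complex.continuous_conj
  unfold par
  fun_prop

lemma act_par (g : Gam) (t : ℂ) (q : ℂ × ℂ × ℂ) : act g (par t q) =
    par t ((lam : ℂ) ^ g.k * q.1, (lam : ℂ) ^ g.k * q.2.1 + g.a, (mu : ℂ) ^ g.k * q.2.2 + g.b) := by
  simp only [act, par, map_add, map_mul, conj_lam]
  refine Prod.ext rfl (Prod.ext ?_ rfl)
  simp only
  ring

lemma exists_par {t : ℂ} {p : E4} (ht : p.1 = t) : p = par t (wf p, p.2.2.1, p.2.2.2) := by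
  subst ht
  simp only [par, wf]
  refine Prod.ext rfl (Prod.ext ?_ rfl)
  simp only
  ring

lemma par_mem {t : ℂ} (ht : ‖t‖ < 1) {q : ℂ × ℂ × ℂ} (hq : q.1 ≠ 0) : par t q ∈ U :=
  ⟨by rw [wf_par]; exact hq, ht⟩

lemma conn (t : ℂ) (ht : t ∈ ball (0 : ℂ) 1) : IsConnected {p : E4 | p ∈ U ∧ p.1 = t} := by
  have h1 : IsConnected ({0}ᶜ : Set ℂ) := by
    apply isConnected_compl_singleton_of_one_lt_rank
    rw [Complex.rank_real_complex]
    norm_num
  have h2 : IsConnected (({0}ᶜ : Set ℂ) ×ˢ (univ : Set (ℂ × ℂ))) :=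
    h1.prod isConnected_univ
  have h4 := h2.image _ (continuous_par t).continuousOn
  convert h4 using 1
  ext p
  constructor
  · rintro ⟨hp, hpt⟩
    exact ⟨(wf p, p.2.2.1, p.2.2.2), ⟨hp.1, mem_univ _⟩, (exists_par hpt).symm⟩
  · rintro ⟨q, ⟨hq, -⟩, rfl⟩
    exact ⟨par_mem (by simpa using ht) hq, rfl⟩

lemma proper (K : Set ℂ) (hK : K ⊆ ball (0 : ℂ) 1) (hKc : IsCompact K) :
    ∃ F : Set E4, IsCompact F ∧ F ⊆ U ∧ ∀ x ∈ U, x.1 ∈ K → ∃ g, act g x ∈ F := by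
  refine ⟨closedBall 0 10 ∩ {p | p.1 ∈ K ∧ 1 ≤ ‖wf p‖}, ?_, ?_, ?_⟩
  · apply (isCompact_closedBall _ _).inter_right
    have h1 : IsClosed {p : E4 | p.1 ∈ K} := hKc.isClosed.preimage continuous_fst
    have h2 : IsClosed {p : E4 | 1 ≤ ‖wf p‖} := isClosed_le continuous_const continuous_wf.norm
    exact h1.inter h2
  · rintro p ⟨-, h1, h2⟩
    refine ⟨?_, by simpa using hK h1⟩
    intro h0
    rw [h0, norm_zero] at h2
    linarith
  · intro x hx hxK
    have hy : 0 < ‖wf x‖ := norm_pos_iff.2 hx.1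
    obtain ⟨n, hn1, hn2⟩ := exists_mem_Ico_zpow hy lam_gt
    set g₁ : Gam := Gam.mk (-n) 0 0 Lat.zero with hg₁
    set x' := act g₁ x with hx'
    have hk₁ : g₁.k = -n := rfl
    have hy' : ‖wf x'‖ = lam ^ (-n) * ‖wf x‖ := by rw [hx', wf_act, norm_mul, norm_lam_zpow, hk₁]
    have hgn : 0 < lam ^ (-n) := zpow_pos lam_pos _
    have hmul : lam ^ (-n) * lam ^ n = 1 := by
      rw [← zpow_add₀ lam_pos.ne']; simp
    have hy1 : 1 ≤ ‖wf x'‖ := by
      rw [hy', ← hmul]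
      gcongr
    have hy2 : ‖wf x'‖ ≤ 3 := by
      rw [hy']
      calc lam ^ (-n) * ‖wf x‖ ≤ lam ^ (-n) * lam ^ (n + 1) := by gcongr
        _ = lam ^ (-n) * lam ^ n * lam := by rw [zpow_add_one₀ lam_pos.ne']; ring
        _ ≤ 3 := by rw [hmul, one_mul]; exact lam_lt.le
    obtain ⟨a, b, hab, ha, hb⟩ := Lat.exists_near x'.2.2.1 x'.2.2.2
    set g₂ : Gam := Gam.mk 0 a b hab with hg₂
    have hx'1 : x'.1 = x.1 := rfl
    have hx'' : act g₂ x' = par x.1 (wf x', x'.2.2.1 + a, x'.2.2.2 + b) := by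
      conv_lhs => rw [exists_par hx'1]
      rw [act_par]
      simp [hg₂, Gam.mk, Gam.k, Gam.a, Gam.b]
    refine ⟨g₂ * g₁, ?_⟩
    rw [act_mul, ← hx', hx'']
    have hxn : ‖x.1‖ ≤ 1 := hx.2.le
    refine ⟨?_, hxK, by rw [wf_par]; exact hy1⟩
    rw [mem_closedBall_zero_iff]
    simp only [Prod.norm_def, par]
    refine max_le (by linarith) (max_le ?_ (max_le (by linarith) (by linarith)))
    refine (norm_add_le _ _).trans ?_
    rw [norm_mul, RCLike.norm_conj]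
    nlinarith [norm_nonneg x.1, norm_nonneg (x'.2.2.1 + a)]

/-- the family -/
noncomputable def fam : GFam E4 where
  U := U
  isOpen := isOpen_U
  nonempty := ⟨(0, 1, 0, 0), by simp [U, wf]⟩
  act := act
  mem := act_mem
  one := fun x _ => act_one x
  mul := fun g h x _ => act_mul g h x
  diff := act_diff
  bdd := act_bdd
  free := act_free
  π := Prod.fst
  π_inv := fun _ _ _ => rfl
  π_diff := differentiable_fst
  π_sub := fun p _ c => ⟨(c, 0, 0, 0), by rw [fderiv_fst]; rfl⟩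
  π_range := by
    ext t
    constructor
    · rintro ⟨p, hp, rfl⟩
      simpa using hp.2
    · intro ht
      exact ⟨(t, 1, 0, 0), by simpa [U, wf] using ht, rfl⟩
  π_proper := proper
  π_conn := conn

/-- the central fibre is good -/
lemma extClosed : ExtClosed fam.quot (fam.proj ⁻¹' {0}) := by
  intro V _ _ D T hD hDc hT hTne hTD hext F hF hFT z hz
  obtain ⟨z₁, hz₁⟩ := hTne
  have hproj : ∀ w, F w ∈ U → fam.proj (fam.quot.Q (F w)) = (F w).1 := fun w hw =>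
    fam.proj_Q hw
  have h1 : ∀ w ∈ T, F w ∈ U ∧ (F w).1 = 0 := by
    intro w hw
    refine ⟨(hFT w hw).1, ?_⟩
    rw [← hproj w (hFT w hw).1]
    exact (hFT w hw).2
  have hdd : DifferentiableOn ℂ (fun w => (F w).1) D := fun w hw => (hF w hw).fst
  have hζ : DifferentiableOn ℂ (fun w => (F w).2.1) D := fun w hw => (hF w hw).snd.fst
  have h0 : ∀ᶠ w in 𝓝 z₁, (F w).1 = 0 := by
    filter_upwards [hT.mem_nhds hz₁] with w hw
    exact (h1 w hw).2
  have h2 : ∀ z ∈ D, (F z).1 = 0 := eqOn_zero_of_convex hD hDc hdd (hTD hz₁) h0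
  have h1' : ∀ w ∈ T, (F w).2.1 ≠ 0 := by
    intro w hw h
    apply (h1 w hw).1.1
    rw [wf, h, (h1 w hw).2]
    simp
  obtain ⟨G, hG, hGe⟩ := hext (fun w => ((F w).2.1)⁻¹)
    (fun w hw => ((hζ.mono hTD) w hw).inv (h1' w hw))
  have h3 : ∀ z ∈ D, (F z).2.1 * G z - 1 = 0 := by
    apply eqOn_zero_of_convex hD hDc ((hζ.mul hG).sub_const 1) (hTD hz₁)
    filter_upwards [hT.mem_nhds hz₁] with w hw
    simp only [Pi.mul_apply]
    rw [hGe hw, mul_inv_cancel₀ (h1' w hw), sub_self]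
  have h4 : F z ∈ U := by
    refine ⟨?_, ?_⟩
    · intro h
      rw [wf, h2 z hz, zero_mul, sub_zero] at h
      have := h3 z hz
      rw [h, zero_mul, zero_sub, neg_eq_zero] at this
      exact one_ne_zero this
    · rw [h2 z hz]; simp
  refine ⟨h4, ?_⟩
  show fam.proj (fam.quot.Q (F z)) = 0
  rw [hproj z h4]
  exact h2 z hz

end Pool.Agent.Helper417.Mer.Opn
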