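import Mathlib
import Pool.Agent.Helper417.Mer.ExOpen
import Pool.Agent.Helper417.Mer.Bad

set_option autoImplicit false
set_option linter.unusedSectionVars false
open scoped Manifold ContDiff Topology
open Set Metric Filter

/-! The fibres over `t ≠ 0` of the family of `ExOpen` do not have the meromorphic extension
property. -/

namespace Pool.Agent.Helper417.Mer.Opn

/-- a point of `ℂ²` -/
def mk2 (s A : ℂ) : V2 := (fun _ => s, A)

lemma norm_mk2 (s A : ℂ) : ‖(mk2 s A).1‖ = ‖s‖ := by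
  simp only [mk2]
  rw [pi_norm_const]

lemma mk2_eta (p : V2) : mk2 (p.1 0) p.2 = p := by
  refine Prod.ext ?_ rfl
  funext i
  have : i = 0 := Subsingleton.elim _ _
  rw [this]
  rfl

/-- the family of affine functions in `s` -/
noncomputable def gf (s A : ℂ) : ℂ := 3 / 2 + A - 7 / 16 * s * (4 - A ^ 2)

/-- the zero of `gf s A - conj A` -/
noncomputable def eta (A : ℂ) : ℂ := (3 / 2 + A - (starRingEnd ℂ) A) / (7 / 16 * (4 - A ^ 2))

lemma four_sub_ne {A : ℂ} (hA : ‖A‖ < 1) : (7 / 16 : ℂ) * (4 - A ^ 2) ≠ 0 := by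
  intro h
  have h1 : (4 : ℂ) - A ^ 2 = 0 := by
    rcases mul_eq_zero.1 h with h | h
    · norm_num at h
    · exact h
  have h2 : A ^ 2 = 4 := by linear_combination -h1
  have h3 : ‖A‖ ^ 2 = 4 := by rw [← norm_pow, h2]; norm_num
  nlinarith [norm_nonneg A]

lemma gf_eq_iff {s A : ℂ} (hA : ‖A‖ < 1) : gf s A = (starRingEnd ℂ) A ↔ s = eta A := by
  have h := four_sub_ne hA
  rw [eta, eq_div_iff h, gf]
  constructor
  · intro h1
    linear_combination -h1
  · intro h1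
    linear_combination -h1

/-- the pseudo-concavity estimate -/
lemma gf_ne {p : V2} (hp : p ∈ hartogs 1 (1 / 100)) : gf (p.1 0) p.2 ≠ (starRingEnd ℂ) p.2 := by
  obtain ⟨h1, h2, h3⟩ := hp
  set s := p.1 0 with hs
  set A := p.2 with hA
  have hns : ‖p.1‖ = ‖s‖ := by
    conv_lhs => rw [← mk2_eta p]
    rw [norm_mk2]
  rw [hns] at h1 h3
  intro heq
  have hs0 := norm_nonneg s
  have hA0 := norm_nonneg A
  rcases h3 with h3 | h3
  · -- small `s`
    have e : (3 / 2 : ℂ) + (A - (starRingEnd ℂ) A) = 7 / 16 * s * (4 - A ^ 2) := by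
      rw [gf] at heq
      linear_combination heq
    have hre : ((3 / 2 : ℂ) + (A - (starRingEnd ℂ) A)).re = 3 / 2 := by
      simp
    have h4 : (3 / 2 : ℝ) ≤ ‖(7 / 16 : ℂ) * s * (4 - A ^ 2)‖ := by
      rw [← hre, e]
      exact Complex.re_le_norm _
    have h5 : ‖(7 / 16 : ℂ) * s * (4 - A ^ 2)‖ ≤ 7 / 16 * (1 / 100) * 5 := by
      rw [norm_mul, norm_mul]
      have h6 : ‖(4 : ℂ) - A ^ 2‖ ≤ 5 := by
        refine (norm_sub_le _ _).trans ?_
        rw [norm_pow]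
        have : ‖(4 : ℂ)‖ = 4 := by norm_num
        nlinarith
      have h7 : ‖(7 / 16 : ℂ)‖ = 7 / 16 := by
        norm_num
      rw [h7]
      gcongr
    have h8 : (7 / 16 * (1 / 100) * 5 : ℝ) < 3 / 2 := by norm_num
    linarith
  · -- `A` near the boundary
    set X := ‖2 - A‖ with hX
    set Y := ‖2 * A - 1‖ with hY
    set δ := 1 - ‖A‖ ^ 2 with hδ
    have hmul : A * (starRingEnd ℂ) A = ((‖A‖ ^ 2 : ℝ) : ℂ) := by
      rw [Complex.mul_conj, Complex.normSq_eq_norm_sq]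
    have e : (A + 2) * (A - 1 / 2) = 7 / 16 * s * A * (2 - A) * (2 + A) - (δ : ℂ) := by
      have h4 := congrArg (fun z => A * z) heq
      simp only [gf] at h4
      rw [hmul] at h4
      rw [hδ]
      push_cast at h4 ⊢
      linear_combination h4
    have hXY : Y ^ 2 = X ^ 2 - 3 * δ := by
      rw [hX, hY, hδ, ← Complex.normSq_eq_norm_sq, ← Complex.normSq_eq_norm_sq,
        ← Complex.normSq_eq_norm_sq]
      simp [Complex.normSq_apply]
      ring
    have hδ0 : 0 ≤ δ := by rw [hδ]; nlinarith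
    have hδ1 : δ ≤ 1 / 50 := by
      rw [hδ]
      have : (99 / 100 : ℝ) < ‖A‖ := by linarith
      nlinarith
    have h2A : 1 ≤ ‖2 + A‖ := by
      have h := norm_sub_norm_le (2 : ℂ) (-A)
      rw [norm_neg, sub_neg_eq_add] at h
      have : ‖(2 : ℂ)‖ = 2 := by norm_num
      linarith
    have hX1 : 1 ≤ X := by
      have h := norm_sub_norm_le (2 : ℂ) A
      have : ‖(2 : ℂ)‖ = 2 := by norm_num
      rw [hX]
      linarith
    have hn : ‖2 + A‖ * (Y / 2) ≤ ‖2 + A‖ * (7 / 16 * X + δ) := by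
      have l1 : ‖(A + 2) * (A - 1 / 2)‖ = ‖2 + A‖ * (Y / 2) := by
        rw [norm_mul, add_comm A 2]
        congr 1
        have : A - 1 / 2 = (2 * A - 1) / 2 := by ring
        rw [this, norm_div, hY]
        norm_num
      have l2 : ‖(7 / 16 : ℂ) * s * A * (2 - A) * (2 + A) - (δ : ℂ)‖ ≤
          ‖2 + A‖ * (7 / 16 * X + δ) := by
        refine (norm_sub_le _ _).trans ?_
        rw [norm_mul, norm_mul, norm_mul, norm_mul, Complex.norm_real, Real.norm_of_nonneg hδ0]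
        have h7 : ‖(7 / 16 : ℂ)‖ = 7 / 16 := by norm_num
        rw [h7, ← hX]
        have m1 : 7 / 16 * ‖s‖ * ‖A‖ * X * ‖2 + A‖ ≤ 7 / 16 * 1 * 1 * X * ‖2 + A‖ := by
          gcongr
        have m2 : δ * 1 ≤ δ * ‖2 + A‖ := by gcongr
        nlinarith
      rw [← l1, e]
      exact l2
    have hn' : Y / 2 ≤ 7 / 16 * X + δ := le_of_mul_le_mul_left hn (by linarith)
    have hY0 : 0 ≤ Y := norm_nonneg _
    have hYY : Y ^ 2 ≤ (7 / 8 * X + 2 * δ) ^ 2 := by
      apply pow_le_pow_left₀ hY0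
      linarith
    rw [hXY] at hYY
    have q1 : δ * X ≤ 1 / 50 * X := by gcongr
    have q2 : δ * δ ≤ 1 / 50 * (1 / 50) := by gcongr
    nlinarith

/-- the lift of the map -/
noncomputable def fl (t : ℂ) (p : V2) : E4 := (t, t * gf (p.1 0) p.2, p.2, 0)

lemma fl_diff (t : ℂ) : Differentiable ℂ (fl t) := by
  have h0 : Differentiable ℂ (fun p : V2 => p.1 0) := by fun_prop
  unfold fl gf
  fun_prop

lemma wf_fl (t : ℂ) (p : V2) : wf (fl t p) = t * (gf (p.1 0) p.2 - (starRingEnd ℂ) p.2) := by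
  simp only [wf, fl]
  ring

lemma fl_mem {t : ℂ} (ht : ‖t‖ < 1) (ht0 : t ≠ 0) {p : V2}
    (hp : gf (p.1 0) p.2 ≠ (starRingEnd ℂ) p.2) : fl t p ∈ U := by
  refine ⟨?_, ht⟩
  rw [wf_fl]
  exact mul_ne_zero ht0 (sub_ne_zero.2 hp)

/-- the map -/
noncomputable def f (t : ℂ) (p : V2) : fam.Tot := fam.quot.Q (fl t p)

lemma f_mdiff {t : ℂ} (ht : ‖t‖ < 1) (ht0 : t ≠ 0) {p : V2}
    (hp : gf (p.1 0) p.2 ≠ (starRingEnd ℂ) p.2) :
    letI := fam.quot.cs
    MDifferentiableAt 𝓘(ℂ, V2) 𝓘(ℂ, E4) (f t) p := by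
  let _ := fam.quot.cs
  exact fam.quot.mdifferentiableAt_Q (fl_diff t p) (fl_mem ht ht0 hp)

lemma f_proj {t : ℂ} (ht : ‖t‖ < 1) (ht0 : t ≠ 0) {p : V2}
    (hp : gf (p.1 0) p.2 ≠ (starRingEnd ℂ) p.2) : fam.proj (f t p) = t := by
  show fam.proj (fam.quot.Q (fl t p)) = t
  rw [fam.proj_Q (fl_mem ht ht0 hp)]
  rfl

/-- complement of a discrete set in the plane -/
lemma connected_compl1 {D A : Set ℂ} (hD : IsOpen D) (hDc : Convex ℝ D) (hDne : D.Nonempty)
    (hA : ∀ x ∈ D, ∃ U : Set ℂ, IsOpen U ∧ x ∈ U ∧ A ∩ U ⊆ {x}) :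
    IsOpen (D \ A) ∧ IsConnected (D \ A) ∧ D ⊆ closure (D \ A) := by
  have ho : IsOpen (D \ A) := by
    rw [isOpen_iff_mem_nhds]
    rintro x ⟨hxD, hxA⟩
    obtain ⟨U, hU, hxU, h⟩ := hA x hxD
    filter_upwards [hD.mem_nhds hxD, hU.mem_nhds hxU] with y h1 h2
    refine ⟨h1, fun h3 => hxA ?_⟩
    have : y = x := h ⟨h3, h2⟩
    rwa [this] at h3
  have h1 := isConnected_diff_thin (A := A) hD ⟨hDne, hDc.isPreconnected⟩ (fun x hx => by
    obtain ⟨U, hU, hxU, h⟩ := hA x hx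
    refine ⟨U, hU, hxU, fun p => p - x, by fun_prop, ?_, ?_⟩
    · intro y hy
      have : y = x := h hy
      simp [this]
    · intro hev
      have h4 : ∀ᶠ τ : ℂ in 𝓝[≠] x, τ ≠ x := eventually_mem_nhdsWithin
      obtain ⟨τ, hτ1, hτ2⟩ := ((hev.filter_mono nhdsWithin_le_nhds).and h4).exists
      exact hτ2 (sub_eq_zero.1 hτ1)) ho
  exact ⟨ho, h1.1, h1.2⟩

lemma mk2_mem {s A : ℂ} : mk2 s A ∈ polydisc 1 ↔ ‖s‖ < 1 ∧ ‖A‖ < 1 := by
  simp only [polydisc, mem_ofPred_eq, norm_mk2]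
  rfl

lemma mk2_diff (A : ℂ) : Differentiable ℂ (fun s => mk2 s A) := by unfold mk2; fun_prop

lemma Q_act_par (g : Gam) {t : ℂ} (ht : ‖t‖ < 1) {q : ℂ × ℂ × ℂ} (hq : q.1 ≠ 0) :
    fam.quot.Q (par t q) = fam.quot.Q (par t ((lam : ℂ) ^ g.k * q.1,
      (lam : ℂ) ^ g.k * q.2.1 + g.a, (mu : ℂ) ^ g.k * q.2.2 + g.b)) := by
  rw [← act_par, ← fam.Q_act g (par_mem ht hq)]
  rfl

/-- Two points of the fibre which differ by a real translation in the first direction. -/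
lemma Q_par_ne {t : ℂ} (ht : ‖t‖ < 1) (ht0 : t ≠ 0) (y : ℂ × ℂ) :
    fam.quot.Q (par t (t, y.1 + 1, y.2)) ≠ fam.quot.Q (par t (t, y.1, y.2)) := by
  intro h
  obtain ⟨g, hg⟩ := fam.Q_eq_iff (x := par t (t, y.1 + 1, y.2)) (y := par t (t, y.1, y.2))
    (par_mem ht ht0) (par_mem ht ht0) h
  have hg' : par t (t, y.1 + 1, y.2) = act g (par t (t, y.1, y.2)) := hg
  rw [act_par] at hg'
  have h1 := congrArg wf hg'
  rw [wf_par, wf_par] at h1
  have hk : g.k = 0 := by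
    apply lam_zpow_inj
    have h2 : (lam : ℂ) ^ g.k * t = (lam : ℂ) ^ (0 : ℤ) * t := by
      rw [zpow_zero, one_mul]; exact h1.symm
    exact mul_right_cancel₀ ht0 h2
  have h2 := congrArg (fun q : E4 => q.2.2.1) hg'
  have h3 := congrArg (fun q : E4 => q.2.2.2) hg'
  simp only [par, hk, zpow_zero, one_mul] at h2 h3
  have ha : g.a = 1 := (add_left_cancel h2).symm
  have hb : g.b = 0 := by
    have : y.2 + 0 = y.2 + g.b := by rw [add_zero]; exact h3
    exact (add_left_cancel this).symm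
  have hm := g.mem
  rw [ha, hb] at hm
  exact one_ne_zero (Lat.eq_zero_of_snd hm)

lemma eta_cont : ContinuousAt eta 0 := by
  have h : Continuous (starRingEnd ℂ) := Complex.continuous_conj
  unfold eta
  apply ContinuousAt.div
  · fun_prop
  · fun_prop
  · exact four_sub_ne (by simp)

/-- the approximating sequences -/
noncomputable def An (a c : ℂ) (n : ℕ) : ℂ := a + ((lam : ℂ)⁻¹) ^ n * c

/-- the approximating sequences -/
noncomputable def sn (a c : ℂ) (n : ℕ) : ℂ :=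
  (3 / 2 + An a c n - (starRingEnd ℂ) (An a c n) - ((lam : ℂ)⁻¹) ^ n) /
    (7 / 16 * (4 - (An a c n) ^ 2))

lemma tendsto_pow : Tendsto (fun n : ℕ => ((lam : ℂ)⁻¹) ^ n) atTop (𝓝 0) := by
  apply tendsto_pow_atTop_nhds_zero_of_norm_lt_one
  rw [norm_inv, Complex.norm_real, Real.norm_of_nonneg lam_pos.le]
  exact inv_lt_one_of_one_lt₀ lam_gt

lemma tendsto_An (a c : ℂ) : Tendsto (An a c) atTop (𝓝 a) := by
  have := (tendsto_pow.mul_const c).const_add a
  rw [zero_mul, add_zero] at this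
  exact this

lemma tendsto_sn {a : ℂ} (ha : ‖a‖ < 1) (c : ℂ) : Tendsto (sn a c) atTop (𝓝 (eta a)) := by
  have h1 := tendsto_An a c
  have h2 : Tendsto (fun n => (starRingEnd ℂ) (An a c n)) atTop (𝓝 ((starRingEnd ℂ) a)) :=
    (Complex.continuous_conj.tendsto a).comp h1
  have h3 := (((h1.const_add (3 / 2)).sub h2).sub tendsto_pow)
  rw [sub_zero] at h3
  exact h3.div (((h1.pow 2).const_sub 4).const_mul (7 / 16)) (four_sub_ne ha)

lemma tendsto_mk2 {u v : ℕ → ℂ} {x y : ℂ} (hu : Tendsto u atTop (𝓝 x))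
    (hv : Tendsto v atTop (𝓝 y)) : Tendsto (fun n => mk2 (u n) (v n)) atTop (𝓝 (mk2 x y)) := by
  have h : Continuous (fun q : ℂ × ℂ => mk2 q.1 q.2) := by unfold mk2; fun_prop
  exact (h.tendsto (x, y)).comp (hu.prodMk_nhds hv)

lemma gf_sn {a c : ℂ} {n : ℕ} (hA : ‖An a c n‖ < 1) :
    gf (sn a c n) (An a c n) = (starRingEnd ℂ) (An a c n) + ((lam : ℂ)⁻¹) ^ n := by
  have h := four_sub_ne hA
  have h1 : sn a c n * (7 / 16 * (4 - (An a c n) ^ 2)) =
      3 / 2 + An a c n - (starRingEnd ℂ) (An a c n) - ((lam : ℂ)⁻¹) ^ n := div_mul_cancel₀ _ h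
  rw [gf]
  linear_combination -h1

lemma f_sn {t : ℂ} (ht : ‖t‖ < 1) (ht0 : t ≠ 0) {a c : ℂ} {n : ℕ} (hA : ‖An a c n‖ < 1) :
    f t (mk2 (sn a c n) (An a c n)) =
      fam.quot.Q (par t (t, (lam : ℂ) ^ n * a + c, 0)) := by
  have hl : (lam : ℂ)⁻¹ ^ n ≠ 0 := pow_ne_zero _ (inv_ne_zero lamC_ne)
  have hll : (lam : ℂ) ^ n * (lam : ℂ)⁻¹ ^ n = 1 := by
    rw [← mul_pow, mul_inv_cancel₀ lamC_ne, one_pow]
  have h1 : fl t (mk2 (sn a c n) (An a c n)) = par t (t * (lam : ℂ)⁻¹ ^ n, An a c n, 0) := by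
    have h2 : fl t (mk2 (sn a c n) (An a c n)) =
      (t, t * gf (sn a c n) (An a c n), An a c n, 0) := rfl
    rw [h2, gf_sn hA]
    simp only [par]
    refine Prod.ext rfl (Prod.ext ?_ rfl)
    simp only
    ring
  show fam.quot.Q (fl t (mk2 (sn a c n) (An a c n))) = _
  rw [h1, Q_act_par (Gam.mk n 0 0 Lat.zero) ht (mul_ne_zero ht0 hl)]
  congr 2
  have hk : (Gam.mk n 0 0 Lat.zero).k = n := rfl
  have ha : (Gam.mk n 0 0 Lat.zero).a = 0 := rfl
  have hb : (Gam.mk n 0 0 Lat.zero).b = 0 := rfl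
  rw [hk, ha, hb, zpow_natCast]
  refine Prod.ext ?_ (Prod.ext ?_ ?_)
  · simp only
    linear_combination t * hll
  · simp only [An]
    linear_combination c * hll
  · simp

/-- The fibres over `t ≠ 0` do not have the meromorphic extension property. -/
theorem not_hasMeromorphicExtension {t : ℂ} (ht : ‖t‖ < 1) (ht0 : t ≠ 0) :
    letI := fam.quot.cs
    ¬ HasMeromorphicExtension E4 (fam.proj ⁻¹' {t}) := by
  let _ := fam.quot.cs
  have hT2 := fam.t2
  have hMan : IsManifold 𝓘(ℂ, E4) ω fam.Tot := fam.quot.isManifold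
  have hMan1 : IsManifold 𝓘(ℂ, E4) 1 fam.Tot := IsManifold.of_le (n := ω) le_top
  intro hext
  -- the map on the Hartogs figure
  have hmer : IsMeromorphicMap E4 (hartogs 1 (1 / 100)) (fam.proj ⁻¹' {t}) ∅ (f t) := by
    have hmd : MDifferentiableOn 𝓘(ℂ, V2) 𝓘(ℂ, E4) (f t) (hartogs 1 (1 / 100)) := fun p hp =>
      (f_mdiff ht ht0 (gf_ne hp)).mdifferentiableWithinAt
    refine ⟨⟨empty_subset _, fun x hx => ⟨hartogs 1 (1 / 100), isOpen_hartogs _ _, hx, subset_rfl,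
      1, fun _ _ => 1, mdifferentiableOn_const, ?_⟩⟩, fun p hp => hp.elim, ?_, ?_, ?_⟩
    · ext y
      constructor
      · rintro ⟨h, -⟩; exact h.elim
      · rintro ⟨-, h⟩
        have := congrFun h 0
        simp at this
    · rw [sdiff_empty]; exact hmd
    · rintro p ⟨hp, -⟩
      exact f_proj ht ht0 (gf_ne hp)
    · rw [sdiff_empty]
      exact graph_analytic (isOpen_hartogs _ _) hmd
  obtain ⟨B, F, hF, hFf⟩ := hext 1 (1 / 100) (by norm_num) (by norm_num) ∅ (f t) hmer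
  have hDo : IsOpen (polydisc 1) := isOpen_polydisc 1
  have hDB : IsOpen (polydisc 1 \ B) := isOpen_diff_of_analytic hF.analytic
  -- `F = f` off the holes
  have hEq : ∀ s A : ℂ, ‖s‖ < 1 → ‖A‖ < 1 → mk2 s A ∉ B → s ≠ eta A →
      F (mk2 s A) = f t (mk2 s A) := by
    intro s A hs hA hB hsA
    set Bd : Set ℂ := {s | mk2 s A ∈ B} ∪ {eta A} with hBd
    have hcont : Continuous (fun s => mk2 s A) := (mk2_diff A).continuous
    have hthin : ∀ x ∈ ball (0 : ℂ) 1, ∃ W : Set ℂ, IsOpen W ∧ x ∈ W ∧ Bd ∩ W ⊆ {x} := by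
      intro x hx
      have hxD : mk2 x A ∈ polydisc 1 := mk2_mem.2 ⟨by simpa using hx, hA⟩
      obtain ⟨W, hW, hxW, -, hBW⟩ := discrete hF.analytic hF.codim hxD
      have key : ∀ y, y ∈ {s | mk2 s A ∈ B} → mk2 y A ∈ W → y = x := by
        intro y hy hyW
        have h1 : mk2 y A = mk2 x A := hBW ⟨hy, hyW⟩
        exact congrFun (congrArg Prod.fst h1) 0
      by_cases hxp : x = eta A
      · refine ⟨(fun s => mk2 s A) ⁻¹' W, hW.preimage hcont, hxW, ?_⟩
        rintro y ⟨hy | hy, hyW⟩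
        · exact key y hy hyW
        · rw [hxp]; exact hy
      · refine ⟨(fun s => mk2 s A) ⁻¹' W ∩ {eta A}ᶜ,
          (hW.preimage hcont).inter isOpen_compl_singleton, ⟨hxW, hxp⟩, ?_⟩
        rintro y ⟨hy | hy, hyW, hyp⟩
        · exact key y hy hyW
        · exact absurd hy hyp
    obtain ⟨hLo, hLc, hLd⟩ := connected_compl1 isOpen_ball (convex_ball _ _)
      ⟨0, mem_ball_self one_pos⟩ hthin
    have hmemL : ∀ x ∈ ball (0 : ℂ) 1 \ Bd, mk2 x A ∈ polydisc 1 \ B ∧ x ≠ eta A := by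
      rintro x ⟨hx1, hx2⟩
      exact ⟨⟨mk2_mem.2 ⟨by simpa using hx1, hA⟩, fun h => hx2 (Or.inl h)⟩,
        fun h => hx2 (Or.inr h)⟩
    have hmF : MDifferentiableOn 𝓘(ℂ, ℂ) 𝓘(ℂ, E4) (fun x => F (mk2 x A))
        (ball (0 : ℂ) 1 \ Bd) := by
      intro x hx
      have h1 : MDifferentiableAt 𝓘(ℂ, V2) 𝓘(ℂ, E4) F (mk2 x A) :=
        (hF.holo _ (hmemL x hx).1).mdifferentiableAt (hDB.mem_nhds (hmemL x hx).1)
      exact (h1.comp x (mk2_diff A x).mdifferentiableAt).mdifferentiableWithinAt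
    have hmf : MDifferentiableOn 𝓘(ℂ, ℂ) 𝓘(ℂ, E4) (fun x => f t (mk2 x A))
        (ball (0 : ℂ) 1 \ Bd) := by
      intro x hx
      have h1 : MDifferentiableAt 𝓘(ℂ, V2) 𝓘(ℂ, E4) (f t) (mk2 x A) := by
        apply f_mdiff ht ht0
        intro h
        exact (hmemL x hx).2 ((gf_eq_iff hA).1 h)
      exact (h1.comp x (mk2_diff A x).mdifferentiableAt).mdifferentiableWithinAt
    obtain ⟨z₁, hz₁H, hz₁D⟩ := mem_closure_iff_nhds.1 (hLd (mem_ball_self one_pos)) _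
      (ball_mem_nhds (0 : ℂ) (by norm_num : (0 : ℝ) < 1 / 100))
    have hFe : (fun x => F (mk2 x A)) =ᶠ[𝓝 z₁] fun x => f t (mk2 x A) := by
      filter_upwards [isOpen_ball.mem_nhds hz₁H, hLo.mem_nhds hz₁D] with x h1 h2
      apply hFf _ _ (notMem_empty _) (hmemL x h2).1.2
      refine ⟨(hmemL x h2).1.1.1, (hmemL x h2).1.1.2, Or.inl ?_⟩
      rw [norm_mk2]
      simpa using h1
    refine eqOn_of_preconnected hLo hLc.isPreconnected hmF hmf hz₁D hFe
      (⟨by simpa using hs, ?_⟩ : s ∈ ball (0 : ℂ) 1 \ Bd)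
    rintro (h | h)
    · exact hB h
    · exact hsA h
  -- a hole where `F` is holomorphic
  have he0 : eta 0 = 6 / 7 := by simp [eta]; norm_num
  have hcont : ContinuousAt (fun a => mk2 (eta a) a) 0 := by
    have h : Continuous (fun q : ℂ × ℂ => mk2 q.1 q.2) := by unfold mk2; fun_prop
    exact h.continuousAt.comp (eta_cont.prodMk continuousAt_id)
  have hp0 : mk2 (eta 0) 0 ∈ polydisc 1 := by
    rw [mk2_mem, he0]
    norm_num
  obtain ⟨W, hW, hpW, hWD, hBW⟩ := discrete hF.analytic hF.codim hp0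
  have h4 : ∀ᶠ a : ℂ in 𝓝[≠] 0, a ≠ 0 := eventually_mem_nhdsWithin
  have h5 : ∀ᶠ a : ℂ in 𝓝 0, mk2 (eta a) a ∈ W := hcont.preimage_mem_nhds (hW.mem_nhds hpW)
  obtain ⟨a, haW, ha0⟩ := ((h5.filter_mono nhdsWithin_le_nhds).and h4).exists
  have haB : mk2 (eta a) a ∉ B := by
    intro h
    have : mk2 (eta a) a = mk2 (eta 0) 0 := hBW ⟨h, haW⟩
    exact ha0 (congrArg Prod.snd this)
  have haD := mk2_mem.1 (hWD haW)
  have haDB : mk2 (eta a) a ∈ polydisc 1 \ B := ⟨hWD haW, haB⟩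
  have hFc : ContinuousAt F (mk2 (eta a) a) :=
    ((hF.holo _ haDB).mdifferentiableAt (hDB.mem_nhds haDB)).continuousAt
  -- values of `F` along the sequences
  have hlim : ∀ c : ℂ, Tendsto (fun n : ℕ => fam.quot.Q (par t (t, (lam : ℂ) ^ n * a + c, 0)))
      atTop (𝓝 (F (mk2 (eta a) a))) := by
    intro c
    have h1 := tendsto_mk2 (tendsto_sn haD.2 c) (tendsto_An a c)
    have h2 := hFc.tendsto.comp h1
    refine h2.congr' ?_
    filter_upwards [h1.eventually (hDB.mem_nhds haDB)] with n hn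
    have hn1 := mk2_mem.1 hn.1
    rw [Function.comp_apply, hEq _ _ hn1.1 hn1.2 hn.2, f_sn ht ht0 hn1.2]
    rw [Ne, ← gf_eq_iff hn1.2, gf_sn hn1.2]
    intro h
    have hl : (lam : ℂ)⁻¹ ^ n ≠ 0 := pow_ne_zero _ (inv_ne_zero lamC_ne)
    exact hl (by linear_combination h)
  -- bounded representatives
  have hnear : ∀ n : ℕ, ∃ q : ℂ × ℂ, q ∈ closedBall (0 : ℂ × ℂ) 4 ∧ ∀ c : ℂ,
      fam.quot.Q (par t (t, (lam : ℂ) ^ n * a + c, 0)) =
        fam.quot.Q (par t (t, q.1 + c, q.2)) := by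
    intro n
    obtain ⟨α, β, hαβ, h1, h2⟩ := Lat.exists_near ((lam : ℂ) ^ n * a) 0
    refine ⟨((lam : ℂ) ^ n * a + α, β), ?_, fun c => ?_⟩
    · rw [mem_closedBall_zero_iff, Prod.norm_def]
      exact max_le h1 (by simpa using h2)
    · rw [Q_act_par (Gam.mk 0 α β hαβ) ht ht0]
      congr 2
      have hk : (Gam.mk 0 α β hαβ).k = 0 := rfl
      have ha : (Gam.mk 0 α β hαβ).a = α := rfl
      have hb : (Gam.mk 0 α β hαβ).b = β := rfl
      rw [hk, ha, hb]
      refine Prod.ext ?_ (Prod.ext ?_ ?_)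
      · simp
      · simp only [zpow_zero]; ring
      · simp
  choose q hq hq2 using hnear
  obtain ⟨y, -, φ, hφ, hy⟩ := (isCompact_closedBall (0 : ℂ × ℂ) 4).tendsto_subseq hq
  have hlim2 : ∀ c : ℂ, fam.quot.Q (par t (t, y.1 + c, y.2)) = F (mk2 (eta a) a) := by
    intro c
    have h1 := (hlim c).comp hφ.tendsto_atTop
    have h2 : Tendsto (fun n => par t (t, (q (φ n)).1 + c, (q (φ n)).2)) atTop
        (𝓝 (par t (t, y.1 + c, y.2))) := by
      have h : Continuous (fun w : ℂ × ℂ => par t (t, w.1 + c, w.2)) := by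
        apply (continuous_par t).comp
        fun_prop
      exact (h.tendsto y).comp hy
    have h3 := (fam.quot.continuousAt_Q
      (par_mem ht ht0 : par t (t, y.1 + c, y.2) ∈ U)).tendsto.comp h2
    refine tendsto_nhds_unique h3 (h1.congr fun n => ?_)
    exact hq2 (φ n) c
  apply Q_par_ne ht ht0 y
  rw [hlim2 1]
  have := hlim2 0
  rw [add_zero] at this
  exact this.symm

end Pool.Agent.Helper417.Mer.Opn
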